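import Pool.Agent.H602SS.Window

set_option autoImplicit false
set_option maxHeartbeats 4000000

/-!
# Record prime gaps around popular sums of three dense sets of integers or of primes
-/

namespace Pool.Agent.H602SS

open Finset Filter
open Pool.Agent.W147.PS (ff ff_compare ev_pow)

open scoped Classical

theorem fin (δ ε : ℝ) (hδ : 0 < δ) (hε : 0 < ε) : ∃ κ : ℝ, 0 < κ ∧ ∃ c : ℝ, 0 < c ∧
    ∃ N₀ : ℕ, ∀ N : ℕ, N₀ ≤ N → ∀ A B C : Finset ℤ, Dense δ N A → Dense δ N B → Dense δ N C →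
    ∃ 𝒮 : Finset ℤ, (N : ℝ) ^ (1 - ε) ≤ 𝒮.card ∧ ∀ n ∈ 𝒮,
      c * (A.card * B.card * C.card / N) ≤ reps A B C n ∧
      ∀ m : ℤ, |(m : ℝ) - n| ≤ κ * ff N →
        ∃ p : ℕ, p.Prime ∧ (p : ℝ) ≤ (N : ℝ) ^ ε ∧ (p : ℤ) ∣ m := by
  obtain ⟨CR, hCR, N₁, hgood⟩ := good δ hδ
  have hCR0 : 0 < CR := by linarith
  obtain ⟨K, ρ, hρ, hspec⟩ := specR (δ / 2) CR (by positivity) hCR
  obtain ⟨θ, hθ⟩ : ∃ θ : ℝ, θ = min (1 / ((K : ℝ) + 3)) (ε / 4) := ⟨_, rfl⟩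
  have hθ0 : 0 < θ := by rw [hθ]; exact lt_min (by positivity) (by positivity)
  have hθK : θ ≤ 1 / ((K : ℝ) + 3) := by rw [hθ]; exact min_le_left _ _
  have hθε : θ ≤ ε / 4 := by rw [hθ]; exact min_le_right _ _
  have hK0 : (0 : ℝ) ≤ K := Nat.cast_nonneg K
  have hθK2 : θ * ((K : ℝ) + 2) < 1 := by
    have h1 : θ * ((K : ℝ) + 3) ≤ 1 := by
      calc θ * ((K : ℝ) + 3) ≤ 1 / ((K : ℝ) + 3) * ((K : ℝ) + 3) := by gcongr
        _ = 1 := by field_simp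
    nlinarith
  have hθ1 : θ ≤ 1 := by
    refine hθK.trans ?_
    rw [div_le_one (by positivity)]
    linarith
  obtain ⟨CQ, hCQ⟩ : ∃ CQ : ℝ, CQ = 2 * Real.pi / ρ + 1 := ⟨_, rfl⟩
  have hCQ1 : 1 ≤ CQ := by
    rw [hCQ]
    have : 0 ≤ 2 * Real.pi / ρ := by positivity
    linarith
  have hCQ0 : 0 < CQ := by linarith
  obtain ⟨κ, hκ, M₀, hwin⟩ := window θ CQ K hθ0 hθ1 hCQ1
  obtain ⟨c₀, hc₀⟩ : ∃ c₀ : ℝ, c₀ = (δ / 2) ^ 3 / (4 * CR ^ 2) := ⟨_, rfl⟩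
  have hc₀0 : 0 < c₀ := by rw [hc₀]; positivity
  have tθ : Tendsto (fun M : ℝ => M ^ θ) atTop atTop := tendsto_rpow_atTop hθ0
  have hevR : ∀ᶠ M : ℝ in atTop, (1 ≤ M) ∧ M₀ ≤ M ∧ 10 ≤ M ^ θ ∧
      CQ ^ K * M ^ (θ * ((K : ℝ) + 2)) ≤ M ∧
      M ^ (1 - ε) * (M ^ θ * M ^ θ) * Real.log M ≤ c₀ * M := by
    filter_upwards [eventually_ge_atTop (1 : ℝ), eventually_ge_atTop M₀,
      tθ.eventually_ge_atTop 10,
      ev_pow (θ * ((K : ℝ) + 2)) 1 (CQ ^ K) hθK2, ev_count θ ε c₀ hc₀0 hε hθε]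
      with M a1 a2 a3 a4 a5
    refine ⟨a1, a2, a3, ?_, a5⟩
    rwa [Real.rpow_one] at a4
  have tN : Tendsto (fun N : ℕ => (N : ℝ)) atTop atTop := tendsto_natCast_atTop_atTop
  obtain ⟨N₂, hN₂⟩ := eventually_atTop.1 (tN.eventually hevR)
  refine ⟨κ, hκ, (δ / 2) ^ 3 / (72 * (8 * CR ^ 3)), by positivity, max N₁ N₂, ?_⟩
  intro N hN A B C hA hB hC
  obtain ⟨b1, b2, b3, b4, b5⟩ := hN₂ N ((le_max_right _ _).trans hN)
  obtain ⟨hlog, hgd⟩ := hgood N ((le_max_left _ _).trans hN)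
  have hN1 : 1 ≤ N := by exact_mod_cast b1
  have hNr0 : (0 : ℝ) < N := by linarith
  have hw0 : 0 < (N : ℝ) / Real.log N := by positivity
  obtain ⟨x, wA, A', hwA, hA', hAx, hA2, hAd, hAR⟩ := hgd A hA
  obtain ⟨y, wB, B', hwB, hB', hBy, hB2, hBd, hBR⟩ := hgd B hB
  obtain ⟨z, wC, C', hwC, hC', hCz, hC2, hCd, hCRR⟩ := hgd C hC
  have hwA0 : 0 < wA := lt_of_lt_of_le hw0 hwA
  have hwB0 : 0 < wB := lt_of_lt_of_le hw0 hwB
  have hwC0 : 0 < wC := lt_of_lt_of_le hw0 hwC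
  obtain ⟨X, hX⟩ : ∃ X : ℝ, X = (N : ℝ) ^ θ := ⟨_, rfl⟩
  obtain ⟨bw, hbw⟩ := hwin N b2
  rw [← hX] at b3 b5 hbw
  have hX0 : 0 < X := by linarith
  have hX1 : 1 ≤ X := by linarith
  obtain ⟨l, hl⟩ : ∃ l : ℝ, l = Real.log X := ⟨_, rfl⟩
  have hl0 : 0 ≤ l := by rw [hl]; exact Real.log_nonneg hX1
  rw [← hl] at hbw
  -- the primes up to `l / 10`
  obtain ⟨T, hT⟩ : ∃ T : Finset ℕ, T = (Finset.range (⌊l / 10⌋₊ + 1)).filter Nat.Prime := ⟨_, rfl⟩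
  have hmemT : ∀ p : ℕ, p ∈ T ↔ p.Prime ∧ (p : ℝ) ≤ l / 10 := by
    intro p
    rw [hT, mem_filter, mem_range, Nat.lt_succ_iff, Nat.le_floor_iff (by linarith)]
    tauto
  have hTp : ∀ p ∈ T, p.Prime := fun p hp => ((hmemT p).1 hp).1
  have hPX : ((∏ p ∈ T, p : ℕ) : ℝ) ≤ X := by
    have h1 := primorial_le hX1
    rw [← hl] at h1
    have h2 : primorial ⌊l / 10⌋₊ = ∏ p ∈ T, p := by rw [hT]; rfl
    rw [h2] at h1
    refine h1.trans ?_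
    calc X ^ (3 / 20 : ℝ) ≤ X ^ (1 : ℝ) := Real.rpow_le_rpow_of_exponent_le hX1 (by norm_num)
      _ = X := Real.rpow_one _
  have hXN : X ≤ N := by
    rw [hX]
    calc (N : ℝ) ^ θ ≤ (N : ℝ) ^ (1 : ℝ) := Real.rpow_le_rpow_of_exponent_le b1 hθ1
      _ = N := Real.rpow_one _
  have hPN : ∏ p ∈ T, p ≤ N := by
    have : ((∏ p ∈ T, p : ℕ) : ℝ) ≤ N := by linarith
    exact_mod_cast this
  obtain ⟨S, hST, hSK, hS⟩ := hspec N hN1 T hTp hPN A' B' C' hA' hB' hC' wA wB wC hwA0 hwB0 hwC0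
    hAd hBd hCd (fun M h8 h9 => ⟨hAR M h8 h9, hBR M h8 h9, hCRR M h8 h9⟩)
  obtain ⟨Q, hQ⟩ : ∃ Q : ℕ, Q = ⌈2 * Real.pi / ρ * X⌉₊ := ⟨_, rfl⟩
  have hQ1 : 2 * Real.pi / ρ * X ≤ Q := by rw [hQ]; exact Nat.le_ceil _
  have hQ2 : (Q : ℝ) ≤ CQ * X := by
    have h1 : (Q : ℝ) < 2 * Real.pi / ρ * X + 1 := by
      rw [hQ]
      exact Nat.ceil_lt_add_one (by positivity)
    rw [hCQ]
    nlinarith
  have hQ0 : 1 ≤ Q := by
    have h1 : (0 : ℝ) < Q := lt_of_lt_of_le (by positivity) hQ1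
    exact_mod_cast h1
  obtain ⟨d, hd1, hdQ, 𝒩, h𝒩, hcard, hrep⟩ := hS (bw S - (x + y + z)) Q hQ0
  obtain ⟨P', hP'⟩ : ∃ P' : ℕ, P' = ∏ p ∈ T \ S, p := ⟨_, rfl⟩
  rw [← hP'] at h𝒩 hcard hrep
  have hP'1 : 1 ≤ P' := by
    rw [hP']
    exact Nat.one_le_iff_ne_zero.2 (prod_ne_zero_iff.2 fun p hp =>
      (hTp p (mem_sdiff.1 hp).1).ne_zero)
  have hP'X : (P' : ℝ) ≤ X := by
    have h1 : P' ≤ ∏ p ∈ T, p := by
      rw [hP']
      refine Finset.prod_le_prod_of_subset_of_one_le' sdiff_subset fun p hp _ => ?_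
      exact (hTp p hp).one_le
    have h2 : (P' : ℝ) ≤ ((∏ p ∈ T, p : ℕ) : ℝ) := by exact_mod_cast h1
    linarith
  have hPp : ∀ p : ℕ, p.Prime → p ∣ P' → (p : ℝ) ≤ l / 10 := by
    intro p hp hpd
    rw [hP'] at hpd
    obtain ⟨q, hq, hpq⟩ := (hp.prime.dvd_finsetProd_iff _).1 hpd
    have hqT := (mem_sdiff.1 hq).1
    have h2 := (Nat.prime_dvd_prime_iff_eq hp (hTp q hqT)).1 hpq
    rw [h2]
    exact ((hmemT q).1 hqT).2
  have hPS : ∀ p : ℕ, p.Prime → (p : ℝ) ≤ l / 10 → p ∉ S → p ∣ P' := by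
    intro p hp hpl hpS
    rw [hP']
    exact Finset.dvd_prod_of_mem _ (mem_sdiff.2 ⟨(hmemT p).2 ⟨hp, hpl⟩, hpS⟩)
  have hdr : (d : ℝ) ≤ (CQ * X) ^ K := by
    calc (d : ℝ) ≤ (Q : ℝ) ^ K := by exact_mod_cast hdQ
      _ ≤ _ := by gcongr
  have key : ∀ n₀ ∈ 𝒩, ∃ j : ℕ, 1 ≤ j ∧ (j : ℝ) ≤ X ∧
      ∀ m : ℤ, |(m : ℝ) - (n₀ + (x + y + z) + (P' * d : ℕ) * (j : ℕ) : ℤ)| ≤ κ * ff N →
          ∃ p : ℕ, p.Prime ∧ (p : ℝ) ≤ X ∧ (p : ℤ) ∣ m := by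
    intro n₀ hn₀
    refine hbw S hSK d hd1 hdr P' hP'1 hPp hPS (n₀ + (x + y + z)) ?_
    have h1 := (h𝒩 n₀ hn₀).1
    have h2 : n₀ + (x + y + z) - bw S = n₀ - (bw S - (x + y + z)) := by ring
    rw [h2]
    exact h1
  choose! jj hjj using key
  obtain ⟨J, hJ⟩ : ∃ J : ℕ, J = ⌊X⌋₊ := ⟨_, rfl⟩
  have hJX : (J : ℝ) ≤ X := by rw [hJ]; exact Nat.floor_le hX0.le
  have hjJ : ∀ n ∈ 𝒩, 1 ≤ jj n ∧ jj n ≤ J := by
    intro n hn
    have h1 := hjj n hn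
    refine ⟨h1.1, ?_⟩
    rw [hJ]
    exact Nat.le_floor h1.2.1
  have hfib := fibres 𝒩 J (x + y + z) ((P' * d : ℕ) : ℤ) jj hjJ
  obtain ⟨𝒮, h𝒮⟩ : ∃ 𝒮 : Finset ℤ,
      𝒮 = 𝒩.image (fun n => n + (x + y + z) + ((P' * d : ℕ) : ℤ) * (jj n : ℤ)) := ⟨_, rfl⟩
  rw [← h𝒮] at hfib
  refine ⟨𝒮, ?_, ?_⟩
  · have h1 : (𝒩.card : ℝ) ≤ J * 𝒮.card := by exact_mod_cast hfib
    have h2 : (δ / 2) ^ 3 * (N / Real.log N) ≤ 4 * CR ^ 2 * (X * X) * 𝒮.card := by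
      calc (δ / 2) ^ 3 * (N / Real.log N) ≤ (δ / 2) ^ 3 * wC := by gcongr
        _ ≤ 4 * CR ^ 2 * P' * 𝒩.card := by exact_mod_cast hcard
        _ ≤ 4 * CR ^ 2 * X * (X * 𝒮.card) := by
            have h3 : (𝒩.card : ℝ) ≤ X * 𝒮.card := h1.trans (by gcongr)
            gcongr
        _ = 4 * CR ^ 2 * (X * X) * 𝒮.card := by ring
    have h3 : c₀ * (N / Real.log N) ≤ (X * X) * 𝒮.card := by
      rw [hc₀, div_mul_eq_mul_div, div_le_iff₀ (by positivity)]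
      calc (δ / 2) ^ 3 * (N / Real.log N) ≤ _ := h2
        _ = _ := by ring
    have h4 : (N : ℝ) ^ (1 - ε) * (X * X) ≤ c₀ * (N / Real.log N) := by
      rw [← mul_div_assoc, le_div_iff₀ (by linarith)]
      exact b5
    have h5 : (X * X) * (N : ℝ) ^ (1 - ε) ≤ (X * X) * 𝒮.card := by
      rw [mul_comm (X * X) ((N : ℝ) ^ (1 - ε))]
      exact h4.trans h3
    exact le_of_mul_le_mul_left h5 (by positivity)
  · intro n hn
    rw [h𝒮, mem_image] at hn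
    obtain ⟨n₀, hn₀, rfl⟩ := hn
    obtain ⟨hj1, hjX, hjw⟩ := hjj n₀ hn₀
    constructor
    · have h1 := hrep n₀ hn₀ (jj n₀) (by
        calc 2 * Real.pi * (jj n₀ : ℝ) ≤ 2 * Real.pi * X := by gcongr
          _ = ρ * (2 * Real.pi / ρ * X) := by field_simp
          _ ≤ ρ * Q := by gcongr) (by
        have h2 : ((P' * d * jj n₀ : ℕ) : ℝ) ≤ N := by
          push_cast
          calc (P' : ℝ) * d * jj n₀ ≤ X * (CQ * X) ^ K * X := by gcongr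
            _ = CQ ^ K * X ^ (K + 2) := by rw [mul_pow]; ring
            _ = CQ ^ K * (N : ℝ) ^ (θ * ((K : ℝ) + 2)) := by
              congr 1
              rw [hX, ← Real.rpow_natCast, ← Real.rpow_mul hNr0.le]
              push_cast
              ring_nf
            _ ≤ N := b4
        exact_mod_cast h2)
      have h2 := reps_le_of A B C A' B' C' x y z (n₀ + ((P' * d * jj n₀ : ℕ) : ℤ)) hAx hBy hCz
      have h3 : n₀ + ((P' * d * jj n₀ : ℕ) : ℤ) + (x + y + z) =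
          n₀ + (x + y + z) + ((P' * d : ℕ) : ℤ) * (jj n₀ : ℤ) := by push_cast; ring
      rw [h3] at h2
      have h4 : ((reps A' B' C' (n₀ + ((P' * d * jj n₀ : ℕ) : ℤ)) : ℕ) : ℝ) ≤
          reps A B C (n₀ + (x + y + z) + ((P' * d : ℕ) : ℤ) * (jj n₀ : ℤ)) := by exact_mod_cast h2
      refine le_trans ?_ (h1.trans h4)
      have hcA : (A.card : ℝ) ≤ 2 * (CR * wA) := by
        have := (hAR (9 * N) (by omega) le_rfl).card hwA0 hCR (by omega)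
        linarith
      have hcB : (B.card : ℝ) ≤ 2 * (CR * wB) := by
        have := (hBR (9 * N) (by omega) le_rfl).card hwB0 hCR (by omega)
        linarith
      have hcC : (C.card : ℝ) ≤ 2 * (CR * wC) := by
        have := (hCRR (9 * N) (by omega) le_rfl).card hwC0 hCR (by omega)
        linarith
      have h5 : (A.card : ℝ) * B.card * C.card ≤ 2 * (CR * wA) * (2 * (CR * wB)) *
          (2 * (CR * wC)) := by gcongr
      calc (δ / 2) ^ 3 / (72 * (8 * CR ^ 3)) * ((A.card : ℝ) * B.card * C.card / N) ≤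
          (δ / 2) ^ 3 / (72 * (8 * CR ^ 3)) * (2 * (CR * wA) * (2 * (CR * wB)) *
            (2 * (CR * wC)) / N) := by gcongr
        _ = (δ / 2) ^ 3 * (wA * wB * wC) / (72 * N) := by
          field_simp
          ring
    · intro m hm
      obtain ⟨p, hp, hpX, hpm⟩ := hjw m hm
      refine ⟨p, hp, hpX.trans ?_, hpm⟩
      rw [hX]
      exact Real.rpow_le_rpow_of_exponent_le b1 (by linarith)

end Pool.Agent.H602SS
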