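import Pool.Agent.H602SS.Fin

set_option autoImplicit false
set_option maxHeartbeats 4000000

/-!
# Record prime gaps around popular sums of three dense sets: composite windows
-/

namespace Pool.Agent.H602SS

open Finset Filter
open Pool.Agent.W147.PS (ff ff_compare ev_pow)

open scoped Classical

lemma ev_ff (κ : ℝ) (hκ : 0 < κ) : ∀ᶠ M : ℝ in atTop, κ * ff M ≤ M ^ (1 / 4 : ℝ) := by
  obtain ⟨c', hc', X₀, h⟩ := survS 1 one_pos 0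
  have h1 := (isLittleO_log_rpow_atTop (show (0 : ℝ) < 1 / 8 by norm_num)).def
    (show (0 : ℝ) < min 1 (c' / κ) by positivity)
  filter_upwards [eventually_ge_atTop X₀, h1, eventually_ge_atTop (1 : ℝ)] with M hM hM2 hM1
  obtain ⟨h4, L, hL1, hL2, -⟩ := h M hM
  have hff : Pool.Agent.H361R2.PA.FF 1 M = ff M := by
    unfold Pool.Agent.H361R2.PA.FF ff
    rw [pow_one]
  rw [hff] at hL1
  have hM0 : 0 < M := by linarith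
  have hl := Real.log_nonneg hM1
  rw [Real.norm_eq_abs, abs_of_nonneg hl, Real.norm_eq_abs,
    abs_of_nonneg (Real.rpow_nonneg hM0.le _)] at hM2
  have hr : 0 ≤ M ^ (1 / 8 : ℝ) := Real.rpow_nonneg hM0.le _
  have e1 : Real.log M ≤ M ^ (1 / 8 : ℝ) := hM2.trans (by
    have : min 1 (c' / κ) * M ^ (1 / 8 : ℝ) ≤ 1 * M ^ (1 / 8 : ℝ) := by
      gcongr
      exact min_le_left _ _
    linarith)
  have e2 : Real.log M ≤ c' / κ * M ^ (1 / 8 : ℝ) := hM2.trans (by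
    gcongr
    exact min_le_right _ _)
  have e3 : c' * ff M ≤ c' / κ * M ^ (1 / 4 : ℝ) := by
    calc c' * ff M ≤ Real.log M ^ 2 := by linarith
      _ = Real.log M * Real.log M := by ring
      _ ≤ (c' / κ * M ^ (1 / 8 : ℝ)) * M ^ (1 / 8 : ℝ) := by gcongr
      _ = c' / κ * (M ^ (1 / 8 : ℝ) * M ^ (1 / 8 : ℝ)) := by ring
      _ = c' / κ * M ^ (1 / 4 : ℝ) := by
          rw [← Real.rpow_add hM0]
          norm_num
  have e4 : c' * (κ * ff M) ≤ c' * M ^ (1 / 4 : ℝ) := by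
    calc c' * (κ * ff M) = κ * (c' * ff M) := by ring
      _ ≤ κ * (c' / κ * M ^ (1 / 4 : ℝ)) := by gcongr
      _ = c' * M ^ (1 / 4 : ℝ) := by field_simp
  exact le_of_mul_le_mul_left e4 hc'

theorem final (δ ε : ℝ) (hδ : 0 < δ) (hε : 0 < ε) : ∃ κ : ℝ, 0 < κ ∧ ∃ c : ℝ, 0 < c ∧
    ∃ N₀ : ℕ, ∀ N : ℕ, N₀ ≤ N → ∀ A B C : Finset ℤ, Dense δ N A → Dense δ N B → Dense δ N C →
    ∃ 𝒮 : Finset ℤ, (N : ℝ) ^ (1 - ε) ≤ 𝒮.card ∧ ∀ n ∈ 𝒮,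
      c * (A.card * B.card * C.card / N) ≤ reps A B C n ∧
      ∀ m : ℤ, |(m : ℝ) - n| ≤ κ * ff N →
        ∃ p : ℕ, p.Prime ∧ (p : ℝ) ≤ (N : ℝ) ^ ε ∧ (p : ℤ) ∣ m ∧ (p : ℤ) < |m| := by
  obtain ⟨ε', hε'⟩ : ∃ ε' : ℝ, ε' = min (ε / 2) (1 / 8) := ⟨_, rfl⟩
  have hε'0 : 0 < ε' := by rw [hε']; positivity
  have hε'1 : ε' ≤ ε / 2 := by rw [hε']; exact min_le_left _ _
  have hε'2 : ε' ≤ 1 / 8 := by rw [hε']; exact min_le_right _ _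
  obtain ⟨κ, hκ, c, hc, N₁, h⟩ := fin δ ε' hδ hε'0
  have hev : ∀ᶠ M : ℝ in atTop, 1 ≤ M ∧ κ * ff M ≤ M ^ (1 / 4 : ℝ) ∧
      2 * M ^ (1 / 4 : ℝ) ≤ M ^ (1 / 2 : ℝ) ∧ 2 * M ^ (1 - ε) ≤ M ^ (1 - ε') ∧
      6 * M ^ (1 / 2 : ℝ) ≤ M ^ (1 - ε') := by
    filter_upwards [eventually_ge_atTop (1 : ℝ), ev_ff κ hκ, ev_pow (1 / 4) (1 / 2) 2 (by norm_num),
      ev_pow (1 - ε) (1 - ε') 2 (by linarith), ev_pow (1 / 2) (1 - ε') 6 (by linarith)]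
      with M a1 a2 a3 a4 a5
    exact ⟨a1, a2, a3, a4, a5⟩
  have tN : Tendsto (fun N : ℕ => (N : ℝ)) atTop atTop := tendsto_natCast_atTop_atTop
  obtain ⟨N₂, hN₂⟩ := eventually_atTop.1 (tN.eventually hev)
  refine ⟨κ, hκ, c, hc, max N₁ N₂, ?_⟩
  intro N hN A B C hA hB hC
  obtain ⟨b1, b2, b3, b4, b5⟩ := hN₂ N ((le_max_right _ _).trans hN)
  obtain ⟨𝒮, h𝒮c, h𝒮⟩ := h N ((le_max_left _ _).trans hN) A B C hA hB hC
  have hN0 : (0 : ℝ) < N := by linarith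
  obtain ⟨Y, hY⟩ : ∃ Y : ℝ, Y = (N : ℝ) ^ (1 / 2 : ℝ) := ⟨_, rfl⟩
  rw [← hY] at b3 b5
  have hY1 : 1 ≤ Y := by rw [hY]; exact Real.one_le_rpow b1 (by norm_num)
  refine ⟨𝒮.filter (fun n : ℤ => Y < |(n : ℝ)|), ?_, ?_⟩
  · have h1 : 𝒮 ⊆ 𝒮.filter (fun n : ℤ => Y < |(n : ℝ)|) ∪ Icc (-(⌊Y⌋₊ : ℤ)) ⌊Y⌋₊ := by
      intro n hn
      rw [mem_union, mem_filter, mem_Icc]
      by_cases h2 : Y < |(n : ℝ)|
      · exact Or.inl ⟨hn, h2⟩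
      · right
        rw [← abs_le]
        have h3 : ((|n| : ℤ) : ℝ) ≤ Y := by push_cast; exact not_lt.1 h2
        have h4 : (n.natAbs : ℝ) ≤ Y := by
          rw [Nat.cast_natAbs]; exact h3
        have h5 : n.natAbs ≤ ⌊Y⌋₊ := Nat.le_floor h4
        rw [Int.abs_eq_natAbs]
        exact_mod_cast h5
    have h2 := (card_le_card h1).trans (card_union_le _ _)
    rw [Int.card_Icc] at h2
    have h3 : ((⌊Y⌋₊ : ℤ) + 1 - -(⌊Y⌋₊ : ℤ)).toNat = 2 * ⌊Y⌋₊ + 1 := by omega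
    rw [h3] at h2
    have h4 : (𝒮.card : ℝ) ≤ (𝒮.filter (fun n : ℤ => Y < |(n : ℝ)|)).card +
        (2 * (⌊Y⌋₊ : ℝ) + 1) := by exact_mod_cast h2
    have h5 : (⌊Y⌋₊ : ℝ) ≤ Y := Nat.floor_le (by linarith)
    linarith
  · intro n hn
    obtain ⟨hn1, hn2⟩ := mem_filter.1 hn
    obtain ⟨h1, h2⟩ := h𝒮 n hn1
    refine ⟨h1, ?_⟩
    intro m hm
    obtain ⟨p, hp, hpN, hpm⟩ := h2 m hm
    refine ⟨p, hp, hpN.trans (Real.rpow_le_rpow_of_exponent_le b1 (by linarith)), hpm, ?_⟩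
    have h3 : |(n : ℝ)| ≤ |(m : ℝ)| + |(m : ℝ) - n| := by
      have h4 : (n : ℝ) = m - (m - n) := by ring
      calc |(n : ℝ)| = |(m : ℝ) - (m - n)| := by rw [← h4]
        _ ≤ |(m : ℝ)| + |(m : ℝ) - n| := abs_sub _ _
    have h5 : (N : ℝ) ^ ε' ≤ (N : ℝ) ^ (1 / 4 : ℝ) :=
      Real.rpow_le_rpow_of_exponent_le b1 (by linarith)
    have h6 : ((p : ℤ) : ℝ) < ((|m| : ℤ) : ℝ) := by
      push_cast
      linarith
    exact_mod_cast h6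

end Pool.Agent.H602SS
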