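import Pool.Agent.H602SS.FinD

set_option autoImplicit false
set_option maxHeartbeats 4000000

/-!
# Residue classes in the sum of three dense sets whose least prime is of record size
-/

namespace Pool.Agent.H602SS

open Finset Filter
open Pool.Agent.W147.PS (ff ff_compare ev_pow)

/-- the number of representations of a residue class modulo `d` -/
def repsMod (d : ℕ) (A B C : Finset ℤ) (n : ZMod d) : ℕ :=
  ((A ×ˢ (B ×ˢ C)).filter (fun t => ((t.1 + t.2.1 + t.2.2 : ℤ) : ZMod d) = n)).card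

lemma reps_le_mod (d : ℕ) (A B C : Finset ℤ) (n : ℤ) :
    reps A B C n ≤ repsMod d A B C (n : ZMod d) := by
  unfold reps repsMod
  refine card_le_card fun t ht => ?_
  rw [mem_filter] at ht ⊢
  exact ⟨ht.1, by rw [ht.2]⟩

lemma few_factors (d : ℕ) (hd : 2 ≤ d) (η : ℝ)
    (h : ∀ p : ℕ, p.Prime → p ∣ d → (d : ℝ) ^ η < p) :
    (d.primeFactors.card : ℝ) * η ≤ 1 := by
  have hd1 : (1 : ℝ) < d := by exact_mod_cast (by omega : 1 < d)
  have hd0 : (0 : ℝ) < d := by linarith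
  have h1 : ∏ _p ∈ d.primeFactors, ((d : ℝ) ^ η) ≤ ∏ p ∈ d.primeFactors, (p : ℝ) :=
    prod_le_prod (fun _ _ => Real.rpow_nonneg hd0.le _) fun p hp =>
      (h p (Nat.prime_of_mem_primeFactors hp) (Nat.dvd_of_mem_primeFactors hp)).le
  rw [prod_const] at h1
  have h2 : (∏ p ∈ d.primeFactors, (p : ℝ)) ≤ d := by
    rw [← Nat.cast_prod]
    exact_mod_cast Nat.le_of_dvd (by omega) (Nat.prod_primeFactors_dvd d)
  have h3 : ((d : ℝ) ^ η) ^ d.primeFactors.card ≤ (d : ℝ) ^ (1 : ℝ) := by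
    rw [Real.rpow_one]; exact h1.trans h2
  rw [← Real.rpow_natCast, ← Real.rpow_mul hd0.le] at h3
  have h4 := (Real.rpow_le_rpow_left_iff hd1).1 h3
  linarith [h4]

lemma count_bad (s : ℤ) (N d : ℕ) (η : ℝ) (hη : 0 < η) (hN : 1 ≤ N) (hNd : N ≤ d) (hd : 2 ≤ d)
    (h : ∀ p : ℕ, p.Prime → p ∣ d → (d : ℝ) ^ η < p) :
    (((Ioc s (s + 4 * N)).filter (fun n => ∃ q ∈ d.primeFactors, (q : ℤ) ∣ n)).card : ℝ) ≤
      1 / η * (4 * (N : ℝ) ^ (1 - η) + 1) := by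
  have hN0 : (0 : ℝ) < N := by exact_mod_cast hN
  have h1 : (Ioc s (s + 4 * N)).filter (fun n => ∃ q ∈ d.primeFactors, (q : ℤ) ∣ n) ⊆
      d.primeFactors.biUnion (fun q => (Ioc s (s + 4 * N)).filter (fun n => (q : ℤ) ∣ n - 0)) := by
    intro n hn
    rw [mem_filter] at hn
    obtain ⟨hn1, q, hq, hqn⟩ := hn
    rw [mem_biUnion]
    refine ⟨q, hq, ?_⟩
    rw [mem_filter, sub_zero]
    exact ⟨hn1, hqn⟩
  have h2 := (card_le_card h1).trans card_biUnion_le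
  have h3 : ∀ q ∈ d.primeFactors,
      (((Ioc s (s + 4 * N)).filter (fun n => (q : ℤ) ∣ n - 0)).card : ℝ) ≤
        4 * (N : ℝ) ^ (1 - η) + 1 := by
    intro q hq
    have hqp := Nat.prime_of_mem_primeFactors hq
    have hq0 : (0 : ℝ) < q := by exact_mod_cast hqp.pos
    have g1 := Pool.Agent.H256R2.SC.LG.count_Ioc s (s + 4 * (N : ℤ)) (by linarith [Int.natCast_nonneg N]) q
      hqp.pos 0
    have g2 := (abs_le.1 g1).2
    have g3 : (N : ℝ) ^ η ≤ q := by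
      refine le_trans ?_ (h q hqp (Nat.dvd_of_mem_primeFactors hq)).le
      exact Real.rpow_le_rpow hN0.le (by exact_mod_cast hNd) hη.le
    have g4 : (((s + 4 * (N : ℤ) : ℤ) : ℝ) - s) / q ≤ 4 * (N : ℝ) ^ (1 - η) := by
      push_cast
      rw [add_sub_cancel_left, div_le_iff₀ hq0]
      calc (4 : ℝ) * N = 4 * (N ^ (1 - η) * N ^ η) := by
            rw [← Real.rpow_add hN0, sub_add_cancel, Real.rpow_one]
        _ ≤ 4 * (N ^ (1 - η) * q) := by gcongr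
        _ = 4 * (N : ℝ) ^ (1 - η) * q := by ring
    linarith
  have h4 := few_factors d hd η h
  have h5 : (d.primeFactors.card : ℝ) ≤ 1 / η := by
    rw [le_div_iff₀ hη]
    exact h4
  have h6 : 0 ≤ 4 * (N : ℝ) ^ (1 - η) + 1 := by positivity
  calc (((Ioc s (s + 4 * N)).filter (fun n => ∃ q ∈ d.primeFactors, (q : ℤ) ∣ n)).card : ℝ) ≤
      ((∑ q ∈ d.primeFactors,
        ((Ioc s (s + 4 * N)).filter (fun n => (q : ℤ) ∣ n - 0)).card : ℕ) : ℝ) := by exact_mod_cast h2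
    _ = ∑ q ∈ d.primeFactors,
        (((Ioc s (s + 4 * N)).filter (fun n => (q : ℤ) ∣ n - 0)).card : ℝ) := by push_cast; rfl
    _ ≤ ∑ _q ∈ d.primeFactors, (4 * (N : ℝ) ^ (1 - η) + 1) := sum_le_sum h3
    _ = d.primeFactors.card * (4 * (N : ℝ) ^ (1 - η) + 1) := by rw [sum_const, nsmul_eq_mul]
    _ ≤ 1 / η * (4 * (N : ℝ) ^ (1 - η) + 1) := by gcongr

lemma card_classes (d N : ℕ) (hd : 0 < d) (hNd : N ≤ d) (s : ℤ) (𝒮 : Finset ℤ)
    (h : ∀ n ∈ 𝒮, s < n ∧ n ≤ s + 4 * N) :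
    𝒮.card ≤ 5 * (𝒮.image (fun n : ℤ => (n : ZMod d))).card := by
  refine card_le_mul_card_image 𝒮 5 ?_
  intro b hb
  obtain ⟨m, -, rfl⟩ := mem_image.1 hb
  have h1 : 𝒮.filter (fun n : ℤ => (n : ZMod d) = (m : ZMod d)) ⊆
      (Ioc s (s + 4 * N)).filter (fun n => (d : ℤ) ∣ n - m) := by
    intro n hn
    rw [mem_filter] at hn ⊢
    refine ⟨mem_Ioc.2 (h n hn.1), ?_⟩
    exact (ZMod.intCast_eq_intCast_iff_dvd_sub m n d).1 hn.2.symm
  have h2 := Pool.Agent.H256R2.SC.LG.count_Ioc s (s + 4 * (N : ℤ)) (by linarith [Int.natCast_nonneg N]) d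
    hd m
  have h3 := (abs_le.1 h2).2
  have hd0 : (0 : ℝ) < d := by exact_mod_cast hd
  have h4 : (((s + 4 * (N : ℤ) : ℤ) : ℝ) - s) / d ≤ 4 := by
    push_cast
    rw [add_sub_cancel_left, div_le_iff₀ hd0]
    have : (N : ℝ) ≤ d := by exact_mod_cast hNd
    linarith
  have h5 : (((Ioc s (s + 4 * N)).filter (fun n => (d : ℤ) ∣ n - m)).card : ℝ) ≤ 5 := by linarith
  have h6 : ((Ioc s (s + 4 * N)).filter (fun n => (d : ℤ) ∣ n - m)).card ≤ 5 := by exact_mod_cast h5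
  exact (card_le_card h1).trans h6

lemma unit_of (d : ℕ) (hd : d ≠ 0) (n : ℤ) (h : ∀ q ∈ d.primeFactors, ¬ (q : ℤ) ∣ n) :
    IsUnit ((n : ℤ) : ZMod d) := by
  rw [ZMod.coe_int_isUnit_iff_isCoprime, Int.isCoprime_iff_gcd_eq_one]
  by_contra hcon
  obtain ⟨q, hq, hqd⟩ := Nat.exists_prime_and_dvd hcon
  have h1 : (q : ℤ) ∣ (d : ℤ) := (Int.natCast_dvd_natCast.2 hqd).trans (Int.gcd_dvd_left _ _)
  have h2 : (q : ℤ) ∣ n := (Int.natCast_dvd_natCast.2 hqd).trans (Int.gcd_dvd_right _ _)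
  exact h q (Nat.mem_primeFactors.2 ⟨hq, Int.natCast_dvd_natCast.1 h1, hd⟩) h2

lemma ev_final (ε ε' η : ℝ) (h1 : ε' < ε) (h2 : ε' < η) (h3 : ε' ≤ 1 / 8) :
    ∀ᶠ M : ℝ in atTop, 1 ≤ M ∧
      M ^ (1 - ε) + (M ^ (1 / 8 : ℝ) + 1) ≤
        (M ^ (1 - ε') - 1 / η * (4 * M ^ (1 - η) + 1)) / 5 := by
  filter_upwards [eventually_ge_atTop (1 : ℝ), ev_pow (1 - ε) (1 - ε') 20 (by linarith),
    ev_pow (1 / 8) (1 - ε') 40 (by linarith),
    ev_pow (1 - η) (1 - ε') (16 * |1 / η|) (by linarith),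
    ev_pow 0 (1 - ε') (4 * |1 / η|) (by linarith)] with M a1 a2 a3 a4 a5
  refine ⟨a1, ?_⟩
  have b1 : 1 ≤ M ^ (1 / 8 : ℝ) := Real.one_le_rpow a1 (by norm_num)
  have b2 : 0 ≤ M ^ (1 - η) := Real.rpow_nonneg (by linarith) _
  rw [Real.rpow_zero, mul_one] at a5
  have b3 := le_abs_self (1 / η)
  have b4 : 1 / η * (4 * M ^ (1 - η) + 1) ≤ |1 / η| * (4 * M ^ (1 - η) + 1) := by gcongr
  rw [le_div_iff₀ (by norm_num)]
  nlinarith

theorem finalD (δ ε γ η : ℝ) (hδ : 0 < δ) (hε : 0 < ε) (hγ : 0 < γ) (hγ1 : γ ≤ 1) (hη : 0 < η) :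
    ∃ κ : ℝ, 0 < κ ∧ ∃ c : ℝ, 0 < c ∧ ∃ d₀ : ℕ, ∀ d : ℕ, d₀ ≤ d →
    (∀ p : ℕ, p.Prime → p ∣ d → (d : ℝ) ^ η < p) →
    ∀ N : ℕ, (d : ℝ) ^ γ ≤ N → N ≤ d →
    ∀ A B C : Finset ℤ, Dense δ N A → Dense δ N B → Dense δ N C →
    ∃ 𝒮 : Finset (ZMod d), (N : ℝ) ^ (1 - ε) ≤ 𝒮.card ∧ ∀ n ∈ 𝒮, IsUnit n ∧
      c * (A.card * B.card * C.card / N) ≤ repsMod d A B C n ∧
      ∀ q : ℕ, q.Prime → (q : ZMod d) = n → κ * (d * ff d) < q := by
  classical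
  obtain ⟨ε', hε'⟩ : ∃ ε' : ℝ, ε' = min (ε / 2) (min (1 / 8) (η / 2)) := ⟨_, rfl⟩
  have hε'0 : 0 < ε' := by rw [hε']; positivity
  have hε'1 : ε' ≤ ε / 2 := by rw [hε']; exact min_le_left _ _
  have hε'2 : ε' ≤ 1 / 8 := by rw [hε']; exact (min_le_right _ _).trans (min_le_left _ _)
  have hε'3 : ε' ≤ η / 2 := by rw [hε']; exact (min_le_right _ _).trans (min_le_right _ _)
  obtain ⟨κ, hκ, c, hc, N₁, h⟩ := finD δ ε' hδ hε'0
  -- conditions on `N`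
  obtain ⟨N₂, hN₂⟩ := eventually_atTop.1
    (((ev_final ε ε' η (by linarith) (by linarith) hε'2).and
      (Real.tendsto_log_atTop.eventually_ge_atTop (5 / κ))).and (ff_compare 1 one_pos le_rfl))
  -- conditions on `d`
  have tγ : Tendsto (fun M : ℝ => M ^ γ) atTop atTop := tendsto_rpow_atTop hγ
  have hevd : ∀ᶠ M : ℝ in atTop, (2 ≤ M) ∧ (N₁ : ℝ) ≤ M ^ γ ∧ N₂ ≤ M ^ γ ∧
      (∀ x : ℝ, M ^ γ ≤ x → x ≤ M ^ 2 → γ / 32 * ff M ≤ ff x) := by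
    filter_upwards [eventually_ge_atTop (2 : ℝ), tγ.eventually_ge_atTop (N₁ : ℝ),
      tγ.eventually_ge_atTop N₂, ff_compare γ hγ hγ1] with M a1 a2 a3 a4
    exact ⟨a1, a2, a3, fun x h1 h2 => (a4.2 x h1 h2).1⟩
  have tN : Tendsto (fun N : ℕ => (N : ℝ)) atTop atTop := tendsto_natCast_atTop_atTop
  obtain ⟨d₀, hd₀⟩ := eventually_atTop.1 (tN.eventually hevd)
  refine ⟨κ * (γ / 32), by positivity, c, hc, d₀, ?_⟩
  intro d hd hrough N hN1 hN2 A B C hA hB hC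
  obtain ⟨e1, e2, e3, e4⟩ := hd₀ d hd
  have hd2 : 2 ≤ d := by exact_mod_cast e1
  have hd0 : (0 : ℝ) < d := by linarith
  have hN2r : (N : ℝ) ≤ d := by exact_mod_cast hN2
  obtain ⟨⟨⟨f1, f2⟩, f3⟩, f4, -⟩ := hN₂ N (e3.trans hN1)
  have hN0 : (0 : ℝ) < N := by linarith
  have hNN : 1 ≤ N := by exact_mod_cast f1
  have hff : γ / 32 * ff d ≤ ff N := e4 N hN1 (by nlinarith)
  have hND : ∀ p : ℕ, p.Prime → (p : ℝ) ≤ (N : ℝ) ^ ε' → ¬ (p : ℤ) ∣ (d : ℤ) := by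
    intro p hp hpN hpd
    have h1 := hrough p hp (Int.natCast_dvd_natCast.1 hpd)
    have h2 : (N : ℝ) ^ ε' ≤ (d : ℝ) ^ η := by
      calc (N : ℝ) ^ ε' ≤ (d : ℝ) ^ ε' := Real.rpow_le_rpow hN0.le hN2r hε'0.le
        _ ≤ (d : ℝ) ^ η := Real.rpow_le_rpow_of_exponent_le (by linarith) (by linarith)
    linarith
  obtain ⟨s, hs⟩ := h N (by exact_mod_cast e2.trans hN1) d hND A B C hA hB hC
  obtain ⟨𝒮, h𝒮c, h𝒮⟩ := hs (-(d * (s / d)))
  -- the elements prime to `d`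
  obtain ⟨𝒮₁, h𝒮₁⟩ : ∃ 𝒮₁ : Finset ℤ,
      𝒮₁ = 𝒮.filter (fun n => ¬ ∃ q ∈ d.primeFactors, (q : ℤ) ∣ n) := ⟨_, rfl⟩
  have g1 : (𝒮.card : ℝ) ≤ 𝒮₁.card + 1 / η * (4 * (N : ℝ) ^ (1 - η) + 1) := by
    have h1 : 𝒮 ⊆ 𝒮₁ ∪ (Ioc s (s + 4 * N)).filter (fun n => ∃ q ∈ d.primeFactors, (q : ℤ) ∣ n) := by
      intro n hn
      rw [mem_union, h𝒮₁, mem_filter, mem_filter]
      by_cases h2 : ∃ q ∈ d.primeFactors, (q : ℤ) ∣ n
      · exact Or.inr ⟨mem_Ioc.2 (h𝒮 n hn).1, h2⟩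
      · exact Or.inl ⟨hn, h2⟩
    have h2 := (card_le_card h1).trans (card_union_le _ _)
    have h3 := count_bad s N d η hη hNN hN2 hd2 hrough
    have h4 : (𝒮.card : ℝ) ≤ 𝒮₁.card +
        ((Ioc s (s + 4 * N)).filter (fun n => ∃ q ∈ d.primeFactors, (q : ℤ) ∣ n)).card := by
      exact_mod_cast h2
    linarith
  have hsub : ∀ n ∈ 𝒮₁, n ∈ 𝒮 := fun n hn => by
    rw [h𝒮₁] at hn
    exact (mem_filter.1 hn).1
  have g2 := card_classes d N (by omega) hN2 s 𝒮₁ (fun n hn => (h𝒮 n (hsub n hn)).1)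
  obtain ⟨𝒯, h𝒯⟩ : ∃ 𝒯 : Finset (ZMod d), 𝒯 = 𝒮₁.image (fun n : ℤ => (n : ZMod d)) := ⟨_, rfl⟩
  rw [← h𝒯] at g2
  obtain ⟨ℬ, hℬ⟩ : ∃ ℬ : Finset (ZMod d), ℬ = (range (⌊(N : ℝ) ^ (1 / 8 : ℝ)⌋₊ + 1)).image
      (fun q : ℕ => (q : ZMod d)) := ⟨_, rfl⟩
  have g3 : (ℬ.card : ℝ) ≤ (N : ℝ) ^ (1 / 8 : ℝ) + 1 := by
    have h1 : ℬ.card ≤ ⌊(N : ℝ) ^ (1 / 8 : ℝ)⌋₊ + 1 := by
      rw [hℬ]
      refine card_image_le.trans ?_
      rw [card_range]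
    have h2 : (ℬ.card : ℝ) ≤ (⌊(N : ℝ) ^ (1 / 8 : ℝ)⌋₊ : ℝ) + 1 := by exact_mod_cast h1
    have h3 : (⌊(N : ℝ) ^ (1 / 8 : ℝ)⌋₊ : ℝ) ≤ (N : ℝ) ^ (1 / 8 : ℝ) :=
      Nat.floor_le (Real.rpow_nonneg hN0.le _)
    linarith
  refine ⟨𝒯 \ ℬ, ?_, ?_⟩
  · have h1 : 𝒯.card ≤ (𝒯 \ ℬ).card + ℬ.card := by
      have := card_le_card (show 𝒯 ⊆ (𝒯 \ ℬ) ∪ ℬ by intro x hx; by_cases hb : x ∈ ℬ <;> simp [hx, hb])
      exact this.trans (card_union_le _ _)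
    have h2 : (𝒯.card : ℝ) ≤ (𝒯 \ ℬ).card + ℬ.card := by exact_mod_cast h1
    have h3 : (𝒮₁.card : ℝ) ≤ 5 * 𝒯.card := by exact_mod_cast g2
    linarith
  · intro n hn
    rw [Finset.mem_sdiff, h𝒯, mem_image] at hn
    obtain ⟨⟨m, hm, rfl⟩, hnB⟩ := hn
    obtain ⟨⟨k1, k2⟩, k3, k4⟩ := h𝒮 m (hsub m hm)
    refine ⟨?_, ?_, ?_⟩
    · refine unit_of d (by omega) m fun q hq hqm => ?_
      rw [h𝒮₁, mem_filter] at hm
      exact hm.2 ⟨q, hq, hqm⟩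
    · refine k3.trans ?_
      exact_mod_cast reps_le_mod d A B C m
    · intro q hq hqm
      by_contra hcon
      rw [not_lt] at hcon
      have hdz : (d : ℤ) ≠ 0 := by exact_mod_cast (by omega : d ≠ 0)
      have hdvd : (d : ℤ) ∣ (q : ℤ) - m := by
        refine (ZMod.intCast_eq_intCast_iff_dvd_sub m (q : ℤ) d).1 ?_
        rw [Int.cast_natCast]
        exact hqm.symm
      obtain ⟨i₀, hi₀⟩ := hdvd
      -- the representative near the origin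
      obtain ⟨u, hu⟩ : ∃ u : ℤ, u = m + -(d * (s / d)) := ⟨_, rfl⟩
      obtain ⟨i, hi⟩ : ∃ i : ℤ, i = i₀ + s / d := ⟨_, rfl⟩
      have hq' : u + d * i = q := by
        rw [hu, hi]
        linarith
      have hmod := Int.emod_add_mul_ediv s d
      have hmod1 := Int.emod_nonneg s hdz
      have hmod2 := Int.emod_lt_of_pos s (show (0 : ℤ) < d by positivity)
      have hu1 : 0 < u := by rw [hu]; linarith
      have hu2 : u ≤ 5 * d := by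
        have : (N : ℤ) ≤ d := by exact_mod_cast hN2
        rw [hu]; linarith
      have hi1 : (i : ℝ) * d = q - u := by
        have : ((u + d * i : ℤ) : ℝ) = ((q : ℤ) : ℝ) := by rw [hq']
        push_cast at this
        linarith
      have hu1r : (0 : ℝ) < u := by exact_mod_cast hu1
      have hu2r : (u : ℝ) ≤ 5 * d := by exact_mod_cast hu2
      have hq0 : (0 : ℝ) < q := by exact_mod_cast hq.pos
      have hκN : κ * (γ / 32 * ff d) ≤ κ * ff N := by gcongr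
      have h5 : 5 ≤ κ * ff N := by
        have h6 : 5 / κ ≤ ff N := f3.trans f4
        rw [div_le_iff₀ hκ] at h6
        linarith
      have hiabs : |(i : ℝ)| ≤ κ * ff N := by
        rw [abs_le]
        constructor
        · have h7 : -(κ * ff N) * d ≤ (i : ℝ) * d := by
            rw [hi1]
            nlinarith
          exact le_of_mul_le_mul_right h7 hd0
        · have h7 : (i : ℝ) * d ≤ (κ * ff N) * d := by
            rw [hi1]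
            have h8 : (q : ℝ) ≤ κ * (γ / 32 * ff d) * d := by
              calc (q : ℝ) ≤ κ * (γ / 32) * (d * ff d) := hcon
                _ = κ * (γ / 32 * ff d) * d := by ring
            have h9 : κ * (γ / 32 * ff d) * d ≤ κ * ff N * d := by gcongr
            linarith
          exact le_of_mul_le_mul_right h7 hd0
      obtain ⟨p, hp, hpN, hpd⟩ := k4 i hiabs
      have h10 : m + -(d * (s / d)) + d * i = (q : ℤ) := by rw [← hu]; exact hq'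
      rw [h10] at hpd
      have h11 : p ∣ q := by exact_mod_cast hpd
      have h12 := (Nat.prime_dvd_prime_iff_eq hp hq).1 h11
      apply hnB
      rw [hℬ, mem_image]
      refine ⟨q, ?_, hqm⟩
      rw [mem_range, Nat.lt_succ_iff]
      refine Nat.le_floor ?_
      rw [← h12]
      exact hpN.trans (Real.rpow_le_rpow_of_exponent_le f1 hε'2)

end Pool.Agent.H602SS
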