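import Pool.Agent.H602SS.FinT
import Pool.Agent.H398R2.RK.Surv

set_option autoImplicit false
set_option maxHeartbeats 4000000

/-!
# Prime-free translates of arbitrary sets of record size by popular sums of three dense sets: composite
translates, and the application to the least prime in Goldbach representations
-/

namespace Pool.Agent.H602SS

open Finset Filter
open Pool.Agent.W147.PS (ff ff_compare ev_pow)

open scoped Classical

lemma ev_L : ∀ᶠ M : ℝ in atTop, Real.log M * Real.log (Real.log M) ^ 3 ≤ M ^ (1 / 4 : ℝ) := by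
  obtain ⟨c', hc', X₀, h⟩ := survT 1 one_pos 0
  have h1 := (isLittleO_log_rpow_atTop (show (0 : ℝ) < 1 / 8 by norm_num)).def
    (show (0 : ℝ) < 1 by norm_num)
  filter_upwards [eventually_ge_atTop X₀, h1, eventually_ge_atTop (1 : ℝ)] with M hM hM2 hM1
  obtain ⟨h4, h5, -⟩ := h M hM
  have hM0 : 0 < M := by linarith
  have hl := Real.log_nonneg hM1
  rw [Real.norm_eq_abs, abs_of_nonneg hl, Real.norm_eq_abs,
    abs_of_nonneg (Real.rpow_nonneg hM0.le _), one_mul] at hM2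
  have hr := Real.rpow_nonneg hM0.le (1 / 8 : ℝ)
  have hr4 := Real.rpow_nonneg hM0.le (1 / 4 : ℝ)
  have h6 : Real.log M ^ 2 ≤ M ^ (1 / 4 : ℝ) := by
    calc Real.log M ^ 2 = Real.log M * Real.log M := by ring
      _ ≤ M ^ (1 / 8 : ℝ) * M ^ (1 / 8 : ℝ) := by gcongr
      _ = M ^ (1 / 4 : ℝ) := by
        rw [← Real.rpow_add hM0]
        norm_num
  linarith

theorem finalT (δ ε : ℝ) (hδ : 0 < δ) (hε : 0 < ε) : ∃ κ : ℝ, 0 < κ ∧ ∃ c : ℝ, 0 < c ∧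
    ∃ N₀ : ℕ, ∀ N : ℕ, N₀ ≤ N → ∀ T : Finset ℤ,
    (∀ t ∈ T, |(t : ℝ)| ≤ κ * (Real.log N * Real.log (Real.log N) ^ 3)) →
    (T.card : ℝ) ≤ κ * ff N →
    ∀ A B C : Finset ℤ, Dense δ N A → Dense δ N B → Dense δ N C →
    ∃ 𝒮 : Finset ℤ, (N : ℝ) ^ (1 - ε) ≤ 𝒮.card ∧ ∀ n ∈ 𝒮,
      c * (A.card * B.card * C.card / N) ≤ reps A B C n ∧
      ∀ t ∈ T, ∃ p : ℕ, p.Prime ∧ (p : ℝ) ≤ (N : ℝ) ^ ε ∧ (p : ℤ) ∣ n + t ∧
        (p : ℤ) < |n + t| := by
  obtain ⟨ε', hε'⟩ : ∃ ε' : ℝ, ε' = min (ε / 2) (1 / 8) := ⟨_, rfl⟩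
  have hε'0 : 0 < ε' := by rw [hε']; positivity
  have hε'1 : ε' ≤ ε / 2 := by rw [hε']; exact min_le_left _ _
  have hε'2 : ε' ≤ 1 / 8 := by rw [hε']; exact min_le_right _ _
  obtain ⟨κ₁, hκ₁, c, hc, N₁, h⟩ := finT δ ε' hδ hε'0
  obtain ⟨κ, hκd⟩ : ∃ κ : ℝ, κ = min κ₁ 1 := ⟨_, rfl⟩
  have hκ : 0 < κ := by rw [hκd]; positivity
  have hκ1 : κ ≤ κ₁ := by rw [hκd]; exact min_le_left _ _
  have hκ2 : κ ≤ 1 := by rw [hκd]; exact min_le_right _ _
  have hev : ∀ᶠ M : ℝ in atTop, 1 ≤ M ∧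
      Real.log M * Real.log (Real.log M) ^ 3 ≤ M ^ (1 / 4 : ℝ) ∧
      2 * M ^ (1 / 4 : ℝ) ≤ M ^ (1 / 2 : ℝ) ∧ 2 * M ^ (1 - ε) ≤ M ^ (1 - ε') ∧
      6 * M ^ (1 / 2 : ℝ) ≤ M ^ (1 - ε') ∧ 0 ≤ Real.log (Real.log M) ∧ 0 ≤ ff M := by
    filter_upwards [eventually_ge_atTop (1 : ℝ), ev_L, ev_pow (1 / 4) (1 / 2) 2 (by norm_num),
      ev_pow (1 - ε) (1 - ε') 2 (by linarith), ev_pow (1 / 2) (1 - ε') 6 (by linarith),
      (Real.tendsto_log_atTop.comp Real.tendsto_log_atTop).eventually_ge_atTop 0,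
      (Real.tendsto_log_atTop.comp (Real.tendsto_log_atTop.comp
        (Real.tendsto_log_atTop.comp Real.tendsto_log_atTop))).eventually_ge_atTop 0]
      with M a1 a2 a3 a4 a5 a6 a8
    have a11 : 0 ≤ ff M := by
      have h1 : 0 ≤ Real.log (Real.log (Real.log (Real.log M))) := a8
      have h2 : 0 ≤ Real.log M := Real.log_nonneg a1
      unfold ff
      positivity
    exact ⟨a1, a2, a3, a4, a5, a6, a11⟩
  have tN : Tendsto (fun N : ℕ => (N : ℝ)) atTop atTop := tendsto_natCast_atTop_atTop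
  obtain ⟨N₂, hN₂⟩ := eventually_atTop.1 (tN.eventually hev)
  refine ⟨κ, hκ, c, hc, max N₁ N₂, ?_⟩
  intro N hN T hT hTc A B C hA hB hC
  obtain ⟨b1, b2, b3, b4, b5, b6, b7⟩ := hN₂ N ((le_max_right _ _).trans hN)
  have hL0 : 0 ≤ Real.log (N : ℝ) * Real.log (Real.log N) ^ 3 := by
    have := Real.log_nonneg b1
    positivity
  obtain ⟨𝒮, h𝒮c, h𝒮⟩ := h N ((le_max_left _ _).trans hN) T (fun t ht => (hT t ht).trans
    (mul_le_mul_of_nonneg_right hκ1 hL0)) (hTc.trans (mul_le_mul_of_nonneg_right hκ1 b7))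
    A B C hA hB hC
  have hN0 : (0 : ℝ) < N := by linarith
  obtain ⟨Y, hY⟩ : ∃ Y : ℝ, Y = (N : ℝ) ^ (1 / 2 : ℝ) := ⟨_, rfl⟩
  rw [← hY] at b3 b5
  have hY1 : 1 ≤ Y := by rw [hY]; exact Real.one_le_rpow b1 (by norm_num)
  refine ⟨𝒮.filter (fun n : ℤ => Y < |(n : ℝ)|), ?_, ?_⟩
  · have h1 : 𝒮 ⊆ 𝒮.filter (fun n : ℤ => Y < |(n : ℝ)|) ∪ Icc (-(⌊Y⌋₊ : ℤ)) ⌊Y⌋₊ := by
      intro n hn
      rw [mem_union, mem_filter, mem_Icc]
      by_cases h2 : Y < |(n : ℝ)|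
      · exact Or.inl ⟨hn, h2⟩
      · right
        rw [← abs_le]
        have h3 : ((|n| : ℤ) : ℝ) ≤ Y := by push_cast; exact not_lt.1 h2
        have h4 : (n.natAbs : ℝ) ≤ Y := by
          rw [Nat.cast_natAbs]; exact h3
        have h5 : n.natAbs ≤ ⌊Y⌋₊ := Nat.le_floor h4
        rw [Int.abs_eq_natAbs]
        exact_mod_cast h5
    have h2 := (card_le_card h1).trans (card_union_le _ _)
    rw [Int.card_Icc] at h2
    have h3 : ((⌊Y⌋₊ : ℤ) + 1 - -(⌊Y⌋₊ : ℤ)).toNat = 2 * ⌊Y⌋₊ + 1 := by omega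
    rw [h3] at h2
    have h4 : (𝒮.card : ℝ) ≤ (𝒮.filter (fun n : ℤ => Y < |(n : ℝ)|)).card +
        (2 * (⌊Y⌋₊ : ℝ) + 1) := by exact_mod_cast h2
    have h5 : (⌊Y⌋₊ : ℝ) ≤ Y := Nat.floor_le (by linarith)
    linarith
  · intro n hn
    obtain ⟨hn1, hn2⟩ := mem_filter.1 hn
    obtain ⟨h1, h2⟩ := h𝒮 n hn1
    refine ⟨h1, ?_⟩
    intro t ht
    obtain ⟨p, hp, hpN, hpm⟩ := h2 t ht
    refine ⟨p, hp, hpN.trans (Real.rpow_le_rpow_of_exponent_le b1 (by linarith)), hpm, ?_⟩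
    have h3 : |(n : ℝ)| ≤ |((n : ℝ) + t)| + |(t : ℝ)| := by
      calc |(n : ℝ)| = |((n : ℝ) + t) - t| := by rw [add_sub_cancel_right]
        _ ≤ |((n : ℝ) + t)| + |(t : ℝ)| := abs_sub _ _
    have h5 : (N : ℝ) ^ ε' ≤ (N : ℝ) ^ (1 / 4 : ℝ) :=
      Real.rpow_le_rpow_of_exponent_le b1 (by linarith)
    have h7 : |(t : ℝ)| ≤ (N : ℝ) ^ (1 / 4 : ℝ) := by
      refine (hT t ht).trans (le_trans ?_ b2)
      calc κ * (Real.log N * Real.log (Real.log N) ^ 3) ≤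
          1 * (Real.log N * Real.log (Real.log N) ^ 3) := mul_le_mul_of_nonneg_right hκ2 hL0
        _ = _ := one_mul _
    have h6 : ((p : ℤ) : ℝ) < ((|n + t| : ℤ) : ℝ) := by
      push_cast
      linarith
    exact_mod_cast h6

/-- `F(x) = log x (log₂ x)³ log₄ x / (log₃ x)²` (iterated natural logarithms). -/
noncomputable def FG (x : ℝ) : ℝ :=
  Real.log x * (Real.log (Real.log x)) ^ 3 * Real.log (Real.log (Real.log (Real.log x))) /
    (Real.log (Real.log (Real.log x))) ^ 2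

theorem goldT (δ ε : ℝ) (hδ : 0 < δ) (hε : 0 < ε) : ∃ κ : ℝ, 0 < κ ∧ ∃ c : ℝ, 0 < c ∧
    ∃ N₀ : ℕ, ∀ N : ℕ, N₀ ≤ N →
    ∀ A B C : Finset ℤ, Dense δ N A → Dense δ N B → Dense δ N C →
    ∃ 𝒮 : Finset ℤ, (N : ℝ) ^ (1 - ε) ≤ 𝒮.card ∧ ∀ n ∈ 𝒮,
      0 < reps A B C n ∧
      c * (A.card * B.card * C.card / N) ≤ reps A B C n ∧
      ∀ q : ℕ, q.Prime → (q : ℝ) ≤ κ * FG N →
        (∃ p : ℕ, p.Prime ∧ (p : ℝ) ≤ (N : ℝ) ^ ε ∧ (p : ℤ) ∣ n - q ∧ (p : ℤ) < |n - q|) ∧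
        (∃ p : ℕ, p.Prime ∧ (p : ℝ) ≤ (N : ℝ) ^ ε ∧ (p : ℤ) ∣ n + q ∧ (p : ℤ) < |n + q|) := by
  obtain ⟨κ₁, hκ₁, c, hc, N₁, h⟩ := finalT δ ε hδ hε
  obtain ⟨X₂, h₂⟩ := Pool.Agent.H256R2.SC.LG.ev_log (max 100 (10 / κ₁))
  set κ : ℝ := min (min 1 κ₁) (κ₁ / 20) with hκd
  have hκ : 0 < κ := by positivity
  have hκ1 : κ ≤ 1 := (min_le_left _ _).trans (min_le_left _ _)
  have hκ2 : κ ≤ κ₁ := (min_le_left _ _).trans (min_le_right _ _)
  have hκ3 : κ ≤ κ₁ / 20 := min_le_right _ _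
  refine ⟨κ, hκ, c, hc, max N₁ ⌈X₂⌉₊, ?_⟩
  intro N hN A B C hA hB hC
  have hNX : X₂ ≤ N := Nat.ceil_le.1 ((le_max_right _ _).trans hN)
  obtain ⟨hX1, m1, m2, m3, m4⟩ := h₂ N hNX
  have n1 := (le_max_left _ _).trans m1
  have n2 := (le_max_left _ _).trans m2
  have n3 := (le_max_left _ _).trans m3
  have n4 := (le_max_left _ _).trans m4
  have k2 := (le_max_right _ _).trans m2
  have hFd : FG N = Real.log N * (Real.log (Real.log N)) ^ 3 *
    Real.log (Real.log (Real.log (Real.log N))) / (Real.log (Real.log (Real.log N))) ^ 2 := rfl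
  have hfd : ff N = Real.log N * (Real.log (Real.log N)) ^ 2 *
    Real.log (Real.log (Real.log (Real.log N))) / (Real.log (Real.log (Real.log N))) ^ 2 := rfl
  have hT := h N ((le_max_left _ _).trans hN)
  clear h
  set l1 := Real.log (N : ℝ) with hl1
  set l2 := Real.log l1 with hl2
  set l3 := Real.log l2 with hl3
  set l4 := Real.log l3 with hl4
  have p1 : 0 < l1 := by linarith
  have p2 : 0 < l2 := by linarith
  have p3 : 0 < l3 := by linarith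
  have p4 : 0 < l4 := by linarith
  have q1 : l3 ^ 2 ≤ 4 * l2 := Pool.Agent.H256R2.SC.LG.log_sq_le (by linarith)
  have q3 : l4 ≤ l3 := by
    have := Real.log_le_sub_one_of_pos p3
    linarith
  have hff0 : 0 ≤ ff N := by rw [hfd]; positivity
  have hF0 : 0 ≤ FG N := by rw [hFd]; positivity
  have hFf : FG N = ff N * l2 := by
    rw [hFd, hfd]
    ring
  -- upper bound for F
  have hFup : FG N ≤ l1 * l2 ^ 3 := by
    rw [hFd]
    have e1 : l4 / l3 ^ 2 ≤ 1 := by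
      rw [div_le_one (by positivity)]
      nlinarith
    calc l1 * l2 ^ 3 * l4 / l3 ^ 2 = l1 * l2 ^ 3 * (l4 / l3 ^ 2) := by ring
      _ ≤ l1 * l2 ^ 3 * 1 := by gcongr
      _ = l1 * l2 ^ 3 := mul_one _
  -- lower bound for F
  have hcl : 1 / 2 ≤ κ * l2 := by
    rw [hκd, min_mul_of_nonneg _ _ p2.le, min_mul_of_nonneg _ _ p2.le]
    rw [div_le_iff₀ hκ₁] at k2
    apply le_min
    · apply le_min
      · linarith
      · linarith
    · linarith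
  have hFlow : l1 + 1 ≤ κ * FG N := by
    rw [hFd]
    have e1 : l1 * l2 ^ 3 * l4 / (4 * l2) ≤ l1 * l2 ^ 3 * l4 / l3 ^ 2 :=
      div_le_div_of_nonneg_left (by positivity) (by positivity) q1
    have e2 : l1 * l2 ^ 3 * l4 / (4 * l2) = l1 * l2 ^ 2 * l4 / 4 := by
      field_simp
    have e3 : 100 * 100 ≤ l2 * l4 := mul_le_mul n2 n4 (by norm_num) p2.le
    have e4 : (1 / 2) * (100 * 100) ≤ (κ * l2) * (l2 * l4) :=
      mul_le_mul hcl e3 (by norm_num) (by positivity)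
    calc l1 + 1 ≤ l1 * ((1 / 2) * (100 * 100)) / 4 := by linarith
      _ ≤ l1 * ((κ * l2) * (l2 * l4)) / 4 := by gcongr
      _ = κ * (l1 * l2 ^ 2 * l4 / 4) := by ring
      _ ≤ κ * (l1 * l2 ^ 3 * l4 / l3 ^ 2) := by rw [← e2]; gcongr
  obtain ⟨L, hL⟩ : ∃ L : ℕ, L = ⌊κ * FG N⌋₊ := ⟨_, rfl⟩
  have hL1 : (L : ℝ) ≤ κ * FG N := by rw [hL]; exact Nat.floor_le (by positivity)
  have hL2 : l1 ≤ L := by
    have := Nat.lt_floor_add_one (κ * FG N)
    rw [← hL] at this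
    linarith
  have hL3 : 2 ≤ L := by
    have : (2 : ℝ) ≤ L := by linarith
    exact_mod_cast this
  have hlogL : l2 ≤ Real.log L := Real.log_le_log p1 hL2
  have hpi := Pool.Agent.H398R2.RK.primes_le L hL3
  obtain ⟨P, hP⟩ : ∃ P : Finset ℕ, P = (Finset.Icc 1 L).filter Nat.Prime := ⟨_, rfl⟩
  rw [← hP] at hpi
  obtain ⟨Z, hZ⟩ : ∃ Z : Finset ℤ, Z = P.image (fun p : ℕ => -(p : ℤ)) ∪
    P.image (fun p : ℕ => (p : ℤ)) := ⟨_, rfl⟩
  obtain ⟨𝒮, hS1, hS2⟩ := hT Z (by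
      intro z hz
      have hz' : ∃ p ∈ P, z = -(p : ℤ) ∨ z = (p : ℤ) := by
        rw [hZ, mem_union, mem_image, mem_image] at hz
        rcases hz with ⟨p, hp, rfl⟩ | ⟨p, hp, rfl⟩
        · exact ⟨p, hp, Or.inl rfl⟩
        · exact ⟨p, hp, Or.inr rfl⟩
      obtain ⟨p, hp, hzp⟩ := hz'
      rw [hP] at hp
      have hpL : (p : ℝ) ≤ L := by
        have := (mem_Icc.1 (mem_filter.1 hp).1).2
        exact_mod_cast this
      have habs : |(z : ℝ)| = p := by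
        rcases hzp with rfl | rfl
        · push_cast
          rw [abs_neg, abs_of_nonneg (Nat.cast_nonneg _)]
        · push_cast
          rw [abs_of_nonneg (Nat.cast_nonneg _)]
      rw [habs]
      calc (p : ℝ) ≤ L := hpL
        _ ≤ κ * FG N := hL1
        _ ≤ κ₁ * (l1 * l2 ^ 3) := by gcongr)
    (by
      have e1 : (Z.card : ℝ) ≤ 2 * P.card := by
        have a1 : Z.card ≤ P.card + P.card := by
          rw [hZ]
          exact (card_union_le _ _).trans (add_le_add card_image_le card_image_le)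
        have a2 : (Z.card : ℝ) ≤ P.card + P.card := by exact_mod_cast a1
        linarith
      have e2 : 10 * (L : ℝ) / Real.log L ≤ 10 * (κ * FG N) / l2 := by gcongr
      have e3 : 10 * (κ * FG N) / l2 = 10 * κ * ff N := by
        rw [hFf]
        field_simp
      have e4 : 20 * κ * ff N ≤ κ₁ * ff N := by
        apply mul_le_mul_of_nonneg_right _ hff0
        linarith
      linarith) A B C hA hB hC
  refine ⟨𝒮, hS1, ?_⟩
  intro n hn
  obtain ⟨h1, h3⟩ := hS2 n hn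
  have hN0 : (0 : ℝ) < N := by linarith
  have hpos : ∀ A : Finset ℤ, Dense δ N A → (0 : ℝ) < A.card := by
    intro A hA
    rcases hA with ⟨x, -, h4⟩ | ⟨x, s, -, -, h4⟩
    · exact lt_of_lt_of_le (by positivity) h4
    · exact lt_of_lt_of_le (by positivity) h4
  have hA0 := hpos A hA
  have hB0 := hpos B hB
  have hC0 := hpos C hC
  refine ⟨?_, h1, ?_⟩
  · have h4 : (0 : ℝ) < reps A B C n := lt_of_lt_of_le (by positivity) h1
    exact_mod_cast h4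
  · intro q hq hqF
    have hqP : q ∈ P := by
      rw [hP]
      exact mem_filter.2 ⟨mem_Icc.2 ⟨hq.pos, by rw [hL]; exact Nat.le_floor hqF⟩, hq⟩
    constructor
    · have h5 := h3 (-(q : ℤ)) (by rw [hZ]; exact mem_union_left _ (mem_image_of_mem _ hqP))
      rw [← sub_eq_add_neg] at h5
      exact h5
    · exact h3 (q : ℤ) (by rw [hZ]; exact mem_union_right _ (mem_image_of_mem _ hqP))

end Pool.Agent.H602SS
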