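import Mathlib

set_option autoImplicit false

/-!
# Sums of three sets: Fourier analysis modulo `M`

The number of representations of residues as sums of elements of three sets, the large spectrum,
residue classes and almost periods.
-/

namespace Pool.Agent.H602SS

open Finset

/-- `e x = exp (2 π i x)` -/
noncomputable def e (x : ℝ) : ℂ := Complex.exp ((2 * Real.pi * x : ℝ) * Complex.I)

lemma e_add (x y : ℝ) : e (x + y) = e x * e y := by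
  unfold e
  rw [← Complex.exp_add]
  congr 1
  push_cast
  ring

lemma norm_e (x : ℝ) : ‖e x‖ = 1 := by
  unfold e
  exact Complex.norm_exp_ofReal_mul_I _

lemma e_int (k : ℤ) : e k = 1 := by
  unfold e
  rw [Complex.exp_eq_one_iff]
  exact ⟨k, by push_cast; ring⟩

lemma e_zero : e 0 = 1 := by
  have := e_int 0
  simpa using this

lemma conj_e (x : ℝ) : (starRingEnd ℂ) (e x) = e (-x) := by
  unfold e
  rw [← Complex.exp_conj]
  congr 1
  rw [map_mul, Complex.conj_ofReal, Complex.conj_I]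
  push_cast
  ring

lemma e_sub_one_le (x : ℝ) (k : ℤ) : ‖e x - 1‖ ≤ 2 * Real.pi * |x - k| := by
  have h1 : e x = e (x - k) := by
    have h2 : x = (x - k) + k := by ring
    conv_lhs => rw [h2, e_add, e_int, mul_one]
  rw [h1]
  unfold e
  rw [mul_comm]
  refine (Real.norm_exp_I_mul_ofReal_sub_one_le).trans ?_
  rw [Real.norm_eq_abs, abs_mul, abs_of_pos (by positivity : (0 : ℝ) < 2 * Real.pi)]

lemma orth (M : ℕ) (hM : 0 < M) (k : ℤ) :
    ∑ ξ ∈ range M, e ((ξ : ℝ) * k / M) = if (M : ℤ) ∣ k then (M : ℂ) else 0 := by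
  have hM0 : (M : ℝ) ≠ 0 := by exact_mod_cast hM.ne'
  split_ifs with h
  · obtain ⟨w, rfl⟩ := h
    have h1 : ∀ ξ ∈ range M, e ((ξ : ℝ) * ((M * w : ℤ) : ℝ) / M) = 1 := by
      intro ξ _
      have h2 : (ξ : ℝ) * ((M * w : ℤ) : ℝ) / M = ((ξ * w : ℤ) : ℝ) := by
        push_cast
        field_simp
      rw [h2, e_int]
    rw [sum_congr rfl h1]
    simp
  · have h1 : ∀ ξ : ℕ, e ((ξ : ℝ) * k / M) = (e (k / M)) ^ ξ := by
      intro ξ
      induction ξ with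
      | zero => simp [e_zero]
      | succ n ih =>
        rw [pow_succ, ← ih, ← e_add]
        congr 1
        push_cast
        ring
    simp only [h1]
    have h2 : e (k / M) ≠ 1 := by
      intro h3
      unfold e at h3
      rw [Complex.exp_eq_one_iff] at h3
      obtain ⟨n, hn⟩ := h3
      apply h
      have h4 : ((2 * Real.pi * ((k : ℝ) / M) : ℝ) : ℂ) = ((n * (2 * Real.pi) : ℝ) : ℂ) := by
        have h5 : ((2 * Real.pi * ((k : ℝ) / M) : ℝ) : ℂ) * Complex.I =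
            ((n * (2 * Real.pi) : ℝ) : ℂ) * Complex.I := by
          rw [hn]; push_cast; ring
        exact mul_right_cancel₀ Complex.I_ne_zero h5
      have h5 : 2 * Real.pi * ((k : ℝ) / M) = n * (2 * Real.pi) := by exact_mod_cast h4
      have h6 : (k : ℝ) / M = n := by
        have hpi : (2 * Real.pi) ≠ 0 := by positivity
        have h7 : 2 * Real.pi * ((k : ℝ) / M) = 2 * Real.pi * n := by rw [h5]; ring
        exact mul_left_cancel₀ hpi h7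
      rw [div_eq_iff hM0] at h6
      refine ⟨n, ?_⟩
      have h8 : (k : ℝ) = ((M * n : ℤ) : ℝ) := by push_cast; rw [h6]; ring
      exact_mod_cast h8
    have h3 : (e (k / M)) ^ M = 1 := by
      rw [← h1 M]
      have h4 : (M : ℝ) * k / M = (k : ℤ) := by field_simp
      rw [h4, e_int]
    have h4 := mul_geom_sum (e (k / M)) M
    rw [h3, sub_self] at h4
    exact (mul_eq_zero.1 h4).resolve_left (sub_ne_zero.2 h2)

/-- exponential sum over a finite set of integers -/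
noncomputable def F (M : ℕ) (A : Finset ℤ) (ξ : ℕ) : ℂ := ∑ a ∈ A, e ((ξ : ℝ) * a / M)

lemma F_zero (M : ℕ) (A : Finset ℤ) : F M A 0 = A.card := by
  unfold F
  simp [e_zero]

lemma F_dvd (P M : ℕ) (hP : P ∣ M) (hM : 0 < M) (A : Finset ℤ) (h : ℕ) :
    F P A h = F M A (h * (M / P)) := by
  unfold F
  refine sum_congr rfl fun a _ => ?_
  congr 1
  obtain ⟨T, rfl⟩ := hP
  have hP0 : 0 < P := Nat.pos_of_mul_pos_right hM |> fun _ => by
    rcases Nat.eq_zero_or_pos P with h | h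
    · subst h; simp at hM
    · exact h
  have hT0 : 0 < T := by
    rcases Nat.eq_zero_or_pos T with h | h
    · subst h; simp at hM
    · exact h
  rw [Nat.mul_div_cancel_left _ hP0]
  have h1 : (P : ℝ) ≠ 0 := by exact_mod_cast hP0.ne'
  have h2 : (T : ℝ) ≠ 0 := by exact_mod_cast hT0.ne'
  push_cast
  field_simp

lemma parseval (M : ℕ) (hM : 0 < M) (A : Finset ℤ)
    (hA : ∀ a ∈ A, ∀ b ∈ A, (M : ℤ) ∣ a - b → a = b) :
    ∑ ξ ∈ range M, ‖F M A ξ‖ ^ 2 = M * A.card := by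
  have h1 : ((∑ ξ ∈ range M, ‖F M A ξ‖ ^ 2 : ℝ) : ℂ) = ((M * A.card : ℝ) : ℂ) := by
    push_cast
    have h2 : ∀ ξ ∈ range M, ((‖F M A ξ‖ : ℂ)) ^ 2 =
        ∑ a ∈ A, ∑ b ∈ A, e ((ξ : ℝ) * ((a - b : ℤ) : ℝ) / M) := by
      intro ξ _
      rw [← Complex.mul_conj']
      unfold F
      rw [map_sum, sum_mul_sum]
      refine sum_congr rfl fun a _ => sum_congr rfl fun b _ => ?_
      rw [conj_e, ← e_add]
      congr 1
      push_cast
      ring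
    rw [sum_congr rfl h2, sum_comm]
    have h3 : ∀ a ∈ A, ∑ ξ ∈ range M, ∑ b ∈ A, e ((ξ : ℝ) * ((a - b : ℤ) : ℝ) / M) = M := by
      intro a ha
      rw [sum_comm]
      have h4 : ∀ b ∈ A, ∑ ξ ∈ range M, e ((ξ : ℝ) * ((a - b : ℤ) : ℝ) / M) =
          if b = a then (M : ℂ) else 0 := by
        intro b hb
        rw [orth M hM]
        by_cases h5 : b = a
        · subst h5
          simp
        · rw [if_neg h5, if_neg]
          intro h6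
          exact h5 (hA a ha b hb h6).symm
      rw [sum_congr rfl h4, sum_ite_eq' A a, if_pos ha]
    rw [sum_congr rfl h3]
    simp only [sum_const, nsmul_eq_mul]
    ring
  exact_mod_cast h1

/-- the number of the triples with sum `≡ n` modulo `M` -/
def R (M : ℕ) (A B C : Finset ℤ) (n : ℤ) : ℕ :=
  ((A ×ˢ (B ×ˢ C)).filter (fun t => (M : ℤ) ∣ t.1 + t.2.1 + t.2.2 - n)).card

lemma rep (M : ℕ) (hM : 0 < M) (A B C : Finset ℤ) (n : ℤ) :
    (M : ℂ) * R M A B C n =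
      ∑ ξ ∈ range M, F M A ξ * F M B ξ * F M C ξ * e (-((ξ : ℝ) * n / M)) := by
  have h1 : ∀ ξ ∈ range M, F M A ξ * F M B ξ * F M C ξ * e (-((ξ : ℝ) * n / M)) =
      ∑ t ∈ A ×ˢ (B ×ˢ C), e ((ξ : ℝ) * ((t.1 + t.2.1 + t.2.2 - n : ℤ) : ℝ) / M) := by
    intro ξ _
    rw [sum_product]
    unfold F
    rw [mul_assoc (∑ a ∈ A, e ((ξ : ℝ) * a / M)), sum_mul_sum, sum_mul, sum_mul]
    refine sum_congr rfl fun a _ => ?_
    rw [sum_product, mul_sum, sum_mul]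
    refine sum_congr rfl fun b _ => ?_
    rw [mul_sum, sum_mul]
    refine sum_congr rfl fun c _ => ?_
    rw [← e_add, ← e_add, ← e_add]
    congr 1
    push_cast
    ring
  rw [sum_congr rfl h1, sum_comm]
  have h2 : ∀ t ∈ A ×ˢ (B ×ˢ C), ∑ ξ ∈ range M,
      e ((ξ : ℝ) * ((t.1 + t.2.1 + t.2.2 - n : ℤ) : ℝ) / M) =
      if (M : ℤ) ∣ t.1 + t.2.1 + t.2.2 - n then (M : ℂ) else 0 := fun t _ => orth M hM _
  rw [sum_congr rfl h2, ← sum_filter, sum_const, nsmul_eq_mul, R, mul_comm]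

lemma rep_zero (M : ℕ) (hM : 0 < M) (A B C : Finset ℤ) (n : ℤ) :
    (A.card : ℝ) * B.card * C.card -
      ∑ ξ ∈ (range M).erase 0, ‖F M A ξ‖ * ‖F M B ξ‖ * ‖F M C ξ‖ ≤ M * R M A B C n := by
  have h1 := rep M hM A B C n
  rw [← add_sum_erase _ _ (mem_range.2 hM)] at h1
  simp only [F_zero, Nat.cast_zero, zero_mul, zero_div, neg_zero, e_zero, mul_one] at h1
  have h2 : ‖((M : ℂ) * R M A B C n) - (A.card * B.card * C.card : ℂ)‖ ≤
      ∑ ξ ∈ (range M).erase 0, ‖F M A ξ‖ * ‖F M B ξ‖ * ‖F M C ξ‖ := by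
    rw [h1, add_sub_cancel_left]
    refine (norm_sum_le _ _).trans (sum_le_sum fun ξ _ => ?_)
    rw [norm_mul, norm_mul, norm_mul, norm_e, mul_one]
  have h3 : ((M : ℂ) * R M A B C n) - (A.card * B.card * C.card : ℂ) =
      ((M * R M A B C n - A.card * B.card * C.card : ℝ) : ℂ) := by push_cast; ring
  rw [h3, Complex.norm_real, Real.norm_eq_abs] at h2
  have h4 := (abs_le.1 h2).1
  linarith

/-- the Cauchy-Schwarz bound -/
lemma cauchy (M : ℕ) (hM : 0 < M) (B C : Finset ℤ)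
    (hB : ∀ a ∈ B, ∀ b ∈ B, (M : ℤ) ∣ a - b → a = b)
    (hC : ∀ a ∈ C, ∀ b ∈ C, (M : ℤ) ∣ a - b → a = b) :
    ∑ ξ ∈ range M, ‖F M B ξ‖ * ‖F M C ξ‖ ≤ M * Real.sqrt (B.card * C.card) := by
  refine (Real.sum_mul_le_sqrt_mul_sqrt _ _ _).trans ?_
  rw [parseval M hM B hB, parseval M hM C hC, ← Real.sqrt_mul (by positivity)]
  have h1 : (M : ℝ) * B.card * (M * C.card) = (M : ℝ) ^ 2 * (B.card * C.card) := by ring
  rw [h1, Real.sqrt_mul (by positivity), Real.sqrt_sq (by positivity)]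

lemma tail (M : ℕ) (hM : 0 < M) (B C : Finset ℤ)
    (hB : ∀ a ∈ B, ∀ b ∈ B, (M : ℤ) ∣ a - b → a = b)
    (hC : ∀ a ∈ C, ∀ b ∈ C, (M : ℤ) ∣ a - b → a = b) (Ξ : Finset ℕ) (hΞ : Ξ ⊆ range M)
    (g : ℕ → ℝ) (τ : ℝ) (hτ : 0 ≤ τ) (hg : ∀ ξ ∈ Ξ, g ξ ≤ τ) :
    ∑ ξ ∈ Ξ, g ξ * (‖F M B ξ‖ * ‖F M C ξ‖) ≤ τ * (M * Real.sqrt (B.card * C.card)) := by
  calc ∑ ξ ∈ Ξ, g ξ * (‖F M B ξ‖ * ‖F M C ξ‖) ≤ ∑ ξ ∈ Ξ, τ * (‖F M B ξ‖ * ‖F M C ξ‖) := by
        refine sum_le_sum fun ξ hξ => ?_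
        exact mul_le_mul_of_nonneg_right (hg ξ hξ) (by positivity)
    _ ≤ ∑ ξ ∈ range M, τ * (‖F M B ξ‖ * ‖F M C ξ‖) :=
        sum_le_sum_of_subset_of_nonneg hΞ fun ξ _ _ => by positivity
    _ = τ * ∑ ξ ∈ range M, ‖F M B ξ‖ * ‖F M C ξ‖ := by rw [mul_sum]
    _ ≤ _ := mul_le_mul_of_nonneg_left (cauchy M hM B C hB hC) hτ

lemma norm_F_le (M : ℕ) (A : Finset ℤ) (ξ : ℕ) : ‖F M A ξ‖ ≤ A.card := by
  unfold F
  refine (norm_sum_le _ _).trans (le_of_eq ?_)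
  simp [norm_e]

/-- the large spectrum -/
noncomputable def Sp (M : ℕ) (A : Finset ℤ) (η : ℝ) : Finset ℕ := by
  classical
  exact (range M).filter (fun ξ => η * A.card ≤ ‖F M A ξ‖)

lemma mem_Sp {M : ℕ} {A : Finset ℤ} {η : ℝ} {ξ : ℕ} :
    ξ ∈ Sp M A η ↔ ξ < M ∧ η * A.card ≤ ‖F M A ξ‖ := by
  unfold Sp
  rw [mem_filter, mem_range]

lemma card_Sp (M : ℕ) (hM : 0 < M) (A : Finset ℤ)
    (hA : ∀ a ∈ A, ∀ b ∈ A, (M : ℤ) ∣ a - b → a = b) (η : ℝ) (hη : 0 ≤ η) :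
    ((Sp M A η).card : ℝ) * (η * A.card) ^ 2 ≤ M * A.card := by
  rw [← parseval M hM A hA]
  calc ((Sp M A η).card : ℝ) * (η * A.card) ^ 2 = ∑ _ξ ∈ Sp M A η, (η * A.card) ^ 2 := by
        rw [sum_const, nsmul_eq_mul]
    _ ≤ ∑ ξ ∈ Sp M A η, ‖F M A ξ‖ ^ 2 := by
        refine sum_le_sum fun ξ hξ => ?_
        have := (mem_Sp.1 hξ).2
        have h0 : 0 ≤ η * A.card := by positivity
        gcongr
    _ ≤ _ := sum_le_sum_of_subset_of_nonneg (fun ξ hξ => mem_range.2 (mem_Sp.1 hξ).1)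
        fun ξ _ _ => by positivity

/-- almost periods -/
lemma shift (M : ℕ) (hM : 0 < M) (A B C : Finset ℤ)
    (hB : ∀ a ∈ B, ∀ b ∈ B, (M : ℤ) ∣ a - b → a = b)
    (hC : ∀ a ∈ C, ∀ b ∈ C, (M : ℤ) ∣ a - b → a = b) (η ρ : ℝ) (hη : 0 ≤ η) (hρ : 0 ≤ ρ)
    (n t : ℤ) (ht : ∀ ξ ∈ Sp M A η, ‖e (-((ξ : ℝ) * t / M)) - 1‖ ≤ ρ) :
    (R M A B C n : ℝ) - (ρ + 2 * η) * (A.card * Real.sqrt (B.card * C.card)) ≤
      R M A B C (n + t) := by
  have hM0 : (0 : ℝ) < M := by exact_mod_cast hM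
  have h1 : (M : ℂ) * R M A B C n - (M : ℂ) * R M A B C (n + t) =
      ∑ ξ ∈ range M, F M A ξ * F M B ξ * F M C ξ * e (-((ξ : ℝ) * n / M)) *
        (1 - e (-((ξ : ℝ) * t / M))) := by
    rw [rep M hM, rep M hM, ← sum_sub_distrib]
    refine sum_congr rfl fun ξ _ => ?_
    have h2 : e (-((ξ : ℝ) * ((n + t : ℤ) : ℝ) / M)) =
        e (-((ξ : ℝ) * n / M)) * e (-((ξ : ℝ) * t / M)) := by
      rw [← e_add]
      congr 1
      push_cast
      ring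
    rw [h2]
    ring
  have h2 : ‖(M : ℂ) * R M A B C n - (M : ℂ) * R M A B C (n + t)‖ ≤
      ∑ ξ ∈ range M, (‖F M A ξ‖ * ‖1 - e (-((ξ : ℝ) * t / M))‖) * (‖F M B ξ‖ * ‖F M C ξ‖) := by
    rw [h1]
    refine (norm_sum_le _ _).trans (le_of_eq (sum_congr rfl fun ξ _ => ?_))
    rw [norm_mul, norm_mul, norm_mul, norm_mul, norm_e]
    ring
  have h3 : ∑ ξ ∈ range M,
      (‖F M A ξ‖ * ‖1 - e (-((ξ : ℝ) * t / M))‖) * (‖F M B ξ‖ * ‖F M C ξ‖) ≤
      (A.card * ρ) * (M * Real.sqrt (B.card * C.card)) +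
      (η * A.card * 2) * (M * Real.sqrt (B.card * C.card)) := by
    have hsub : Sp M A η ⊆ range M := fun ξ hξ => mem_range.2 (mem_Sp.1 hξ).1
    rw [← sum_sdiff hsub, add_comm]
    refine add_le_add ?_ ?_
    · refine tail M hM B C hB hC _ hsub (fun ξ => ‖F M A ξ‖ * ‖1 - e (-((ξ : ℝ) * t / M))‖)
        _ (by positivity) fun ξ hξ => ?_
      have h4 := ht ξ hξ
      rw [norm_sub_rev] at h4
      exact mul_le_mul (norm_F_le _ _ _) h4 (norm_nonneg _) (by positivity)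
    · refine tail M hM B C hB hC _ sdiff_subset
        (fun ξ => ‖F M A ξ‖ * ‖1 - e (-((ξ : ℝ) * t / M))‖) _ (by positivity) fun ξ hξ => ?_
      rw [mem_sdiff, mem_Sp, mem_range, not_and, not_le] at hξ
      have h4 := (hξ.2 hξ.1).le
      have h5 : ‖1 - e (-((ξ : ℝ) * t / M))‖ ≤ 2 := by
        refine (norm_sub_le _ _).trans ?_
        rw [norm_e, norm_one]
        norm_num
      exact mul_le_mul h4 h5 (norm_nonneg _) (by positivity)
  have h4 : (M : ℂ) * R M A B C n - (M : ℂ) * R M A B C (n + t) =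
      ((M * R M A B C n - M * R M A B C (n + t) : ℝ) : ℂ) := by push_cast; ring
  rw [h4, Complex.norm_real, Real.norm_eq_abs] at h2
  have h5 := ((le_abs_self _).trans h2).trans h3
  have h6 : (M : ℝ) * ((R M A B C n : ℝ) - R M A B C (n + t)) ≤
      M * ((ρ + 2 * η) * (A.card * Real.sqrt (B.card * C.card))) := by
    calc (M : ℝ) * ((R M A B C n : ℝ) - R M A B C (n + t)) =
        M * R M A B C n - M * R M A B C (n + t) := by ring
      _ ≤ _ := h5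
      _ = _ := by ring
  have h7 := le_of_mul_le_mul_left h6 hM0
  linarith

/-- simultaneous approximation -/
lemma dirichlet (Λ : Finset ℕ) (θ : ℕ → ℝ) (Q : ℕ) (hQ : 0 < Q) :
    ∃ d : ℕ, 1 ≤ d ∧ d ≤ Q ^ Λ.card ∧ ∀ ξ ∈ Λ, ∃ k : ℤ, |(d : ℝ) * θ ξ - k| ≤ 1 / Q := by
  classical
  have hQ0 : (0 : ℝ) < Q := by exact_mod_cast hQ
  have hlt : ∀ x : ℝ, ⌊Int.fract x * Q⌋₊ < Q := by
    intro x
    rw [Nat.floor_lt (mul_nonneg (Int.fract_nonneg x) hQ0.le)]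
    have := Int.fract_lt_one x
    nlinarith
  let g : ℕ → (Λ → Fin Q) := fun d ξ => ⟨⌊Int.fract ((d : ℝ) * θ ξ) * Q⌋₊, hlt _⟩
  obtain ⟨d₁, h1, d₂, h2, hne, heq⟩ := Finset.exists_ne_map_eq_of_card_lt_of_maps_to
    (s := range (Q ^ Λ.card + 1)) (t := (univ : Finset (Λ → Fin Q))) (f := g) (by
      rw [card_range, card_univ, Fintype.card_fun, Fintype.card_fin, Fintype.card_coe]
      exact Nat.lt_succ_self _) (fun d _ => mem_univ _)
  wlog hlt' : d₁ < d₂ generalizing d₁ d₂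
  · exact this d₂ h2 d₁ h1 hne.symm heq.symm (lt_of_le_of_ne (not_lt.1 hlt') hne.symm)
  rw [mem_range] at h1 h2
  refine ⟨d₂ - d₁, by omega, by omega, fun ξ hξ => ?_⟩
  refine ⟨⌊(d₂ : ℝ) * θ ξ⌋ - ⌊(d₁ : ℝ) * θ ξ⌋, ?_⟩
  have h3 := congrFun heq ⟨ξ, hξ⟩
  have h4 : ⌊Int.fract ((d₁ : ℝ) * θ ξ) * Q⌋₊ = ⌊Int.fract ((d₂ : ℝ) * θ ξ) * Q⌋₊ :=
    congrArg Fin.val h3
  have h5 : |Int.fract ((d₂ : ℝ) * θ ξ) * Q - Int.fract ((d₁ : ℝ) * θ ξ) * Q| ≤ 1 := by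
    have a1 := Nat.floor_le (mul_nonneg (Int.fract_nonneg ((d₁ : ℝ) * θ ξ)) hQ0.le)
    have a2 := Nat.lt_floor_add_one (Int.fract ((d₁ : ℝ) * θ ξ) * Q)
    have a3 := Nat.floor_le (mul_nonneg (Int.fract_nonneg ((d₂ : ℝ) * θ ξ)) hQ0.le)
    have a4 := Nat.lt_floor_add_one (Int.fract ((d₂ : ℝ) * θ ξ) * Q)
    rw [h4] at a1 a2
    rw [abs_le]
    constructor <;> linarith
  have h6 : (((d₂ - d₁ : ℕ) : ℝ)) * θ ξ - ((⌊(d₂ : ℝ) * θ ξ⌋ - ⌊(d₁ : ℝ) * θ ξ⌋ : ℤ) : ℝ) =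
      Int.fract ((d₂ : ℝ) * θ ξ) - Int.fract ((d₁ : ℝ) * θ ξ) := by
    rw [Nat.cast_sub hlt'.le]
    push_cast
    unfold Int.fract
    ring
  rw [h6, le_div_iff₀ hQ0]
  have h7 : |Int.fract ((d₂ : ℝ) * θ ξ) * Q - Int.fract ((d₁ : ℝ) * θ ξ) * Q| =
      |Int.fract ((d₂ : ℝ) * θ ξ) - Int.fract ((d₁ : ℝ) * θ ξ)| * Q := by
    rw [← sub_mul, abs_mul, abs_of_pos hQ0]
  rw [← h7]
  exact h5

end Pool.Agent.H602SS
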