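import Pool.Agent.H602SS.SpecR
import Pool.Agent.Helper602.MK.J5a
import Pool.Agent.Helper602.MK.J5b
import Pool.Agent.Helper602.MK.J5c
import Pool.Agent.Helper602.MK.J6

set_option autoImplicit false

/-!
# Dense sets of integers and dense sets of primes satisfy the restriction estimate

The restriction estimate for the primes is `Pool.Agent.Helper602.MK.J6`.
-/

namespace Pool.Agent.H602SS

open Finset Filter
open Pool.Agent.Helper602.MK (ee PP)

/-- `A` is a dense set of integers, or (up to a translation and a reflection) a dense set of primes,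
at the scale `N`. -/
def Dense (δ : ℝ) (N : ℕ) (A : Finset ℤ) : Prop :=
  (∃ x : ℤ, A ⊆ Ioc x (x + N) ∧ δ * N ≤ A.card) ∨
  ∃ x s : ℤ, (s = 1 ∨ s = -1) ∧ (∀ a ∈ A, ∃ p : ℕ, p.Prime ∧ p ≤ N ∧ a = x + s * p) ∧
    δ * (N / Real.log N) ≤ A.card

theorem j6 : Pool.Agent.Helper602.MK.J6Stmt :=
  Pool.Agent.Helper602.MK.N_J6.J6
    (Pool.Agent.Helper602.MK.N_J5b.J5b Pool.Agent.Helper602.MK.N_J5a.J5a
      Pool.Agent.Helper602.MK.N_J5c.J5c)

lemma e_eq (x : ℝ) : e x = ee x := by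
  unfold e ee
  congr 1
  push_cast
  ring

/-- dense sets of integers -/
lemma res_int (N M : ℕ) (A : Finset ℤ) (hA : A ⊆ Ioc (0 : ℤ) N) (h8 : 8 * N < M)
    (h9 : M ≤ 9 * N) : Res 9 M A N := by
  have hM : 0 < M := by omega
  have hN : 0 < N := by omega
  have hNr : (0 : ℝ) < N := by exact_mod_cast hN
  have hdist : ∀ a ∈ A, ∀ b ∈ A, (M : ℤ) ∣ a - b → a = b := by
    intro a ha b hb h
    refine eq_of_dvd h ?_
    have h1 := mem_Ioc.1 (hA ha)
    have h2 := mem_Ioc.1 (hA hb)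
    have h3 : (8 * N : ℤ) < M := by exact_mod_cast h8
    rw [abs_lt]
    constructor <;> linarith
  have hc : (A.card : ℝ) ≤ N := by
    have h1 := card_le_card hA
    rw [Int.card_Ioc] at h1
    have h2 : A.card ≤ N := by omega
    exact_mod_cast h2
  have hpars := parseval M hM A hdist
  unfold Res
  have h1 : ∀ ξ ∈ range M, ‖F M A ξ‖ ^ (5 / 2 : ℝ) ≤ (N : ℝ) ^ (1 / 2 : ℝ) * ‖F M A ξ‖ ^ 2 := by
    intro ξ _
    have h2 := (norm_F_le M A ξ).trans hc
    have h3 : ‖F M A ξ‖ ^ (5 / 2 : ℝ) = ‖F M A ξ‖ ^ (1 / 2 : ℝ) * ‖F M A ξ‖ ^ 2 := by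
      rw [← Real.rpow_natCast ‖F M A ξ‖ 2, ← Real.rpow_add_of_nonneg (norm_nonneg _) (by norm_num)
        (by norm_num)]
      norm_num
    rw [h3]
    apply mul_le_mul_of_nonneg_right _ (by positivity)
    exact Real.rpow_le_rpow (norm_nonneg _) h2 (by norm_num)
  calc ∑ ξ ∈ range M, ‖F M A ξ‖ ^ (5 / 2 : ℝ) ≤
      ∑ ξ ∈ range M, (N : ℝ) ^ (1 / 2 : ℝ) * ‖F M A ξ‖ ^ 2 := sum_le_sum h1
    _ = (N : ℝ) ^ (1 / 2 : ℝ) * (M * A.card) := by rw [← mul_sum, hpars]
    _ ≤ (N : ℝ) ^ (1 / 2 : ℝ) * (9 * N * N) := by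
        apply mul_le_mul_of_nonneg_left _ (Real.rpow_nonneg hNr.le _)
        have h4 : (M : ℝ) ≤ 9 * N := by exact_mod_cast h9
        exact mul_le_mul h4 hc (by positivity) (by positivity)
    _ = 9 * (N : ℝ) ^ (5 / 2 : ℝ) := by
        have h5 : (N : ℝ) ^ (5 / 2 : ℝ) = (N : ℝ) ^ (1 / 2 : ℝ) * (N : ℝ) ^ (2 : ℝ) := by
          rw [← Real.rpow_add hNr]
          norm_num
        rw [h5, Real.rpow_two]
        ring

lemma Res.mono {C₁ C₂ : ℝ} {M : ℕ} {A : Finset ℤ} {w : ℝ} (h : Res C₁ M A w) (hw : 0 < w)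
    (hC : C₁ ≤ C₂) : Res C₂ M A w :=
  h.trans (mul_le_mul_of_nonneg_right hC (Real.rpow_nonneg hw.le _))

/-- sets of primes -/
lemma F_primes (N M : ℕ) (P : Finset ℕ) (hP : P ⊆ PP N) (ξ : ℕ) :
    F M (P.image (fun p : ℕ => (p : ℤ))) ξ =
      ∑ p ∈ PP N, (if p ∈ P then (1 : ℂ) else 0) * ee ((ξ : ℝ) * p / M) := by
  unfold F
  rw [sum_image (fun a _ b _ h => by exact_mod_cast h)]
  simp only [ite_mul, one_mul, zero_mul]
  rw [← sum_filter]
  have h1 : (PP N).filter (fun p => p ∈ P) = P := by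
    ext p
    rw [mem_filter]
    exact ⟨fun h => h.2, fun h => ⟨hP h, h⟩⟩
  rw [h1]
  refine sum_congr rfl fun p _ => ?_
  rw [e_eq]
  push_cast
  rfl

lemma norm_F_reflect (M : ℕ) (P : Finset ℕ) (c : ℤ) (ξ : ℕ) :
    ‖F M (P.image (fun p : ℕ => c - (p : ℤ))) ξ‖ = ‖F M (P.image (fun p : ℕ => (p : ℤ))) ξ‖ := by
  unfold F
  rw [sum_image (fun a _ b _ h => by
    have h1 : c - (a : ℤ) = c - b := h
    have : (a : ℤ) = b := by linarith
    exact_mod_cast this), sum_image (fun a _ b _ h => by exact_mod_cast h)]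
  have h1 : ∑ p ∈ P, e ((ξ : ℝ) * ((c - (p : ℤ) : ℤ) : ℝ) / M) =
      e ((ξ : ℝ) * c / M) * (starRingEnd ℂ) (∑ p ∈ P, e ((ξ : ℝ) * ((p : ℤ) : ℝ) / M)) := by
    rw [map_sum, mul_sum]
    refine sum_congr rfl fun p _ => ?_
    rw [conj_e, ← e_add]
    congr 1
    push_cast
    ring
  rw [h1, norm_mul, norm_e, one_mul, RCLike.norm_conj]

theorem good (δ : ℝ) (hδ : 0 < δ) : ∃ CR : ℝ, 1 ≤ CR ∧ ∃ N₀ : ℕ, ∀ N : ℕ, N₀ ≤ N →
    1 ≤ Real.log N ∧ ∀ A : Finset ℤ, Dense δ N A → ∃ x : ℤ, ∃ w : ℝ, ∃ A' : Finset ℤ,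
      N / Real.log N ≤ w ∧ A' ⊆ Ioc (0 : ℤ) N ∧ (∀ a ∈ A', a + x ∈ A) ∧
      (A.card : ℝ) ≤ 2 * A'.card ∧ δ / 2 * w ≤ A'.card ∧
      ∀ M : ℕ, 8 * N < M → M ≤ 9 * N → Res CR M A' w := by
  classical
  obtain ⟨C₆, hC₆, k₀, hk₀, h6⟩ := j6
  have hev : ∀ᶠ M : ℝ in atTop, 1 ≤ Real.log M ∧ 0 < M ∧ Real.sqrt M ≤ δ / 2 * (M / Real.log M) := by
    have h1 := (isLittleO_log_rpow_atTop (show (0 : ℝ) < 1 / 2 by norm_num)).def
      (show (0 : ℝ) < δ / 2 by positivity)
    filter_upwards [h1, Real.tendsto_log_atTop.eventually_ge_atTop 1, eventually_gt_atTop 0]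
      with M hM hM1 hM0
    refine ⟨hM1, hM0, ?_⟩
    rw [Real.norm_eq_abs, abs_of_nonneg (by linarith), Real.norm_eq_abs,
      abs_of_nonneg (Real.rpow_nonneg hM0.le _), ← Real.sqrt_eq_rpow] at hM
    have h2 : 0 < Real.log M := by linarith
    rw [← mul_div_assoc, le_div_iff₀ h2]
    calc Real.sqrt M * Real.log M ≤ Real.sqrt M * (δ / 2 * Real.sqrt M) := by gcongr
      _ = δ / 2 * (Real.sqrt M * Real.sqrt M) := by ring
      _ = δ / 2 * M := by rw [Real.mul_self_sqrt hM0.le]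
  have tN : Tendsto (fun N : ℕ => (N : ℝ)) atTop atTop := tendsto_natCast_atTop_atTop
  obtain ⟨N₁, hN₁⟩ := eventually_atTop.1 (tN.eventually hev)
  refine ⟨max 9 C₆, le_max_of_le_left (by norm_num), max N₁ k₀, ?_⟩
  intro N hN
  obtain ⟨hlog, hN0, hsq⟩ := hN₁ N ((le_max_left _ _).trans hN)
  have hNk : k₀ ≤ N := (le_max_right _ _).trans hN
  refine ⟨hlog, ?_⟩
  have hlog0 : 0 < Real.log N := by linarith
  intro A hA
  rcases hA with ⟨x, hAx, hAc⟩ | ⟨x, s, hs, hAp, hAc⟩
  · refine ⟨x, N, A.image (fun a => a - x), ?_, ?_, ?_, ?_, ?_, ?_⟩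
    · exact div_le_self hN0.le hlog
    · intro b hb
      obtain ⟨a, ha, rfl⟩ := mem_image.1 hb
      have := mem_Ioc.1 (hAx ha)
      rw [mem_Ioc]
      constructor <;> linarith
    · intro b hb
      obtain ⟨a, ha, rfl⟩ := mem_image.1 hb
      simpa using ha
    · rw [card_image_of_injective _ (sub_left_injective)]
      have : (0 : ℝ) ≤ A.card := Nat.cast_nonneg _
      linarith
    · rw [card_image_of_injective _ (sub_left_injective)]
      have : 0 < δ * N := by positivity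
      linarith
    · intro M h8 h9
      refine (res_int N M _ ?_ h8 h9).mono hN0 (le_max_left _ _)
      intro b hb
      obtain ⟨a, ha, rfl⟩ := mem_image.1 hb
      have := mem_Ioc.1 (hAx ha)
      rw [mem_Ioc]
      constructor <;> linarith
  · -- sets of primes
    have hs0 : s ≠ 0 := by rcases hs with h | h <;> rw [h] <;> norm_num
    obtain ⟨P, hP⟩ : ∃ P : Finset ℕ, P = (PP N).filter (fun p : ℕ => x + s * p ∈ A) := ⟨_, rfl⟩
    have hPP : P ⊆ PP N := by rw [hP]; exact filter_subset _ _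
    have hPpr : ∀ p ∈ P, 1 ≤ p ∧ p ≤ N := by
      intro p hp
      have h1 := hPP hp
      unfold PP at h1
      rw [mem_filter, mem_Icc] at h1
      exact h1.1
    have hcount : (A.card : ℝ) ≤ P.card + Real.sqrt N := by
      have h1 : A ⊆ (P ∪ (Icc 1 (Nat.sqrt N))).image (fun p : ℕ => x + s * (p : ℤ)) := by
        intro a ha
        obtain ⟨p, hp, hpN, rfl⟩ := hAp a ha
        rw [mem_image]
        refine ⟨p, ?_, rfl⟩
        rw [mem_union]
        by_cases h2 : N < p ^ 2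
        · left
          rw [hP, mem_filter]
          refine ⟨?_, ha⟩
          unfold PP
          rw [mem_filter, mem_Icc]
          exact ⟨⟨hp.pos, hpN⟩, hp, h2⟩
        · right
          rw [mem_Icc, Nat.le_sqrt']
          exact ⟨hp.pos, not_lt.1 h2⟩
      have h2 := ((card_le_card h1).trans card_image_le).trans (card_union_le _ _)
      rw [Nat.card_Icc, Nat.add_sub_cancel] at h2
      have h3 : (A.card : ℝ) ≤ P.card + (Nat.sqrt N : ℕ) := by exact_mod_cast h2
      have h4 : ((Nat.sqrt N : ℕ) : ℝ) ≤ Real.sqrt N := Real.nat_sqrt_le_real_sqrt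
      linarith
    have hhalf : (A.card : ℝ) ≤ 2 * P.card := by
      have h1 : δ / 2 * (N / Real.log N) = δ * (N / Real.log N) / 2 := by ring
      linarith
    have hdens : δ / 2 * (N / Real.log N) ≤ P.card := by
      have h1 : δ / 2 * (N / Real.log N) = δ * (N / Real.log N) / 2 := by ring
      linarith
    have hw0 : 0 < (N : ℝ) / Real.log N := by positivity
    have hres : ∀ M : ℕ, 8 * N < M → M ≤ 9 * N →
        Res (max 9 C₆) M (P.image (fun p : ℕ => (p : ℤ))) (N / Real.log N) := by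
      intro M h8 h9
      refine Res.mono (C₁ := C₆) ?_ hw0 (le_max_right _ _)
      unfold Res
      have h1 := h6 N hNk M (by omega) (by omega) (fun p => if p ∈ P then (1 : ℂ) else 0) (by
        intro p
        split_ifs
        · simp
        · simp)
      simp only [F_primes N M P hPP]
      exact h1
    have hcardP : (P.image (fun p : ℕ => (p : ℤ))).card = P.card :=
      card_image_of_injective _ Nat.cast_injective
    rcases hs with rfl | rfl
    · refine ⟨x, N / Real.log N, P.image (fun p : ℕ => (p : ℤ)), le_rfl, ?_, ?_, ?_, ?_, hres⟩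
      · intro b hb
        obtain ⟨p, hp, rfl⟩ := mem_image.1 hb
        have h1 := hPpr p hp
        rw [mem_Ioc]
        omega
      · intro b hb
        obtain ⟨p, hp, rfl⟩ := mem_image.1 hb
        rw [hP, mem_filter] at hp
        have h1 : (p : ℤ) + x = x + 1 * p := by ring
        rw [h1]
        exact hp.2
      · rw [hcardP]; exact hhalf
      · rw [hcardP]; exact hdens
    · have hcardQ : (P.image (fun p : ℕ => ((N : ℤ) + 1) - (p : ℤ))).card = P.card :=
        card_image_of_injective _ fun a b h => by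
          have h1 : ((N : ℤ) + 1) - (a : ℤ) = ((N : ℤ) + 1) - b := h
          omega
      refine ⟨x - (N + 1), N / Real.log N, P.image (fun p : ℕ => ((N : ℤ) + 1) - (p : ℤ)), le_rfl,
        ?_, ?_, ?_, ?_, ?_⟩
      · intro b hb
        obtain ⟨p, hp, rfl⟩ := mem_image.1 hb
        have h1 := hPpr p hp
        rw [mem_Ioc]
        omega
      · intro b hb
        obtain ⟨p, hp, rfl⟩ := mem_image.1 hb
        rw [hP, mem_filter] at hp
        have h1 : ((N : ℤ) + 1) - (p : ℤ) + (x - (N + 1)) = x + -1 * p := by ring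
        rw [h1]
        exact hp.2
      · rw [hcardQ]; exact hhalf
      · rw [hcardQ]; exact hdens
      · intro M h8 h9
        have h1 := hres M h8 h9
        unfold Res at h1 ⊢
        simp only [norm_F_reflect]
        exact h1

end Pool.Agent.H602SS
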