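import Pool.Agent.H361R2.PA.Sc2

set_option autoImplicit false
set_option maxHeartbeats 4000000

/-!
# The residue classes of the record sieve when few primes are not available

Adapted from `Pool.Agent.H361R2.PA.MultA`.
-/

namespace Pool.Agent.H602SS

open Finset Filter Pool.Agent.H318R2.Cr Pool.Agent.H361R2.PA

open scoped Classical

theorem prod_drop (K v : ℕ) (S : Finset ℕ) (hS : S.card ≤ K) :
    ∏ p ∈ (Pz v).filter (fun p => p ∉ S), (1 - 1 / (p : ℝ)) ≤ 2 ^ K * V v := by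
  have h1 : V v = (∏ p ∈ (Pz v).filter (fun p => p ∉ S), (1 - 1 / (p : ℝ))) *
      ∏ p ∈ (Pz v).filter (fun p => ¬ (p ∉ S)), (1 - 1 / (p : ℝ)) := by
    unfold V
    rw [prod_filter_mul_prod_filter_not]
  obtain ⟨W₁, hW₁⟩ : ∃ W₁ : ℝ, W₁ = ∏ p ∈ (Pz v).filter (fun p => p ∉ S), (1 - 1 / (p : ℝ)) :=
    ⟨_, rfl⟩
  obtain ⟨W₂, hW₂⟩ : ∃ W₂ : ℝ, W₂ = ∏ p ∈ (Pz v).filter (fun p => ¬ (p ∉ S)), (1 - 1 / (p : ℝ)) :=
    ⟨_, rfl⟩
  rw [← hW₁, ← hW₂] at h1
  rw [← hW₁, h1]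
  have h0 : 0 ≤ W₁ := by
    rw [hW₁]
    exact prod_nonneg fun p hp => (one_sub_inv_pos (mem_Pz.1 (mem_filter.1 hp).1).1).le
  have h2 : (1 / 2 : ℝ) ^ K ≤ W₂ := by
    rw [hW₂]
    have h3 : ∏ _p ∈ (Pz v).filter (fun p => ¬ (p ∉ S)), (1 / 2 : ℝ) ≤
        ∏ p ∈ (Pz v).filter (fun p => ¬ (p ∉ S)), (1 - 1 / (p : ℝ)) := by
      refine prod_le_prod (fun _ _ => by norm_num) fun p hp => ?_
      have h4 := (mem_Pz.1 (mem_filter.1 hp).1).1.two_le
      have h5 : (2 : ℝ) ≤ p := by exact_mod_cast h4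
      have h6 : 1 / (p : ℝ) ≤ 1 / 2 := one_div_le_one_div_of_le (by norm_num) h5
      linarith
    refine le_trans ?_ h3
    rw [prod_const]
    refine pow_le_pow_of_le_one (by norm_num) (by norm_num) ?_
    refine le_trans (card_le_card ?_) hS
    intro p hp
    have := (mem_filter.1 hp).2
    exact not_not.1 this
  have h3 : (2 : ℝ) ^ K * (1 / 2) ^ K = 1 := by
    rw [← mul_pow]; norm_num
  calc W₁ = 1 * W₁ := (one_mul _).symm
    _ = 2 ^ K * (1 / 2) ^ K * W₁ := by rw [h3]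
    _ ≤ 2 ^ K * W₂ * W₁ := by gcongr
    _ = 2 ^ K * (W₁ * W₂) := by ring

theorem card_mult (p L : ℕ) (hp : 0 < p) :
    (((Icc (-(L : ℤ)) L).filter (fun a => (p : ℤ) ∣ a)).card : ℝ) ≤ 2 * L / p + 1 := by
  have hp0 : (0 : ℝ) < p := by exact_mod_cast hp
  have h1 : ((Icc (-(L : ℤ)) L).filter (fun a => (p : ℤ) ∣ a)) ⊆
      (Icc (-((L / p : ℕ) : ℤ)) ((L / p : ℕ) : ℤ)).image (fun k => (p : ℤ) * k) := by
    intro a ha
    rw [mem_filter, mem_Icc] at ha
    obtain ⟨⟨h2, h3⟩, k, rfl⟩ := ha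
    rw [mem_image]
    refine ⟨k, ?_, rfl⟩
    rw [mem_Icc]
    have hp' : (0 : ℤ) < p := by exact_mod_cast hp
    have h4 : ((L / p : ℕ) : ℤ) = (L : ℤ) / p := by push_cast; rfl
    rw [h4]
    constructor
    · have h5 : -k ≤ (L : ℤ) / p := by
        rw [Int.le_ediv_iff_mul_le hp']
        linarith
      linarith
    · rw [Int.le_ediv_iff_mul_le hp']
      linarith
  have h2 := (card_le_card h1).trans card_image_le
  rw [Int.card_Icc] at h2
  have h3 : (((L / p : ℕ) : ℤ) + 1 - -((L / p : ℕ) : ℤ)).toNat = 2 * (L / p) + 1 := by omega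
  rw [h3] at h2
  have h4 : ((L / p : ℕ) : ℝ) ≤ (L : ℝ) / p := Nat.cast_div_le
  calc (((Icc (-(L : ℤ)) L).filter (fun a => (p : ℤ) ∣ a)).card : ℝ) ≤
      ((2 * (L / p) + 1 : ℕ) : ℝ) := by exact_mod_cast h2
    _ = 2 * ((L / p : ℕ) : ℝ) + 1 := by push_cast; ring
    _ ≤ 2 * ((L : ℝ) / p) + 1 := by gcongr
    _ = _ := by ring

theorem ev_sq (C : ℝ) : ∃ X₀ : ℝ, ∀ X : ℝ, X₀ ≤ X →
    C * (Real.log (Real.log (Real.log X))) ^ 2 ≤ Real.log (Real.log X) := by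
  have h1 := (Real.isLittleO_pow_log_id_atTop (n := 2)).def
    (show (0 : ℝ) < 1 / (|C| + 1) by positivity)
  have t2 : Tendsto (fun X : ℝ => Real.log (Real.log X)) atTop atTop :=
    Real.tendsto_log_atTop.comp Real.tendsto_log_atTop
  have h2 := t2.eventually h1
  have h3 := t2.eventually (eventually_ge_atTop (0 : ℝ))
  obtain ⟨X₀, hX₀⟩ := eventually_atTop.1 (h2.and h3)
  refine ⟨X₀, fun X hX => ?_⟩
  obtain ⟨h4, h5⟩ := hX₀ X hX
  simp only [id, Real.norm_eq_abs, abs_of_nonneg h5] at h4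
  rw [abs_of_nonneg (by positivity)] at h4
  have h6 : 0 ≤ (Real.log (Real.log (Real.log X))) ^ 2 := by positivity
  have h7 : (|C| + 1) * (Real.log (Real.log (Real.log X))) ^ 2 ≤ Real.log (Real.log X) := by
    have h8 := mul_le_mul_of_nonneg_left h4 (show 0 ≤ |C| + 1 by positivity)
    have h9 : (|C| + 1) * (1 / (|C| + 1) * Real.log (Real.log X)) = Real.log (Real.log X) := by
      field_simp
    linarith
  have h8 : C ≤ |C| + 1 := by linarith [le_abs_self C]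
  calc C * (Real.log (Real.log (Real.log X))) ^ 2 ≤
      (|C| + 1) * (Real.log (Real.log (Real.log X))) ^ 2 := by gcongr
    _ ≤ _ := h7

theorem survS (c₀ : ℝ) (hc₀ : 0 < c₀) (K : ℕ) : ∃ c' : ℝ, 0 < c' ∧ ∃ X₀ : ℝ, ∀ X : ℝ, X₀ ≤ X →
    10000 ≤ Real.log X ∧
    ∃ L : ℕ, c' * FF 1 X + 1 ≤ L ∧ 2 * (L : ℝ) + 1 ≤ (Real.log X) ^ 2 ∧
    ∀ S : Finset ℕ, S.card ≤ K → ∃ b : ℕ → ℕ,
      (((Icc (-(L : ℤ)) L).filter (fun a => ∀ p : ℕ, p.Prime → (p : ℝ) ≤ Real.log X / 10 →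
        p ∉ S → ¬ (p : ℤ) ∣ (b p : ℤ) + a)).card : ℝ) ≤ c₀ * Real.log X := by
  obtain ⟨y₀, hmed⟩ := card_med
  obtain ⟨c₂, hc₂, X₂, hfacts⟩ := facts (1000 / c₀ + 400 * K / c₀ + 10 * |y₀| + 10)
  obtain ⟨X₃, hsq⟩ := ev_sq 60
  set c' : ℝ := min (1 / 10) (c₀ / (1000 * c₂ * 2 ^ K)) with hc'
  have hc'0 : 0 < c' := by positivity
  have hc'1 : c' ≤ 1 / 10 := min_le_left _ _
  have hc'2 : c' ≤ c₀ / (1000 * c₂ * 2 ^ K) := min_le_right _ _
  clear_value c'
  refine ⟨c', hc'0, max X₂ X₃, ?_⟩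
  intro X hX
  obtain ⟨hX0, g1, g2, g3, g4, g5, g6, g7, g8, g9, g10, g11, g12, g13, g14⟩ :=
    hfacts X ((le_max_left _ _).trans hX)
  have g15 := hsq X ((le_max_right _ _).trans hX)
  set L1 := Real.log X with hL1
  set u₂ := Real.log L1 with hu₂
  set u₃ := Real.log u₂ with hu₃
  set u₄ := Real.log u₃ with hu₄
  set y := L1 / 10 with hy
  have hy0 : 0 < y := by rw [hy]; linarith
  have hu₃0 : 0 < u₃ := by linarith
  have hu₂0 : 0 < u₂ := by linarith
  have hu₄0 : 0 < u₄ := by linarith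
  have hFF : FF 1 X = L1 * (u₂ * u₄ / u₃) * (u₂ / u₃) := by
    unfold FF
    rw [← hL1, ← hu₂, ← hu₃, ← hu₄]
    field_simp
    ring
  have hFF0 : 0 < FF 1 X := by rw [hFF]; positivity
  set F := c' * FF 1 X with hF
  have hF0 : 0 < F := by positivity
  have hyab : 0 ≤ |y₀| := abs_nonneg _
  have hc0' : 0 < 1000 / c₀ := by positivity
  have hK0' : 0 ≤ 400 * (K : ℝ) / c₀ := by positivity
  have hr3 : u₃ / u₂ ≤ c₀ / 1000 := by
    rw [div_le_div_iff₀ hu₂0 (by norm_num)]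
    have h1 : 1000 / c₀ * u₃ ≤ u₂ := by
      have h2 : 1000 / c₀ * u₃ ≤ (1000 / c₀ + 400 * K / c₀ + 10 * |y₀| + 10) * u₃ := by
        apply mul_le_mul_of_nonneg_right _ hu₃0.le
        linarith
      linarith
    rw [div_mul_eq_mul_div, div_le_iff₀ hc₀] at h1
    linarith
  have hK1 : 400 * (K : ℝ) ≤ c₀ * u₂ := by
    have h1 : 400 * (K : ℝ) / c₀ * 1 ≤ u₂ := by
      have h2 : 400 * (K : ℝ) / c₀ * 1 ≤ (1000 / c₀ + 400 * K / c₀ + 10 * |y₀| + 10) * u₃ := by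
        apply mul_le_mul _ (by linarith) (by norm_num) (by positivity)
        linarith
      linarith
    rw [mul_one, div_le_iff₀ hc₀] at h1
    linarith
  have hK2 : 400 * (K : ℝ) ≤ c₀ * L1 := by
    have h1 : u₂ ≤ L1 := (Real.log_le_sub_one_of_pos (by linarith)).trans (by linarith)
    calc 400 * (K : ℝ) ≤ c₀ * u₂ := hK1
      _ ≤ c₀ * L1 := by gcongr
  set L : ℕ := ⌊F + L1⌋₊ with hLdef
  have hLF : (L : ℝ) ≤ F + L1 := Nat.floor_le (by linarith)
  have hLF2 : F + L1 < L + 1 := Nat.lt_floor_add_one _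
  clear_value L
  have hyL : y ≤ L := by
    rw [hy]
    linarith
  have hFL : F + 1 ≤ L := by linarith
  have hF2 : F ≤ L1 * u₂ ^ 2 / 10 := by
    rw [hF, hFF]
    have h1 : u₂ * u₄ / u₃ ≤ u₂ := by
      rw [div_le_iff₀ hu₃0]
      gcongr
    have h2 : u₂ / u₃ ≤ u₂ := div_le_self hu₂0.le (by linarith)
    calc c' * (L1 * (u₂ * u₄ / u₃) * (u₂ / u₃)) ≤ 1 / 10 * (L1 * u₂ * u₂) := by
          gcongr
      _ = _ := by ring
  have hu2sq : 1 ≤ u₂ ^ 2 := by
    calc (1 : ℝ) ≤ 160 ^ 2 := by norm_num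
      _ ≤ u₂ ^ 2 := by gcongr
  have hLbig : (L : ℝ) ≤ L1 * u₂ ^ 2 := by
    have hu2b : 4 ≤ u₂ ^ 2 := by
      calc (4 : ℝ) ≤ 160 ^ 2 := by norm_num
        _ ≤ u₂ ^ 2 := by gcongr
    have hL1p : 0 ≤ L1 := by linarith
    have h1 : L1 * 4 ≤ L1 * u₂ ^ 2 := mul_le_mul_of_nonneg_left hu2b hL1p
    linarith
  have hLy : (L : ℝ) ≤ y * (Real.log y) ^ 4 := by
    refine hLbig.trans ?_
    have h1 : (u₂ / 2) ^ 4 ≤ (Real.log y) ^ 4 := by gcongr
    have h2 : 10 * u₂ ^ 2 ≤ (u₂ / 2) ^ 4 := by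
      have e1 : 0 ≤ u₂ ^ 2 := by positivity
      have e : (u₂ / 2) ^ 4 = u₂ ^ 2 * u₂ ^ 2 / 16 := by ring
      have e0 : 160 ≤ u₂ ^ 2 := by
        calc (160 : ℝ) ≤ 160 ^ 2 := by norm_num
          _ ≤ u₂ ^ 2 := by gcongr
      rw [e, le_div_iff₀ (by norm_num)]
      calc 10 * u₂ ^ 2 * 16 = 160 * u₂ ^ 2 := by ring
        _ ≤ u₂ ^ 2 * u₂ ^ 2 := mul_le_mul_of_nonneg_right e0 e1
    have h3 : L1 = 10 * y := by rw [hy]; ring
    calc L1 * u₂ ^ 2 = y * (10 * u₂ ^ 2) := by rw [h3]; ring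
      _ ≤ y * (Real.log y) ^ 4 := by gcongr; linarith
  have hyy : y₀ ≤ y := by
    have := le_abs_self y₀
    rw [hy]
    linarith
  have hcm := hmed y hyy L hyL hLy
  have hcard : ((NM y L).card : ℝ) ≤ 120 * (F + L1) * (u₃ / u₂) := by
    refine hcm.trans ?_
    have h1 : 60 * (L : ℝ) * Real.log (Real.log y) / Real.log y ≤
        60 * (F + L1) * u₃ / (u₂ / 2) := by
      apply div_le_div₀ (by positivity) _ (by positivity) g11
      gcongr
    refine h1.trans (le_of_eq ?_)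
    field_simp
    ring
  set v : ℕ := ⌊Real.exp (WW y)⌋₊ with hv
  have hvle : (v : ℝ) ≤ Real.exp (WW y) := Nat.floor_le (Real.exp_pos _).le
  -- the size of the smoothness bound
  have hE : u₂ ^ 3 ≤ Real.exp (WW y) := by
    have hlog2 : Real.log 2 ≤ 1 := by have := Real.log_two_lt_d9; linarith
    have hly0 : 0 < Real.log y := by linarith
    have hℓ₂1 : u₃ / 2 ≤ Real.log (Real.log y) := by
      have h1 := Real.log_le_log (by linarith) g11
      rw [Real.log_div hu₂0.ne' (by norm_num)] at h1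
      linarith
    have hℓ₂0 : 0 < Real.log (Real.log y) := by linarith
    have hℓ₃1 : 1 ≤ Real.log (Real.log (Real.log y)) := by
      have h1 := Real.log_le_log (by linarith) hℓ₂1
      rw [Real.log_div hu₃0.ne' (by norm_num)] at h1
      linarith
    have h1 : 3 * u₃ ≤ WW y := by
      unfold WW
      rw [le_div_iff₀ (by positivity)]
      calc 3 * u₃ * (10 * Real.log (Real.log y)) ≤ 3 * u₃ * (10 * u₃) := by gcongr
        _ = 60 * u₃ ^ 2 / 2 := by ring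
        _ ≤ u₂ / 2 := by gcongr
        _ ≤ Real.log y * 1 := by rw [mul_one]; exact g11
        _ ≤ Real.log y * Real.log (Real.log (Real.log y)) := by gcongr
    calc u₂ ^ 3 = Real.exp (3 * u₃) := by
          rw [hu₃, show (3 : ℝ) * Real.log u₂ = Real.log (u₂ ^ 3) by
            rw [Real.log_pow]; norm_num, Real.exp_log (by positivity)]
      _ ≤ _ := Real.exp_le_exp.2 h1
  refine ⟨g1, L, hFL, ?_, ?_⟩
  · have h1 : 2 * (L1 * u₂ ^ 2) + 1 ≤ L1 * u₂ ^ 3 := by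
      have h6 : L1 * u₂ ^ 3 = u₂ * (L1 * u₂ ^ 2) := by ring
      rw [h6]
      have h7 : 1 * 1 ≤ L1 * u₂ ^ 2 :=
        mul_le_mul (by linarith) hu2sq (by norm_num) (by linarith)
      have h9 : 160 * (L1 * u₂ ^ 2) ≤ u₂ * (L1 * u₂ ^ 2) :=
        mul_le_mul_of_nonneg_right g2 (by linarith)
      linarith
    have h7 : L1 * u₂ ^ 3 ≤ L1 * L1 := by gcongr
    have h8 : L1 ^ 2 = L1 * L1 := by ring
    rw [h8]
    linarith
  intro S hSK
  set A : Finset ℤ := Icc (-(L : ℤ)) L with hA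
  set A0 := A.filter (fun a => ∀ p : ℕ, p.Prime → (p : ℝ) ≤ y →
      WW y < Real.log p → p ∉ S → ¬ (p : ℤ) ∣ a) with hA0def
  set S' := S.filter (fun p : ℕ => p.Prime ∧ WW y < Real.log p) with hS'
  have hS'c : S'.card ≤ K := (card_filter_le _ _).trans hSK
  have hA0c : (A0.card : ℝ) ≤ 2 * ((NM y L).card : ℝ) + 1 + c₀ * L1 / 100 := by
    have h1 : A0 ⊆ ((((NM y L).image (fun m : ℕ => (m : ℤ))) ∪
        ((NM y L).image (fun m : ℕ => -(m : ℤ)))) ∪ {0}) ∪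
        S'.biUnion (fun p => A.filter (fun a => (p : ℤ) ∣ a)) := by
      intro a ha
      rw [hA0def, mem_filter] at ha
      obtain ⟨haA, ha2⟩ := ha
      have ha1 := haA
      rw [hA, mem_Icc] at ha1
      rw [mem_union, mem_union, mem_union, mem_image, mem_image, mem_singleton, mem_biUnion]
      by_cases h0 : a = 0
      · left; right; exact h0
      · by_cases h1 : ∃ p ∈ S', (p : ℤ) ∣ a
        · obtain ⟨p, hp, hpa⟩ := h1
          exact Or.inr ⟨p, hp, mem_filter.2 ⟨haA, hpa⟩⟩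
        · left; left
          have hN : a.natAbs ∈ NM y L := by
            rw [NM, mem_filter, mem_Icc]
            refine ⟨⟨by omega, by omega⟩, fun p hp hpa => ?_⟩
            by_contra hcon
            push Not at hcon
            by_cases hpS : p ∈ S
            · exact h1 ⟨p, mem_filter.2 ⟨hpS, hp, hcon.2⟩, Int.natCast_dvd.2 hpa⟩
            · exact ha2 p hp hcon.1 hcon.2 hpS (Int.natCast_dvd.2 hpa)
          rcases le_total 0 a with h | h
          · left; exact ⟨a.natAbs, hN, by omega⟩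
          · right; exact ⟨a.natAbs, hN, by omega⟩
    have h2 : A0.card ≤ (((NM y L).card + (NM y L).card) + 1) +
        ∑ p ∈ S', (A.filter (fun a => (p : ℤ) ∣ a)).card := by
      refine (card_le_card h1).trans ((card_union_le _ _).trans ?_)
      refine add_le_add ((card_union_le _ _).trans ?_) card_biUnion_le
      have e1 := card_union_le ((NM y L).image (fun m : ℕ => (m : ℤ)))
        ((NM y L).image (fun m : ℕ => -(m : ℤ)))
      have e2 : ((NM y L).image (fun m : ℕ => (m : ℤ))).card ≤ (NM y L).card := card_image_le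
      have e3 : ((NM y L).image (fun m : ℕ => -(m : ℤ))).card ≤ (NM y L).card := card_image_le
      rw [card_singleton]
      omega
    have h3 : (A0.card : ℝ) ≤ (((NM y L).card : ℝ) + ((NM y L).card : ℝ)) + 1 +
        ∑ p ∈ S', ((A.filter (fun a => (p : ℤ) ∣ a)).card : ℝ) := by
      exact_mod_cast h2
    have h4 : ∑ p ∈ S', ((A.filter (fun a => (p : ℤ) ∣ a)).card : ℝ) ≤
        K * (2 * L1 / u₂ + 1) := by
      have h5 : ∀ p ∈ S', ((A.filter (fun a => (p : ℤ) ∣ a)).card : ℝ) ≤ 2 * L1 / u₂ + 1 := by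
        intro p hp
        have hp2 := (mem_filter.1 hp).2
        have hp0 : 0 < p := hp2.1.pos
        have hp0r : (0 : ℝ) < p := by exact_mod_cast hp0
        have h6 : u₂ ^ 3 ≤ p := by
          refine hE.trans ?_
          rw [← Real.exp_log hp0r]
          exact Real.exp_le_exp.2 hp2.2.le
        refine (card_mult p L hp0).trans ?_
        have h7 : 2 * (L : ℝ) / p ≤ 2 * L1 / u₂ := by
          calc 2 * (L : ℝ) / p ≤ 2 * (L1 * u₂ ^ 2) / u₂ ^ 3 := by gcongr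
            _ = 2 * L1 / u₂ := by field_simp
        linarith
      calc ∑ p ∈ S', ((A.filter (fun a => (p : ℤ) ∣ a)).card : ℝ) ≤
          ∑ _p ∈ S', (2 * L1 / u₂ + 1) := sum_le_sum h5
        _ = S'.card * (2 * L1 / u₂ + 1) := by rw [sum_const, nsmul_eq_mul]
        _ ≤ _ := by
          have h8 : (S'.card : ℝ) ≤ K := by exact_mod_cast hS'c
          have h9 : 0 ≤ 2 * L1 / u₂ + 1 := by positivity
          exact mul_le_mul_of_nonneg_right h8 h9
    have h5 : (K : ℝ) * (2 * L1 / u₂ + 1) ≤ c₀ * L1 / 100 := by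
      have h6 : (K : ℝ) * (2 * L1 / u₂) ≤ c₀ * L1 / 200 := by
        rw [← mul_div_assoc, div_le_iff₀ hu₂0]
        have hL1p : 0 ≤ L1 := by linarith
        nlinarith [mul_le_mul_of_nonneg_right hK1 hL1p]
      have h7 : (K : ℝ) ≤ c₀ * L1 / 400 := by linarith
      have h8 : 0 ≤ c₀ * L1 := by positivity
      linarith
    linarith
  obtain ⟨b, hb⟩ := presieve ((Pz v).filter (fun p => p ∉ S))
    (fun p hp => (mem_Pz.1 (mem_filter.1 hp).1).1) A0
  have hprod := prod_drop K v S hSK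
  have hprod1 : ∏ p ∈ (Pz v).filter (fun p => p ∉ S), (1 - 1 / (p : ℝ)) ≤ 1 := by
    apply Finset.prod_le_one
    · intro p hp
      exact (one_sub_inv_pos (mem_Pz.1 (mem_filter.1 hp).1).1).le
    · intro p _
      have h7 : 0 ≤ 1 / (p : ℝ) := by positivity
      linarith
  refine ⟨fun p => if Real.log p ≤ WW y then b p else 0, ?_⟩
  set b' : ℕ → ℕ := fun p => if Real.log p ≤ WW y then b p else 0 with hb'
  have h1 : (A.filter (fun a => ∀ p : ℕ, p.Prime → (p : ℝ) ≤ y → p ∉ S →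
      ¬ (p : ℤ) ∣ (b' p : ℤ) + a)) ⊆
      A0.filter (fun a => ∀ p ∈ (Pz v).filter (fun p => p ∉ S),
        ¬ (p : ℤ) ∣ (b p : ℤ) + a) := by
    intro a ha
    rw [mem_filter] at ha
    obtain ⟨haA, hsur⟩ := ha
    rw [mem_filter, hA0def, mem_filter]
    refine ⟨⟨haA, ?_⟩, ?_⟩
    · intro p hp hpy hpW hpS hpa
      apply hsur p hp hpy hpS
      have h4 : b' p = 0 := by
        rw [hb']
        simp only [not_le.2 hpW, if_false]
      rw [h4]
      simpa using hpa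
    · intro p hp
      rw [mem_filter, mem_Pz] at hp
      obtain ⟨⟨hpp, hpv⟩, hpQ⟩ := hp
      have hp0 : (0 : ℝ) < p := by exact_mod_cast hpp.pos
      have h2 : (p : ℝ) ≤ Real.exp (WW y) := le_trans (by exact_mod_cast hpv) hvle
      have h3 : Real.log p ≤ WW y := by rwa [Real.log_le_iff_le_exp hp0]
      have h4 : (p : ℝ) ≤ y := by
        refine h2.trans ?_
        calc Real.exp (WW y) ≤ Real.exp (Real.log y) := Real.exp_le_exp.2 g10
          _ = y := Real.exp_log hy0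
      have h5 := hsur p hpp h4 hpQ
      have h6 : b' p = b p := by
        rw [hb']
        simp only [h3, if_true]
      rw [h6] at h5
      exact h5
  have h2 : (((A.filter (fun a => ∀ p : ℕ, p.Prime → (p : ℝ) ≤ y → p ∉ S →
      ¬ (p : ℤ) ∣ (b' p : ℤ) + a)).card : ℕ) : ℝ) ≤
      ((A0.filter (fun a => ∀ p ∈ (Pz v).filter (fun p => p ∉ S),
        ¬ (p : ℤ) ∣ (b p : ℤ) + a)).card : ℝ) := by
    exact_mod_cast card_le_card h1
  refine h2.trans (hb.trans ?_)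
  obtain ⟨W₂, hW₂⟩ : ∃ W₂ : ℝ, W₂ = ∏ p ∈ (Pz v).filter (fun p => p ∉ S), (1 - 1 / (p : ℝ)) :=
    ⟨_, rfl⟩
  have hW0 : 0 ≤ W₂ := by
    rw [hW₂]
    exact prod_nonneg fun p hp =>
      (one_sub_inv_pos (mem_Pz.1 (mem_filter.1 hp).1).1).le
  rw [← hW₂] at hprod hprod1 ⊢
  have hWρ : W₂ ≤ 2 ^ K * (c₂ * u₃ / (u₂ * u₄)) := by
    refine hprod.trans ?_
    gcongr
  have hmain : F * (u₃ / u₂) * W₂ ≤ c' * (2 ^ K * c₂) * L1 := by
    calc F * (u₃ / u₂) * W₂ = c' * FF 1 X * (u₃ / u₂) * W₂ := by rw [hF]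
      _ ≤ c' * FF 1 X * (u₃ / u₂) * (2 ^ K * (c₂ * u₃ / (u₂ * u₄))) := by gcongr
      _ = c' * (2 ^ K * c₂) * L1 := by
        rw [hFF]
        field_simp
  have hcc : c' * (2 ^ K * c₂) ≤ c₀ / 1000 := by
    calc c' * (2 ^ K * c₂) ≤ c₀ / (1000 * c₂ * 2 ^ K) * (2 ^ K * c₂) := by gcongr
      _ = _ := by field_simp
  have hsec : L1 * (u₃ / u₂) * W₂ ≤ L1 * (c₀ / 1000) := by
    calc L1 * (u₃ / u₂) * W₂ ≤ L1 * (c₀ / 1000) * 1 := by gcongr
      _ = _ := mul_one _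
  have hone : 1 ≤ c₀ / 100 * L1 := by
    have h5 : 1000 / c₀ ≤ L1 := by linarith
    rw [div_le_iff₀ hc₀] at h5
    linarith
  have h3 : (A0.card : ℝ) * W₂ ≤ (240 * (F + L1) * (u₃ / u₂) + 1 + c₀ * L1 / 100) * W₂ := by
    apply mul_le_mul_of_nonneg_right _ hW0
    linarith
  have h4 : (240 * (F + L1) * (u₃ / u₂) + 1 + c₀ * L1 / 100) * W₂ =
      240 * (F * (u₃ / u₂) * W₂) + 240 * (L1 * (u₃ / u₂) * W₂) + W₂ + c₀ * L1 / 100 * W₂ := by ring
  have h5 : c' * (2 ^ K * c₂) * L1 ≤ c₀ / 1000 * L1 := by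
    apply mul_le_mul_of_nonneg_right hcc (by linarith)
  have h6 : 0 < c₀ * L1 := by positivity
  have h7 : c₀ * L1 / 100 * W₂ ≤ c₀ * L1 / 100 * 1 :=
    mul_le_mul_of_nonneg_left hprod1 (by positivity)
  calc (A0.card : ℝ) * W₂ ≤ 240 * (F * (u₃ / u₂) * W₂) + 240 * (L1 * (u₃ / u₂) * W₂) + W₂ +
        c₀ * L1 / 100 * W₂ := by
        rw [← h4]; exact h3
    _ ≤ c₀ * L1 := by
        have e3 : L1 * (c₀ / 1000) = c₀ * L1 / 1000 := by ring
        have e4 : c₀ / 1000 * L1 = c₀ * L1 / 1000 := by ring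
        have e5 : c₀ / 100 * L1 = c₀ * L1 / 100 := by ring
        linarith

end Pool.Agent.H602SS
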