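import Pool.Agent.H602SS.Spec
import Pool.Agent.H602SS.Surv

set_option autoImplicit false

/-!
# Small lemmas for the assembly
-/

namespace Pool.Agent.H602SS

open Finset Filter

open scoped Classical

lemma primorial_le {X : ℝ} (hX : 1 ≤ X) :
    (primorial ⌊Real.log X / 10⌋₊ : ℝ) ≤ X ^ (3 / 20 : ℝ) := by
  have h0 : 0 ≤ Real.log X := Real.log_nonneg hX
  have h1 : (primorial ⌊Real.log X / 10⌋₊ : ℝ) ≤ (4 : ℝ) ^ ⌊Real.log X / 10⌋₊ := by
    exact_mod_cast primorial_le_four_pow _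
  refine h1.trans ?_
  rw [← Real.rpow_natCast]
  have h2 : (4 : ℝ) ^ ((⌊Real.log X / 10⌋₊ : ℕ) : ℝ) ≤ (4 : ℝ) ^ (Real.log X / 10) :=
    Real.rpow_le_rpow_of_exponent_le (by norm_num) (Nat.floor_le (by positivity))
  refine h2.trans ?_
  rw [Real.rpow_def_of_pos (by norm_num : (0 : ℝ) < 4),
    Real.rpow_def_of_pos (by linarith : (0 : ℝ) < X)]
  apply Real.exp_le_exp.2
  have h3 : Real.log 4 ≤ 3 / 2 := by
    have : Real.log 4 = 2 * Real.log 2 := by
      rw [show (4 : ℝ) = 2 ^ (2 : ℕ) by norm_num, Real.log_pow]; norm_num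
    have := Real.log_two_lt_d9
    linarith
  nlinarith

/-- counting in the progression `n + D j`, `1 ≤ j ≤ J` -/
lemma count_ap (n : ℤ) (D J q : ℕ) (hq : 0 < q) (hc : Nat.Coprime q D) (r : ℤ) :
    |((((Ioc (0 : ℤ) J).filter (fun j => (q : ℤ) ∣ (n + D * j) - r)).card : ℕ) : ℝ) -
      (J : ℝ) / q| ≤ 1 := by
  obtain ⟨u, w, huw⟩ := Nat.isCoprime_iff_coprime.2 hc
  have h1 : (Ioc (0 : ℤ) J).filter (fun j => (q : ℤ) ∣ (n + D * j) - r) =
      (Ioc (0 : ℤ) J).filter (fun j => (q : ℤ) ∣ j - w * (r - n)) := by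
    refine filter_congr fun j _ => ?_
    constructor
    · rintro ⟨k, hk⟩
      refine ⟨w * k + u * j, ?_⟩
      have h2 : (n + D * j) - r = q * k := hk
      have h3 : (D : ℤ) * j - (r - n) = q * k := by linarith
      calc j - w * (r - n) = (u * q + w * D) * j - w * (r - n) := by rw [huw, one_mul]
        _ = u * q * j + w * (D * j - (r - n)) := by ring
        _ = u * q * j + w * (q * k) := by rw [h3]
        _ = q * (w * k + u * j) := by ring
    · rintro ⟨k, hk⟩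
      refine ⟨D * k - u * (r - n), ?_⟩
      calc (n + D * j) - r = D * (j - w * (r - n)) - (1 - w * D) * (r - n) := by ring
        _ = D * (q * k) - ((u * q + w * D) - w * D) * (r - n) := by rw [hk, huw]
        _ = q * (D * k - u * (r - n)) := by ring
  rw [h1]
  have h2 := Pool.Agent.H256R2.SC.LG.count_Ioc 0 (J : ℤ) (Int.natCast_nonneg _) q hq (w * (r - n))
  have h3 : (((J : ℤ) : ℝ) - ((0 : ℤ) : ℝ)) / q = (J : ℝ) / q := by push_cast; ring
  rw [h3] at h2
  exact h2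

lemma reps_le_of (A B C A' B' C' : Finset ℤ) (x y z k : ℤ) (hA : ∀ a ∈ A', a + x ∈ A)
    (hB : ∀ b ∈ B', b + y ∈ B) (hC : ∀ c ∈ C', c + z ∈ C) :
    reps A' B' C' k ≤ reps A B C (k + (x + y + z)) := by
  unfold reps
  refine card_le_card_of_injOn (fun t => (t.1 + x, t.2.1 + y, t.2.2 + z)) ?_ ?_
  · intro t ht
    have h1 := mem_filter.1 ht
    rw [mem_product, mem_product] at h1
    obtain ⟨⟨h2, h3, h4⟩, h5⟩ := h1
    refine mem_coe.2 (mem_filter.2 ⟨mem_product.2 ⟨hA _ h2, mem_product.2 ⟨hB _ h3, hC _ h4⟩⟩, ?_⟩)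
    simp only
    linarith
  · intro t _ t' _ h
    simp only [Prod.mk.injEq, add_left_inj] at h
    exact Prod.ext h.1 (Prod.ext h.2.1 h.2.2)

/-- counting in the fibres -/
lemma fibres (𝒩 : Finset ℤ) (J : ℕ) (s D : ℤ) (jj : ℤ → ℕ) (h : ∀ n ∈ 𝒩, 1 ≤ jj n ∧ jj n ≤ J) :
    𝒩.card ≤ J * (𝒩.image (fun n => n + s + D * (jj n : ℤ))).card := by
  refine card_le_mul_card_image 𝒩 J ?_
  intro b _
  have h1 : (𝒩.filter (fun n => n + s + D * (jj n : ℤ) = b)).card ≤ (Icc 1 J).card := by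
    refine card_le_card_of_injOn jj ?_ ?_
    · intro n hn
      exact mem_coe.2 (mem_Icc.2 (h n (mem_filter.1 (mem_coe.1 hn)).1))
    · intro n hn n' hn' e
      have e1 := (mem_filter.1 (mem_coe.1 hn)).2
      have e2 := (mem_filter.1 (mem_coe.1 hn')).2
      have e3 : jj n = jj n' := e
      rw [e3] at e1
      linarith
  rwa [Nat.card_Icc, Nat.add_sub_cancel] at h1

lemma ev_count (θ ε c : ℝ) (hc : 0 < c) (hε : 0 < ε) (hθ : θ ≤ ε / 4) :
    ∀ᶠ M : ℝ in atTop, M ^ (1 - ε) * (M ^ θ * M ^ θ) * Real.log M ≤ c * M := by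
  have h1 := (isLittleO_log_rpow_atTop (show (0 : ℝ) < ε / 2 by positivity)).def hc
  filter_upwards [h1, eventually_ge_atTop (1 : ℝ)] with M hM hM1
  have hM0 : 0 < M := by linarith
  have hl := Real.log_nonneg hM1
  rw [Real.norm_eq_abs, abs_of_nonneg hl, Real.norm_eq_abs,
    abs_of_nonneg (Real.rpow_nonneg hM0.le _)] at hM
  have h2 : M ^ (1 - ε) * (M ^ θ * M ^ θ) ≤ M ^ (1 - ε / 2) := by
    rw [← Real.rpow_add hM0, ← Real.rpow_add hM0]
    exact Real.rpow_le_rpow_of_exponent_le hM1 (by linarith)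
  calc M ^ (1 - ε) * (M ^ θ * M ^ θ) * Real.log M ≤ M ^ (1 - ε / 2) * (c * M ^ (ε / 2)) := by
        gcongr
    _ = c * (M ^ (1 - ε / 2) * M ^ (ε / 2)) := by ring
    _ = c * M := by
        rw [← Real.rpow_add hM0, sub_add_cancel, Real.rpow_one]

end Pool.Agent.H602SS
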