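import Pool.Agent.H602SS.SpecE
import Pool.Agent.H602SS.Good
import Pool.Agent.H602SS.Tools
import Pool.Agent.W147.PS.Scale

set_option autoImplicit false
set_option maxHeartbeats 4000000

/-!
# Long runs of integers divisible by `k`-th powers of primes around popular sums of three dense sets
-/

namespace Pool.Agent.H602SS

open Finset Filter
open Pool.Agent.W147.PS (ev_pow)

open scoped Classical

/-- the class which makes a run of `2 L + 1` integers divisible by the `k`-th powers of distinct primes -/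
lemma run_class (k L : ℕ) (U : Finset ℕ) (hU : ∀ p ∈ U, p.Prime) (hL : 2 * L + 1 ≤ U.card) :
    ∃ r : ℤ, ∀ i : ℤ, -(L : ℤ) ≤ i → i ≤ L → ∃ p ∈ U, ((p ^ k : ℕ) : ℤ) ∣ r + i := by
  obtain ⟨f, hf⟩ : ∃ f : Fin (2 * L + 1) ↪o ℕ, ∀ j, f j ∈ U :=
    ⟨U.orderEmbOfCardLe hL, fun j => U.orderEmbOfCardLe_mem hL j⟩
  obtain ⟨r, hr⟩ := Nat.chineseRemainderOfFinset
    (fun j : Fin (2 * L + 1) => ((((L : ℤ) - (j : ℕ)) % ((f j ^ k : ℕ) : ℤ)).toNat))
    (fun j => f j ^ k) univ (fun j _ => (pow_pos (hU _ (hf j)).pos k).ne') (by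
      intro j _ j' _ hjj
      refine Nat.Coprime.pow k k ?_
      rw [Nat.coprime_primes (hU _ (hf j)) (hU _ (hf j'))]
      exact fun e => hjj (f.injective e))
  refine ⟨(r : ℤ), fun i h1 h2 => ?_⟩
  have hj : (i + L).toNat < 2 * L + 1 := by omega
  refine ⟨f ⟨(i + L).toNat, hj⟩, hf _, ?_⟩
  have h3 := hr ⟨(i + L).toNat, hj⟩ (mem_univ _)
  obtain ⟨s, hs⟩ : ∃ s : ℕ, s = f ⟨(i + L).toNat, hj⟩ ^ k := ⟨_, rfl⟩
  simp only [← hs] at h3 ⊢
  have hs0 : (s : ℤ) ≠ 0 := by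
    rw [hs]
    exact_mod_cast (pow_pos (hU _ (hf _)).pos k).ne'
  have h4 := (Nat.modEq_iff_dvd.1 h3)
  have h5 : (((L : ℤ) - ((i + L).toNat : ℕ)) % (s : ℤ)).toNat = (-i) % (s : ℤ) := by
    rw [Int.toNat_of_nonneg (Int.emod_nonneg _ hs0)]
    congr 1
    omega
  rw [h5] at h4
  have h6 : (r : ℤ) + i = -((-i) % (s : ℤ) - r) - (s : ℤ) * ((-i) / (s : ℤ)) := by
    rw [Int.emod_def]
    ring
  rw [h6]
  exact dvd_sub ((dvd_neg).2 h4) (dvd_mul_right _ _)

theorem pfree (k : ℕ) (hk : 1 ≤ k) (δ ε : ℝ) (hδ : 0 < δ) (hε : 0 < ε) (hε1 : ε ≤ 1) :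
    ∃ c : ℝ, 0 < c ∧
    ∃ N₀ : ℕ, ∀ N : ℕ, N₀ ≤ N → ∀ A B C : Finset ℤ, Dense δ N A → Dense δ N B → Dense δ N C →
    ∃ 𝒮 : Finset ℤ, (N : ℝ) ^ (1 - ε) ≤ 𝒮.card ∧ ∀ n ∈ 𝒮,
      c * (A.card * B.card * C.card / N) ≤ reps A B C n ∧
      ∀ m : ℤ, |(m : ℝ) - n| ≤ ε / (64 * k) * (Real.log N / Real.log (Real.log N)) →
        ∃ p : ℕ, p.Prime ∧ (p : ℝ) ≤ Real.log N ∧ ((p : ℤ) ^ k) ∣ m := by
  obtain ⟨CR, hCR, N₁, hgood⟩ := good δ hδ
  have hCR0 : 0 < CR := by linarith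
  obtain ⟨K, ρ, hρ, hspec⟩ := specE k (δ / 2) CR (by positivity) hCR
  have hk0 : (0 : ℝ) < k := by exact_mod_cast hk
  have hk1 : (1 : ℝ) ≤ k := by exact_mod_cast hk
  have tlog := Real.tendsto_log_atTop
  have tlog2 : Tendsto (fun M : ℝ => Real.log (Real.log M)) atTop atTop := tlog.comp tlog
  have hev : ∀ᶠ M : ℝ in atTop, 1 ≤ M ∧ 1 ≤ Real.log M ∧ 1 ≤ Real.log (Real.log M) ∧
      64 * k / ε ≤ Real.log M ∧
      (64 * (K + 2) * k / ε) * Real.log (Real.log M) ≤ Real.log M ∧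
      4 * CR ^ 2 * Real.log M ≤ (δ / 2) ^ 3 * M ^ (ε / 2) := by
    have h1 := (Real.isLittleO_log_id_atTop.comp_tendsto tlog).def
      (show (0 : ℝ) < 1 / (64 * (K + 2) * k / ε) by positivity)
    have h2 := (isLittleO_log_rpow_atTop (show (0 : ℝ) < ε / 2 by positivity)).def
      (show (0 : ℝ) < (δ / 2) ^ 3 / (4 * CR ^ 2) by positivity)
    filter_upwards [eventually_ge_atTop (1 : ℝ), tlog.eventually_ge_atTop 1,
      tlog2.eventually_ge_atTop 1, tlog.eventually_ge_atTop (64 * k / ε), h1, h2]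
      with M a1 a2 a3 a4 a5 a6
    refine ⟨a1, a2, a3, a4, ?_, ?_⟩
    · simp only [Function.comp, id, Real.norm_eq_abs] at a5
      rw [abs_of_nonneg (by linarith), abs_of_nonneg (by linarith)] at a5
      have h3 : 0 < 64 * ((K : ℝ) + 2) * k / ε := by positivity
      rw [div_mul_eq_mul_div, one_mul, le_div_iff₀ h3] at a5
      linarith
    · rw [Real.norm_eq_abs, abs_of_nonneg (by linarith), Real.norm_eq_abs,
        abs_of_nonneg (Real.rpow_nonneg (by linarith) _), div_mul_eq_mul_div,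
        le_div_iff₀ (by positivity)] at a6
      linarith
  have tN : Tendsto (fun N : ℕ => (N : ℝ)) atTop atTop := tendsto_natCast_atTop_atTop
  -- the number of primes
  have hevn : ∀ᶠ n : ℕ in atTop, (n : ℝ) / 2 ≤ n * Real.log 2 - Real.log ((n : ℝ) + 1) := by
    have h1 := (Real.isLittleO_log_id_atTop).def (show (0 : ℝ) < 1 / 12 by norm_num)
    have t1 : Tendsto (fun n : ℕ => (n : ℝ) + 1) atTop atTop :=
      tendsto_atTop_add_const_right _ _ tN
    filter_upwards [t1.eventually h1, eventually_ge_atTop 1] with n hn hn1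
    have h2 : (1 : ℝ) ≤ n := by exact_mod_cast hn1
    simp only [id, Real.norm_eq_abs] at hn
    rw [abs_of_nonneg (Real.log_nonneg (by linarith)), abs_of_nonneg (by linarith)] at hn
    have h3 := Real.log_two_gt_d9
    have h4 : (n : ℝ) * 0.6931 ≤ n * Real.log 2 := by gcongr; linarith
    linarith
  obtain ⟨y₀, hy₀⟩ := eventually_atTop.1 hevn
  have hev2 : ∀ᶠ M : ℝ in atTop, (y₀ : ℝ) + 3 ≤ ε * Real.log M / (8 * k) := by
    filter_upwards [tlog.eventually_ge_atTop (((y₀ : ℝ) + 3) * (8 * k) / ε)] with M hM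
    rw [le_div_iff₀ (by positivity)]
    rw [div_le_iff₀ hε] at hM
    linarith
  obtain ⟨N₂, hN₂⟩ := eventually_atTop.1 (tN.eventually (hev.and hev2))
  refine ⟨(δ / 2) ^ 3 / (72 * (8 * CR ^ 3)), by positivity, max N₁ N₂, ?_⟩
  intro N hN A B C hA hB hC
  obtain ⟨⟨b1, b2, b3, b4, b5, b6⟩, b7⟩ := hN₂ N ((le_max_right _ _).trans hN)
  obtain ⟨hlog, hgd⟩ := hgood N ((le_max_left _ _).trans hN)
  have hN1 : 1 ≤ N := by exact_mod_cast b1
  have hNr0 : (0 : ℝ) < N := by linarith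
  have hw0 : 0 < (N : ℝ) / Real.log N := by positivity
  obtain ⟨x, wA, A', hwA, hA', hAx, hA2, hAd, hAR⟩ := hgd A hA
  obtain ⟨y, wB, B', hwB, hB', hBy, hB2, hBd, hBR⟩ := hgd B hB
  obtain ⟨z, wC, C', hwC, hC', hCz, hC2, hCd, hCRR⟩ := hgd C hC
  have hwA0 : 0 < wA := lt_of_lt_of_le hw0 hwA
  have hwB0 : 0 < wB := lt_of_lt_of_le hw0 hwB
  have hwC0 : 0 < wC := lt_of_lt_of_le hw0 hwC
  obtain ⟨l, hl⟩ : ∃ l : ℝ, l = Real.log N := ⟨_, rfl⟩
  obtain ⟨Y, hY⟩ : ∃ Y : ℕ, Y = ⌊ε * l / (4 * k)⌋₊ := ⟨_, rfl⟩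
  rw [← hl] at b2 b3 b4 b5 b7
  have hl0 : 0 < l := by linarith
  have hYle : (Y : ℝ) ≤ ε * l / (4 * k) := by rw [hY]; exact Nat.floor_le (by positivity)
  have hYge : ε * l / (8 * k) ≤ Y := by
    have h1 := Nat.lt_floor_add_one (ε * l / (4 * k))
    rw [← hY] at h1
    have h2 : ε * l / (4 * k) = 2 * (ε * l / (8 * k)) := by
      field_simp
      ring
    rw [h2] at h1
    have : (0 : ℝ) ≤ y₀ := Nat.cast_nonneg _
    linarith
  have hYl : (Y : ℝ) ≤ l := by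
    refine hYle.trans ?_
    rw [div_le_iff₀ (by positivity)]
    nlinarith
  have hYy : y₀ ≤ Y := by
    have : (y₀ : ℝ) ≤ Y := by linarith
    exact_mod_cast this
  have hY3 : (3 : ℝ) ≤ Y := by
    have : (0 : ℝ) ≤ y₀ := Nat.cast_nonneg _
    linarith
  -- the primes up to `Y`
  obtain ⟨T, hT⟩ : ∃ T : Finset ℕ, T = (Finset.range (Y + 1)).filter Nat.Prime := ⟨_, rfl⟩
  have hTp : ∀ p ∈ T, p.Prime := fun p hp => by rw [hT] at hp; exact (mem_filter.1 hp).2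
  have hTY : ∀ p ∈ T, p ≤ Y := fun p hp => by
    rw [hT] at hp
    have := mem_range.1 (mem_filter.1 hp).1
    omega
  have hPk : ((∏ p ∈ T, p ^ k : ℕ) : ℝ) ≤ (N : ℝ) ^ (ε / 2) := by
    have h1 : ∏ p ∈ T, p ^ k = primorial Y ^ k := by
      rw [prod_pow, hT]
      rfl
    rw [h1]
    have h2 : (primorial Y : ℝ) ≤ (4 : ℝ) ^ Y := by exact_mod_cast primorial_le_four_pow Y
    have h3 : ((primorial Y ^ k : ℕ) : ℝ) ≤ ((4 : ℝ) ^ Y) ^ k := by
      push_cast
      gcongr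
    refine h3.trans ?_
    rw [← pow_mul, ← Real.rpow_natCast, Real.rpow_def_of_pos (by norm_num : (0 : ℝ) < 4),
      Real.rpow_def_of_pos hNr0]
    apply Real.exp_le_exp.2
    have h4 : Real.log 4 ≤ 3 / 2 := by
      have : Real.log 4 = 2 * Real.log 2 := by
        rw [show (4 : ℝ) = 2 ^ (2 : ℕ) by norm_num, Real.log_pow]; norm_num
      have := Real.log_two_lt_d9
      linarith
    have h5 : (Y : ℝ) * k ≤ ε * l / 4 := by
      calc (Y : ℝ) * k ≤ ε * l / (4 * k) * k := by gcongr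
        _ = ε * l / 4 := by field_simp
    have h6 : 0 ≤ (Y : ℝ) * k := by positivity
    rw [← hl]
    push_cast
    calc Real.log 4 * ((Y : ℝ) * k) ≤ 3 / 2 * (ε * l / 4) := by gcongr
      _ ≤ l * (ε / 2) := by nlinarith [mul_pos hε hl0]
  have hNε : (N : ℝ) ^ (ε / 2) ≤ N := by
    calc (N : ℝ) ^ (ε / 2) ≤ (N : ℝ) ^ (1 : ℝ) :=
          Real.rpow_le_rpow_of_exponent_le b1 (by linarith)
      _ = N := Real.rpow_one _
  have hPN : ∏ p ∈ T, p ^ k ≤ N := by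
    have : ((∏ p ∈ T, p ^ k : ℕ) : ℝ) ≤ N := hPk.trans hNε
    exact_mod_cast this
  obtain ⟨S, hST, hSK, hS⟩ := hspec N hN1 T hTp hPN A' B' C' hA' hB' hC' wA wB wC hwA0 hwB0 hwC0
    hAd hBd hCd (fun M h8 h9 => ⟨hAR M h8 h9, hBR M h8 h9, hCRR M h8 h9⟩)
  -- the run
  obtain ⟨L, hL⟩ : ∃ L : ℕ, L = ⌊ε / (64 * k) * (l / Real.log l)⌋₊ := ⟨_, rfl⟩
  have hlogl : 0 < Real.log l := by linarith
  have hLle : (L : ℝ) ≤ ε / (64 * k) * (l / Real.log l) := by
    rw [hL]; exact Nat.floor_le (by positivity)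
  have hTc : l / Real.log l * (ε / (16 * k)) ≤ T.card := by
    have h1 : T.card = Nat.primeCounting Y := by
      rw [hT, Nat.primeCounting, Nat.primeCounting', Nat.count_eq_card_filter_range]
    rw [h1]
    refine le_trans ?_ (Chebyshev.pi_ge Y)
    have h2 := hy₀ Y hYy
    have h3 : Real.log Y ≤ Real.log l := Real.log_le_log (by linarith) hYl
    have h4 : 0 < Real.log Y := Real.log_pos (by linarith)
    calc l / Real.log l * (ε / (16 * k)) = (ε * l / (8 * k)) / 2 / Real.log l := by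
          field_simp
          ring
      _ ≤ (Y : ℝ) / 2 / Real.log l := by gcongr
      _ ≤ (Y : ℝ) / 2 / Real.log Y := by gcongr
      _ ≤ (Y * Real.log 2 - Real.log ((Y : ℝ) + 1)) / Real.log Y := by gcongr
  have hLS : 2 * L + 1 ≤ (T \ S).card := by
    have h1 : T.card ≤ (T \ S).card + K := by
      have := card_sdiff_add_card_eq_card hST
      omega
    have h2 : (T.card : ℝ) ≤ (T \ S).card + K := by exact_mod_cast h1
    have h3 : (K : ℝ) + 2 ≤ l / Real.log l * (ε / (64 * k)) := by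
      have h4 : (64 * ((K : ℝ) + 2) * k / ε) ≤ l / Real.log l := by
        rw [le_div_iff₀ hlogl]
        exact b5
      calc (K : ℝ) + 2 = (64 * ((K : ℝ) + 2) * k / ε) * (ε / (64 * k)) := by
            field_simp
        _ ≤ _ := by gcongr
    have h5 : l / Real.log l * (ε / (16 * k)) = 4 * (l / Real.log l * (ε / (64 * k))) := by
      field_simp
      ring
    have h6 : ε / (64 * k) * (l / Real.log l) = l / Real.log l * (ε / (64 * k)) := mul_comm _ _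
    have h7 : (2 * L + 1 : ℝ) ≤ (T \ S).card := by
      rw [h6] at hLle
      linarith
    exact_mod_cast h7
  obtain ⟨r, hr⟩ := run_class k L (T \ S) (fun p hp => hTp p (mem_sdiff.1 hp).1) hLS
  obtain ⟨d, hd1, hdQ, 𝒩, h𝒩, hcard, hrep⟩ := hS (r - (x + y + z)) 1 le_rfl
  obtain ⟨P', hP'⟩ : ∃ P' : ℕ, P' = ∏ p ∈ T \ S, p ^ k := ⟨_, rfl⟩
  rw [← hP'] at h𝒩 hcard hrep
  have hP'X : (P' : ℝ) ≤ (N : ℝ) ^ (ε / 2) := by
    have h1 : P' ≤ ∏ p ∈ T, p ^ k := by
      rw [hP']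
      refine Finset.prod_le_prod_of_subset_of_one_le' sdiff_subset fun p hp _ => ?_
      exact Nat.one_le_pow _ _ (hTp p hp).pos
    have h2 : (P' : ℝ) ≤ ((∏ p ∈ T, p ^ k : ℕ) : ℝ) := by exact_mod_cast h1
    linarith
  refine ⟨𝒩.image (fun n => n + (x + y + z)), ?_, ?_⟩
  · rw [card_image_of_injective _ (add_left_injective _)]
    have h2 : (δ / 2) ^ 3 * (N / Real.log N) ≤ 4 * CR ^ 2 * (N : ℝ) ^ (ε / 2) * 𝒩.card := by
      calc (δ / 2) ^ 3 * (N / Real.log N) ≤ (δ / 2) ^ 3 * wC := by gcongr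
        _ ≤ 4 * CR ^ 2 * P' * 𝒩.card := by exact_mod_cast hcard
        _ ≤ _ := by gcongr
    have h3 : 4 * CR ^ 2 * (N : ℝ) ^ (ε / 2) * (N : ℝ) ^ (1 - ε) ≤
        (δ / 2) ^ 3 * (N / Real.log N) := by
      rw [← mul_div_assoc, le_div_iff₀ (by linarith)]
      have h4 : (N : ℝ) = (N : ℝ) ^ (ε / 2) * ((N : ℝ) ^ (ε / 2) * (N : ℝ) ^ (1 - ε)) := by
        rw [← Real.rpow_add hNr0, ← Real.rpow_add hNr0]
        conv_lhs => rw [← Real.rpow_one (N : ℝ)]
        congr 1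
        ring
      have h5 : 0 ≤ (N : ℝ) ^ (ε / 2) * (N : ℝ) ^ (1 - ε) := by positivity
      calc 4 * CR ^ 2 * (N : ℝ) ^ (ε / 2) * (N : ℝ) ^ (1 - ε) * Real.log N =
          (4 * CR ^ 2 * Real.log N) * ((N : ℝ) ^ (ε / 2) * (N : ℝ) ^ (1 - ε)) := by ring
        _ ≤ ((δ / 2) ^ 3 * (N : ℝ) ^ (ε / 2)) * ((N : ℝ) ^ (ε / 2) * (N : ℝ) ^ (1 - ε)) := by
          gcongr
        _ = (δ / 2) ^ 3 * ((N : ℝ) ^ (ε / 2) * ((N : ℝ) ^ (ε / 2) * (N : ℝ) ^ (1 - ε))) := by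
          ring
        _ = (δ / 2) ^ 3 * N := by rw [← h4]
    have h6 := h3.trans h2
    exact le_of_mul_le_mul_left h6 (by positivity)
  · intro n hn
    rw [mem_image] at hn
    obtain ⟨n₀, hn₀, rfl⟩ := hn
    constructor
    · have h1 := hrep n₀ hn₀ 0 (by simp; positivity) (by simp)
      have h2 := reps_le_of A B C A' B' C' x y z (n₀ + ((P' * d * 0 : ℕ) : ℤ)) hAx hBy hCz
      have h3 : n₀ + ((P' * d * 0 : ℕ) : ℤ) + (x + y + z) = n₀ + (x + y + z) := by simp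
      rw [h3] at h2
      have h4 : ((reps A' B' C' (n₀ + ((P' * d * 0 : ℕ) : ℤ)) : ℕ) : ℝ) ≤
          reps A B C (n₀ + (x + y + z)) := by exact_mod_cast h2
      refine le_trans ?_ (h1.trans h4)
      have hcA : (A.card : ℝ) ≤ 2 * (CR * wA) := by
        have := (hAR (9 * N) (by omega) le_rfl).card hwA0 hCR (by omega)
        linarith
      have hcB : (B.card : ℝ) ≤ 2 * (CR * wB) := by
        have := (hBR (9 * N) (by omega) le_rfl).card hwB0 hCR (by omega)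
        linarith
      have hcC : (C.card : ℝ) ≤ 2 * (CR * wC) := by
        have := (hCRR (9 * N) (by omega) le_rfl).card hwC0 hCR (by omega)
        linarith
      have h5 : (A.card : ℝ) * B.card * C.card ≤ 2 * (CR * wA) * (2 * (CR * wB)) *
          (2 * (CR * wC)) := by gcongr
      calc (δ / 2) ^ 3 / (72 * (8 * CR ^ 3)) * ((A.card : ℝ) * B.card * C.card / N) ≤
          (δ / 2) ^ 3 / (72 * (8 * CR ^ 3)) * (2 * (CR * wA) * (2 * (CR * wB)) *
            (2 * (CR * wC)) / N) := by gcongr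
        _ = (δ / 2) ^ 3 * (wA * wB * wC) / (72 * N) := by
          field_simp
          ring
    · intro m hm
      obtain ⟨i, hi⟩ : ∃ i : ℤ, i = m - (n₀ + (x + y + z)) := ⟨_, rfl⟩
      have hiL : (i.natAbs : ℝ) ≤ ε / (64 * k) * (l / Real.log l) := by
        rw [Nat.cast_natAbs, hi, hl]
        push_cast
        push_cast at hm
        exact hm
      have hiL2 : i.natAbs ≤ L := by rw [hL]; exact Nat.le_floor hiL
      obtain ⟨p, hp, hpd⟩ := hr i (by omega) (by omega)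
      refine ⟨p, hTp p (mem_sdiff.1 hp).1, ?_, ?_⟩
      · have h1 : (p : ℝ) ≤ Y := by exact_mod_cast hTY p (mem_sdiff.1 hp).1
        rw [← hl]
        linarith
      · have h1 : ((p ^ k : ℕ) : ℤ) ∣ (P' : ℤ) := by
          rw [hP']
          exact_mod_cast Finset.dvd_prod_of_mem (fun p => p ^ k) hp
        have h2 := h1.trans (h𝒩 n₀ hn₀).1
        have h3 : m = (n₀ - (r - (x + y + z))) + (r + i) := by rw [hi]; ring
        rw [h3]
        have h4 := dvd_add h2 hpd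
        push_cast at h4
        exact h4

end Pool.Agent.H602SS
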