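import Pool.Agent.H602SS.Fou

set_option autoImplicit false

/-!
# Popular sums of three dense sets in residue classes

Few primes have to be dropped from a modulus so that every residue class contains a popular sum of
three dense sets, together with an arithmetic progression of popular sums.
-/

namespace Pool.Agent.H602SS

open Finset

/-- the number of the representations of `n` as a sum of elements of `A`, `B`, `C` -/
def reps (A B C : Finset ℤ) (n : ℤ) : ℕ :=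
  ((A ×ˢ (B ×ˢ C)).filter (fun t => t.1 + t.2.1 + t.2.2 = n)).card

lemma eq_of_dvd {M : ℕ} {a b : ℤ} (h : (M : ℤ) ∣ a - b) (h2 : |a - b| < M) : a = b := by
  have := Int.eq_zero_of_abs_lt_dvd h h2
  linarith

lemma R_eq_reps (N M : ℕ) (hM : 8 * N < M) (A B C : Finset ℤ) (hA : A ⊆ Ioc (0 : ℤ) N)
    (hB : B ⊆ Ioc (0 : ℤ) N) (hC : C ⊆ Ioc (0 : ℤ) N) (n : ℤ) (h0 : 0 ≤ n) (hn : n ≤ 4 * N) :
    R M A B C n = reps A B C n := by
  unfold R reps
  congr 1
  refine filter_congr fun t ht => ?_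
  rw [mem_product, mem_product] at ht
  have h1 := mem_Ioc.1 (hA ht.1)
  have h2 := mem_Ioc.1 (hB ht.2.1)
  have h3 := mem_Ioc.1 (hC ht.2.2)
  constructor
  · intro h
    refine eq_of_dvd h ?_
    rw [abs_lt]
    have : (8 * N : ℤ) < M := by exact_mod_cast hM
    constructor <;> linarith
  · intro h
    rw [h, sub_self]
    exact dvd_zero _

lemma class_card (P M : ℕ) (hPM : P ∣ M) (r : ℤ) :
    (((range M).filter (fun n : ℕ => (P : ℤ) ∣ (n : ℤ) - r)).card) ≤ M / P := by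
  rw [← card_range (M / P)]
  refine card_le_card_of_injOn (fun n => n / P) ?_ ?_
  · intro n hn
    have h1 := mem_range.1 (mem_filter.1 hn).1
    simp only [coe_range, Set.mem_Iio]
    exact Nat.div_lt_div_of_lt_of_dvd hPM h1
  · intro n hn m hm h
    have h1 := (mem_filter.1 hn).2
    have h2 := (mem_filter.1 hm).2
    have h3 : (P : ℤ) ∣ (n : ℤ) - m := by
      have h4 := dvd_sub h1 h2
      have h5 : ((n : ℤ) - r) - ((m : ℤ) - r) = (n : ℤ) - m := by ring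
      rwa [h5] at h4
    have h4 : n % P = m % P := by
      have h5 : (m : ℤ) ≡ n [ZMOD P] := Int.modEq_iff_dvd.2 h3
      exact ((Int.natCast_modEq_iff).1 h5).symm
    have h5 : n / P = m / P := h
    rw [← Nat.div_add_mod n P, ← Nat.div_add_mod m P, h4, h5]

lemma fiber_sum (P M : ℕ) (hM : 0 < M) (hPM : P ∣ M) (A B C : Finset ℤ) (r : ℤ) :
    R P A B C r ≤ ∑ n ∈ (range M).filter (fun n : ℕ => (P : ℤ) ∣ (n : ℤ) - r), R M A B C n := by
  classical
  have hM0 : (0 : ℤ) < M := by exact_mod_cast hM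
  have hmod : ∀ s : ℤ, (((s % M).toNat : ℕ) : ℤ) = s % M := fun s =>
    Int.toNat_of_nonneg (Int.emod_nonneg _ hM0.ne')
  have hdvd : ∀ s : ℤ, (M : ℤ) ∣ s - (((s % M).toNat : ℕ) : ℤ) := by
    intro s
    rw [hmod]
    have := Int.emod_add_mul_ediv s (M : ℤ)
    exact ⟨s / M, by linarith⟩
  have hPMz : (P : ℤ) ∣ M := Int.natCast_dvd_natCast.2 hPM
  unfold R
  rw [card_eq_sum_card_fiberwise (f := fun t : ℤ × (ℤ × ℤ) => ((t.1 + t.2.1 + t.2.2) % M).toNat)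
    (t := (range M).filter (fun n : ℕ => (P : ℤ) ∣ (n : ℤ) - r))]
  · refine sum_le_sum fun n _ => card_le_card fun t ht => ?_
    rw [mem_filter, mem_filter] at ht
    rw [mem_filter]
    refine ⟨ht.1.1, ?_⟩
    rw [← ht.2]
    exact hdvd _
  · intro t ht
    have ht2 := (mem_filter.1 ht).2
    simp only [coe_filter, mem_range, Set.mem_ofPred_eq]
    constructor
    · have h1 := Int.emod_lt_of_pos (t.1 + t.2.1 + t.2.2) hM0
      have h2 := hmod (t.1 + t.2.1 + t.2.2)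
      omega
    · have h1 := hPMz.trans (hdvd (t.1 + t.2.1 + t.2.2))
      have h2 := dvd_sub ht2 h1
      have h3 : (t.1 + t.2.1 + t.2.2 - r) - (t.1 + t.2.1 + t.2.2 -
          (((t.1 + t.2.1 + t.2.2) % M).toNat : ℕ)) =
          ((((t.1 + t.2.1 + t.2.2) % M).toNat : ℕ) : ℤ) - r := by ring
      rwa [h3] at h2

theorem spec (δ : ℝ) (hδ : 0 < δ) : ∃ K : ℕ, ∀ N : ℕ, 1 ≤ N → ∀ T : Finset ℕ,
    (∀ p ∈ T, p.Prime) → ∏ p ∈ T, p ≤ N → ∀ A B C : Finset ℤ, A ⊆ Ioc (0 : ℤ) N →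
    B ⊆ Ioc (0 : ℤ) N → C ⊆ Ioc (0 : ℤ) N → δ * N ≤ A.card → δ * N ≤ B.card → δ * N ≤ C.card →
    ∃ S : Finset ℕ, S ⊆ T ∧ S.card ≤ K ∧ ∀ r : ℤ, ∀ Q : ℕ, 1 ≤ Q → ∃ n₀ : ℤ, ∃ d : ℕ, 1 ≤ d ∧
      d ≤ Q ^ K ∧ ((∏ p ∈ T \ S, p : ℕ) : ℤ) ∣ n₀ - r ∧ 0 < n₀ ∧ n₀ ≤ 3 * N ∧
      ∀ j : ℕ, 2 * Real.pi * j ≤ δ / 72 * Q → (∏ p ∈ T \ S, p) * d * j ≤ N →
        δ ^ 3 * (N : ℝ) ^ 2 / 36 ≤ reps A B C (n₀ + ((∏ p ∈ T \ S, p) * d * j : ℕ)) := by
  classical
  obtain ⟨K, hK⟩ : ∃ K : ℕ, 9 * 144 ^ 2 / δ ^ 3 ≤ (K : ℝ) := exists_nat_ge _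
  refine ⟨K, ?_⟩
  intro N hN T hT hPN A B C hA hB hC hAc hBc hCc
  obtain ⟨P, hP⟩ : ∃ P : ℕ, P = ∏ p ∈ T, p := ⟨_, rfl⟩
  rw [← hP] at hPN
  have hP0 : 0 < P := by
    rw [hP]
    exact prod_pos fun p hp => (hT p hp).pos
  obtain ⟨T₀, hT₀⟩ : ∃ T₀ : ℕ, T₀ = 8 * N / P + 1 := ⟨_, rfl⟩
  obtain ⟨M, hM⟩ : ∃ M : ℕ, M = P * T₀ := ⟨_, rfl⟩
  have hM8 : 8 * N < M := by
    have h1 := Nat.div_add_mod (8 * N) P
    have h2 := Nat.mod_lt (8 * N) hP0
    rw [hM, hT₀, mul_add, mul_one]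
    omega
  have hM9 : M ≤ 9 * N := by
    have h1 := Nat.mul_div_le (8 * N) P
    rw [hM, hT₀, mul_add, mul_one]
    omega
  have hM0 : 0 < M := by omega
  have hN0 : (0 : ℝ) < N := by exact_mod_cast hN
  have hM9r : (M : ℝ) ≤ 9 * N := by exact_mod_cast hM9
  have hMr0 : (0 : ℝ) < M := by exact_mod_cast hM0
  have hdist : ∀ D : Finset ℤ, D ⊆ Ioc (0 : ℤ) N → ∀ a ∈ D, ∀ b ∈ D, (M : ℤ) ∣ a - b → a = b := by
    intro D hD a ha b hb h
    refine eq_of_dvd h ?_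
    have h1 := mem_Ioc.1 (hD ha)
    have h2 := mem_Ioc.1 (hD hb)
    have h3 : (8 * N : ℤ) < M := by exact_mod_cast hM8
    rw [abs_lt]
    constructor <;> linarith
  obtain ⟨η, hη⟩ : ∃ η : ℝ, η = δ / 144 := ⟨_, rfl⟩
  have hη0 : 0 < η := by rw [hη]; positivity
  obtain ⟨a, ha⟩ : ∃ a : ℝ, a = A.card := ⟨_, rfl⟩
  obtain ⟨b, hb⟩ : ∃ b : ℝ, b = B.card := ⟨_, rfl⟩
  obtain ⟨c, hc⟩ : ∃ c : ℝ, c = C.card := ⟨_, rfl⟩
  rw [← ha] at hAc
  rw [← hb] at hBc
  rw [← hc] at hCc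
  have ha0 : 0 < a := lt_of_lt_of_le (by positivity) hAc
  have hb0 : 0 < b := lt_of_lt_of_le (by positivity) hBc
  have hc0 : 0 < c := lt_of_lt_of_le (by positivity) hCc
  obtain ⟨σ, hσ⟩ : ∃ σ : ℝ, σ = Real.sqrt (b * c) := ⟨_, rfl⟩
  have hσ2 : σ * σ = b * c := by
    rw [hσ]
    exact Real.mul_self_sqrt (by positivity)
  have hσN : δ * N ≤ σ := by
    rw [hσ]
    apply Real.le_sqrt_of_sq_le
    rw [pow_two]
    exact mul_le_mul hBc hCc (by positivity) (by positivity)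
  have hσ0 : 0 < σ := lt_of_lt_of_le (by positivity) hσN
  -- the spectrum
  have hcard : (Sp M A η).card ≤ K := by
    have h1 := card_Sp M hM0 A (hdist A hA) η hη0.le
    obtain ⟨s, hs⟩ : ∃ s : ℝ, s = (Sp M A η).card := ⟨_, rfl⟩
    have hs0 : 0 ≤ s := by rw [hs]; exact Nat.cast_nonneg _
    rw [← hs, ← ha] at h1
    have h2 : s ≤ 9 * 144 ^ 2 / δ ^ 3 := by
      have h3 : s * η ^ 2 * a ≤ M := by
        have h4 : s * η ^ 2 * a * a ≤ M * a := by
          calc _ = s * (η * a) ^ 2 := by ring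
            _ ≤ _ := h1
        exact le_of_mul_le_mul_right h4 ha0
      have h5 : s * η ^ 2 * (δ * N) ≤ 9 * N := by
        calc s * η ^ 2 * (δ * N) ≤ s * η ^ 2 * a := by gcongr
          _ ≤ (M : ℝ) := h3
          _ ≤ _ := hM9r
      have h6 : s * η ^ 2 * δ * N ≤ 9 * N := by linarith
      have h7 := le_of_mul_le_mul_right h6 hN0
      rw [le_div_iff₀ (by positivity)]
      rw [hη] at h7
      calc s * δ ^ 3 = (s * (δ / 144) ^ 2 * δ) * 144 ^ 2 := by ring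
        _ ≤ 9 * 144 ^ 2 := by gcongr
    have h3 : s ≤ K := h2.trans hK
    rw [hs] at h3
    exact_mod_cast h3
  obtain ⟨Hb, hHb⟩ : ∃ Hb : Finset ℕ, Hb = (range P).filter (fun h => h ≠ 0 ∧ h * T₀ ∈ Sp M A η) :=
    ⟨_, rfl⟩
  have hT₀0 : 0 < T₀ := by rw [hT₀]; exact Nat.succ_pos _
  have hHbc : Hb.card ≤ (Sp M A η).card := by
    refine card_le_card_of_injOn (fun h => h * T₀) (fun h hh => ?_) (fun h _ h' _ hh => ?_)
    · rw [hHb] at hh
      exact (mem_filter.1 hh).2.2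
    · exact Nat.eq_of_mul_eq_mul_right hT₀0 hh
  obtain ⟨S, hS⟩ : ∃ S : Finset ℕ, S = Hb.image (fun h => (P / Nat.gcd h P).minFac) := ⟨_, rfl⟩
  have hdivP : ∀ q : ℕ, q.Prime → ∀ U : Finset ℕ, U ⊆ T → q ∣ ∏ p ∈ U, p → q ∈ U := by
    intro q hq U hU hqU
    rw [hq.prime.dvd_finsetProd_iff] at hqU
    obtain ⟨p, hp, hqp⟩ := hqU
    rwa [(Nat.prime_dvd_prime_iff_eq hq (hT p (hU hp))).1 hqp]
  have hgcd : ∀ h, h < P → h ≠ 0 → P / Nat.gcd h P ≠ 1 := by
    intro h hlt h0 h1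
    have h2 : Nat.gcd h P ∣ P := Nat.gcd_dvd_right _ _
    have h3 : P = Nat.gcd h P := by
      have := Nat.div_mul_cancel h2
      rw [h1, one_mul] at this
      exact this.symm
    have h4 := Nat.gcd_le_left P (Nat.pos_of_ne_zero h0)
    omega
  have hST : S ⊆ T := by
    intro q hq
    rw [hS, mem_image] at hq
    obtain ⟨h, hh, rfl⟩ := hq
    rw [hHb, mem_filter, mem_range] at hh
    have h1 := hgcd h hh.1 hh.2.1
    refine hdivP _ (Nat.minFac_prime h1) T (Subset.refl _) ?_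
    rw [← hP]
    exact (Nat.minFac_dvd _).trans (Nat.div_dvd_of_dvd (Nat.gcd_dvd_right _ _))
  have hSc : S.card ≤ K := by
    rw [hS]
    exact (card_image_le.trans hHbc).trans hcard
  refine ⟨S, hST, hSc, ?_⟩
  intro r Q hQ
  obtain ⟨P', hP'⟩ : ∃ P' : ℕ, P' = ∏ p ∈ T \ S, p := ⟨_, rfl⟩
  rw [← hP']
  obtain ⟨w, hw⟩ : ∃ w : ℕ, w = ∏ p ∈ S, p := ⟨_, rfl⟩
  have hPw : P = P' * w := by
    rw [hP, hP', hw]
    exact (prod_sdiff hST).symm
  have hP'0 : 0 < P' := by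
    rw [hP']
    exact prod_pos fun p hp => (hT p (mem_sdiff.1 hp).1).pos
  have hw0 : 0 < w := by
    rw [hw]
    exact prod_pos fun p hp => (hT p (hST hp)).pos
  have hMP' : M = P' * (w * T₀) := by rw [hM, hPw]; ring
  have hP'M : P' ∣ M := ⟨_, hMP'⟩
  have hMdiv : M / P' = w * T₀ := by rw [hMP', Nat.mul_div_cancel_left _ hP'0]
  have hMdiv0 : 0 < M / P' := by rw [hMdiv]; exact Nat.mul_pos hw0 hT₀0
  have hMlt : ∀ h, h < P' → h * (M / P') < M := by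
    intro h hh
    calc h * (M / P') < P' * (M / P') := Nat.mul_lt_mul_of_pos_right hh hMdiv0
      _ = M := Nat.mul_div_cancel' hP'M
  have hkey : ∀ h, h < P' → h ≠ 0 → h * (M / P') ∉ Sp M A η := by
    intro h hlt h0 hmem
    have h1 : (h * w) ∈ Hb := by
      rw [hHb, mem_filter, mem_range]
      refine ⟨?_, Nat.mul_ne_zero h0 hw0.ne', ?_⟩
      · rw [hPw]
        exact Nat.mul_lt_mul_of_pos_right hlt hw0
      · rw [hMdiv, ← mul_assoc] at hmem
        exact hmem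
    have h2 : (P / Nat.gcd (h * w) P).minFac ∈ S := by
      rw [hS]
      exact mem_image_of_mem _ h1
    rw [hHb] at h1
    have h1' := mem_range.1 (mem_filter.1 h1).1
    have hp := Nat.minFac_prime (hgcd _ h1' (mem_filter.1 h1).2.1)
    have h3 : w ∣ Nat.gcd (h * w) P := Nat.dvd_gcd (Dvd.intro_left _ rfl) (by
      rw [hPw]; exact Dvd.intro_left _ rfl)
    have h4 : P / Nat.gcd (h * w) P ∣ P / w :=
      Nat.div_dvd_div_left (Nat.gcd_dvd_right _ _) h3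
    have h5 : P / w = P' := by rw [hPw, Nat.mul_div_cancel _ hw0]
    rw [h5] at h4
    have h6 := hdivP _ hp (T \ S) sdiff_subset (by
      rw [← hP']
      exact (Nat.minFac_dvd _).trans h4)
    exact (mem_sdiff.1 h6).2 h2
  -- the class
  have hclass : a * b * c / 2 ≤ P' * R P' A B C r := by
    have h1 := rep_zero P' hP'0 A B C r
    rw [← ha, ← hb, ← hc] at h1
    have h2 : ∑ ξ ∈ (range P').erase 0, ‖F P' A ξ‖ * ‖F P' B ξ‖ * ‖F P' C ξ‖ ≤
        η * a * (M * σ) := by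
      have h3 : ∑ ξ ∈ (range P').erase 0, ‖F P' A ξ‖ * ‖F P' B ξ‖ * ‖F P' C ξ‖ =
          ∑ ξ ∈ ((range P').erase 0).image (fun h => h * (M / P')),
            ‖F M A ξ‖ * (‖F M B ξ‖ * ‖F M C ξ‖) := by
        rw [sum_image (by
          intro h _ h' _ hh
          exact Nat.eq_of_mul_eq_mul_right hMdiv0 hh)]
        refine sum_congr rfl fun h _ => ?_
        rw [F_dvd P' M hP'M hM0, F_dvd P' M hP'M hM0, F_dvd P' M hP'M hM0, mul_assoc]
      have h4 := tail M hM0 B C (hdist B hB) (hdist C hC)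
        (((range P').erase 0).image (fun h => h * (M / P'))) (by
          intro ξ hξ
          obtain ⟨h, hh, rfl⟩ := mem_image.1 hξ
          exact mem_range.2 (hMlt h (mem_range.1 (mem_erase.1 hh).2)))
        (fun ξ => ‖F M A ξ‖) (η * a) (mul_nonneg hη0.le ha0.le) (by
          intro ξ hξ
          obtain ⟨h, hh, rfl⟩ := mem_image.1 hξ
          have h4 := mem_range.1 (mem_erase.1 hh).2
          have h5 := hkey h h4 (mem_erase.1 hh).1
          rw [mem_Sp, not_and, not_le, ← ha] at h5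
          exact (h5 (hMlt h h4)).le)
      rw [← hb, ← hc, ← hσ] at h4
      rw [h3]
      exact h4
    have h3 : η * a * (M * σ) ≤ a * b * c / 2 := by
      have h4 : δ * (M * σ) ≤ 9 * (b * c) := by
        rw [← hσ2]
        calc δ * (M * σ) ≤ δ * (9 * N * σ) := by gcongr
          _ = 9 * (δ * N * σ) := by ring
          _ ≤ 9 * (σ * σ) := by gcongr
      have h5 : 0 < a * (b * c) := by positivity
      calc η * a * (M * σ) = a / 144 * (δ * (M * σ)) := by rw [hη]; ring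
        _ ≤ a / 144 * (9 * (b * c)) := by gcongr
        _ = a * (b * c) / 16 := by ring
        _ ≤ a * b * c / 2 := by linarith
    linarith
  obtain ⟨v, hv⟩ : ∃ v : ℝ, v = a * b * c / (2 * M) := ⟨_, rfl⟩
  have hv0 : 0 < v := by rw [hv]; positivity
  have habc : 0 < a * b * c / 2 := by positivity
  have hP'r : (0 : ℝ) < P' := by exact_mod_cast hP'0
  obtain ⟨n₀, hn₀, hn₀v⟩ : ∃ n ∈ (range M).filter (fun n : ℕ => (P' : ℤ) ∣ (n : ℤ) - r),
      v ≤ R M A B C n := by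
    by_contra hcon
    push Not at hcon
    have h1 := fiber_sum P' M hM0 hP'M A B C r
    have h2 := class_card P' M hP'M r
    rcases ((range M).filter (fun n : ℕ => (P' : ℤ) ∣ (n : ℤ) - r)).eq_empty_or_nonempty with h3 | h3
    · rw [h3, sum_empty] at h1
      have h4 : (R P' A B C r : ℝ) = 0 := by
        have : R P' A B C r = 0 := Nat.le_zero.1 h1
        rw [this]
        exact Nat.cast_zero
      rw [h4, mul_zero] at hclass
      linarith
    · have h4 : (∑ n ∈ (range M).filter (fun n : ℕ => (P' : ℤ) ∣ (n : ℤ) - r),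
          (R M A B C n : ℝ)) < ∑ n ∈ (range M).filter (fun n : ℕ => (P' : ℤ) ∣ (n : ℤ) - r), v :=
        sum_lt_sum_of_nonempty h3 hcon
      rw [sum_const, nsmul_eq_mul] at h4
      have h5 : (R P' A B C r : ℝ) ≤ ∑ n ∈ (range M).filter (fun n : ℕ => (P' : ℤ) ∣ (n : ℤ) - r),
          (R M A B C n : ℝ) := by exact_mod_cast h1
      obtain ⟨u, hu⟩ : ∃ u : ℝ,
        u = (((range M).filter (fun n : ℕ => (P' : ℤ) ∣ (n : ℤ) - r)).card : ℝ) := ⟨_, rfl⟩
      rw [← hu] at h4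
      have h6 : u ≤ ((M / P' : ℕ) : ℝ) := by rw [hu]; exact_mod_cast h2
      have h7 : (P' : ℝ) * ((M / P' : ℕ) : ℝ) = M := by
        exact_mod_cast Nat.mul_div_cancel' hP'M
      have h8 : (P' : ℝ) * R P' A B C r < M * v := by
        calc (P' : ℝ) * R P' A B C r < P' * (u * v) :=
              mul_lt_mul_of_pos_left (lt_of_le_of_lt h5 h4) hP'r
          _ ≤ P' * (((M / P' : ℕ) : ℝ) * v) := by gcongr
          _ = M * v := by rw [← mul_assoc, h7]
      have h9 : (M : ℝ) * v = a * b * c / 2 := by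
        rw [hv]; field_simp
      rw [h9] at h8
      linarith
  rw [mem_filter, mem_range] at hn₀
  -- size of `n₀`
  have hpos : 0 < R M A B C n₀ := by
    have : (0 : ℝ) < R M A B C n₀ := lt_of_lt_of_le hv0 hn₀v
    exact_mod_cast this
  obtain ⟨t, ht⟩ := card_pos.1 hpos
  rw [mem_filter, mem_product, mem_product] at ht
  have ht1 := mem_Ioc.1 (hA ht.1.1)
  have ht2 := mem_Ioc.1 (hB ht.1.2.1)
  have ht3 := mem_Ioc.1 (hC ht.1.2.2)
  have hM8z : (8 * N : ℤ) < M := by exact_mod_cast hM8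
  have hn₀M : (n₀ : ℤ) < M := by exact_mod_cast hn₀.1
  have hn₀e : t.1 + t.2.1 + t.2.2 = n₀ := by
    refine eq_of_dvd ht.2 ?_
    rw [abs_lt]
    constructor
    · linarith [ht1.1, ht2.1, ht3.1]
    · have : (0 : ℤ) ≤ n₀ := Int.natCast_nonneg _
      linarith
  have hn₀1 : (0 : ℤ) < n₀ := by rw [← hn₀e]; linarith
  have hn₀3 : (n₀ : ℤ) ≤ 3 * N := by rw [← hn₀e]; linarith
  -- the period
  obtain ⟨d, hd1, hdQ, hd⟩ := dirichlet (Sp M A η) (fun ξ => (ξ : ℝ) * P' / M) Q hQ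
  refine ⟨n₀, d, hd1, hdQ.trans (Nat.pow_le_pow_right hQ hcard), hn₀.2, hn₀1, hn₀3, ?_⟩
  intro j hj hjN
  have hQ0 : (0 : ℝ) < Q := by exact_mod_cast hQ
  have hper : ∀ ξ ∈ Sp M A η, ‖e (-((ξ : ℝ) * ((P' * d * j : ℕ) : ℤ) / M)) - 1‖ ≤ δ / 72 := by
    intro ξ hξ
    obtain ⟨k, hk⟩ := hd ξ hξ
    refine (e_sub_one_le _ (-(k * j))).trans ?_
    have h1 : -((ξ : ℝ) * (((P' * d * j : ℕ) : ℤ) : ℝ) / M) - ((-(k * j) : ℤ) : ℝ) =
        -((d : ℝ) * ((ξ : ℝ) * P' / M) - k) * j := by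
      push_cast
      ring
    have hj0 : (0 : ℝ) ≤ (j : ℝ) := Nat.cast_nonneg j
    have h2 : |(-((d : ℝ) * ((ξ : ℝ) * P' / M) - k) * j : ℝ)| =
        |(d : ℝ) * ((ξ : ℝ) * P' / M) - k| * j := by
      rw [abs_mul, abs_neg, abs_of_nonneg hj0]
    rw [h1, h2]
    calc 2 * Real.pi * (|(d : ℝ) * ((ξ : ℝ) * P' / M) - k| * j) ≤
        2 * Real.pi * (1 / Q * j) := by gcongr
      _ = 2 * Real.pi * j / Q := by ring
      _ ≤ δ / 72 := by
        rw [div_le_iff₀ hQ0]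
        exact hj
  have hsh := shift M hM0 A B C (hdist B hB) (hdist C hC) η (δ / 72) hη0.le (by positivity)
    n₀ ((P' * d * j : ℕ) : ℤ) hper
  rw [← ha, ← hb, ← hc, ← hσ] at hsh
  have hfin : R M A B C ((n₀ : ℤ) + ((P' * d * j : ℕ) : ℤ)) =
      reps A B C ((n₀ : ℤ) + ((P' * d * j : ℕ) : ℤ)) := by
    refine R_eq_reps N M hM8 A B C hA hB hC _ (by positivity) ?_
    have : ((P' * d * j : ℕ) : ℤ) ≤ N := by exact_mod_cast hjN
    linarith
  rw [← hfin]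
  have h1 : δ / 18 * (a * σ) ≤ v := by
    rw [hv, le_div_iff₀ (by positivity), mul_assoc a, ← hσ2]
    calc δ / 18 * (a * σ) * (2 * M) ≤ δ / 18 * (a * σ) * (2 * (9 * N)) := by gcongr
      _ = a * (δ * N * σ) := by ring
      _ ≤ a * (σ * σ) := by gcongr
  have h2 : δ / 72 + 2 * η = δ / 36 := by rw [hη]; ring
  rw [h2] at hsh
  calc δ ^ 3 * (N : ℝ) ^ 2 / 36 = δ / 36 * ((δ * N) * (δ * N)) := by ring
    _ ≤ δ / 36 * (a * σ) := by gcongr
    _ = δ / 18 * (a * σ) - δ / 36 * (a * σ) := by ring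
    _ ≤ R M A B C n₀ - δ / 36 * (a * σ) := by linarith
    _ ≤ _ := hsh

end Pool.Agent.H602SS
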