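import Pool.Agent.H602SS.Spec

set_option autoImplicit false

/-!
# Popular sums of three sets with a restriction estimate

The sets are dense relative to weights; the exponential sums satisfy an estimate with the
exponent `5 / 2`. Few primes have to be dropped from a modulus so that every residue class
contains many popular sums, each with an arithmetic progression of popular sums.
-/

namespace Pool.Agent.H602SS

open Finset

lemma young (x y z : ℝ) (hx : 0 ≤ x) (hy : 0 ≤ y) (hz : 0 ≤ z) :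
    Real.sqrt x * y * z ≤
      1 / 5 * x ^ (5 / 2 : ℝ) + 2 / 5 * y ^ (5 / 2 : ℝ) + 2 / 5 * z ^ (5 / 2 : ℝ) := by
  have h := Real.geom_mean_le_arith_mean3_weighted (w₁ := 1 / 5) (w₂ := 2 / 5) (w₃ := 2 / 5)
    (by norm_num) (by norm_num) (by norm_num) (Real.rpow_nonneg hx (5 / 2))
    (Real.rpow_nonneg hy (5 / 2)) (Real.rpow_nonneg hz (5 / 2)) (by norm_num)
  rw [← Real.rpow_mul hx, ← Real.rpow_mul hy, ← Real.rpow_mul hz] at h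
  have e1 : (5 / 2 : ℝ) * (1 / 5) = 1 / 2 := by norm_num
  have e2 : (5 / 2 : ℝ) * (2 / 5) = 1 := by norm_num
  rw [e1, e2, Real.rpow_one, Real.rpow_one, ← Real.sqrt_eq_rpow] at h
  exact h

/-- the restriction estimate relative to the weight `w` -/
def Res (CR : ℝ) (M : ℕ) (A : Finset ℤ) (w : ℝ) : Prop :=
  ∑ ξ ∈ range M, ‖F M A ξ‖ ^ (5 / 2 : ℝ) ≤ CR * w ^ (5 / 2 : ℝ)

lemma Res.norm {CR : ℝ} {M : ℕ} {A : Finset ℤ} {w : ℝ} (h : Res CR M A w) (hw : 0 < w) :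
    ∑ ξ ∈ range M, (‖F M A ξ‖ / w) ^ (5 / 2 : ℝ) ≤ CR := by
  have h1 : ∀ ξ ∈ range M, (‖F M A ξ‖ / w) ^ (5 / 2 : ℝ) =
      ‖F M A ξ‖ ^ (5 / 2 : ℝ) / w ^ (5 / 2 : ℝ) := fun ξ _ =>
    Real.div_rpow (norm_nonneg _) hw.le _
  rw [sum_congr rfl h1, ← sum_div, div_le_iff₀ (Real.rpow_pos_of_pos hw _)]
  exact h

lemma Res.sup {CR : ℝ} {M : ℕ} {A : Finset ℤ} {w : ℝ} (h : Res CR M A w) (hw : 0 < w)
    (hCR : 1 ≤ CR) {ξ : ℕ} (hξ : ξ < M) : ‖F M A ξ‖ / w ≤ CR := by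
  have h1 := h.norm hw
  have h2 : (‖F M A ξ‖ / w) ^ (5 / 2 : ℝ) ≤ CR := by
    refine le_trans ?_ h1
    exact single_le_sum (f := fun ξ => (‖F M A ξ‖ / w) ^ (5 / 2 : ℝ))
      (fun i _ => Real.rpow_nonneg (by positivity) _) (mem_range.2 hξ)
  rcases le_total (‖F M A ξ‖ / w) 1 with h3 | h3
  · linarith
  · calc ‖F M A ξ‖ / w = (‖F M A ξ‖ / w) ^ (1 : ℝ) := (Real.rpow_one _).symm
      _ ≤ (‖F M A ξ‖ / w) ^ (5 / 2 : ℝ) := Real.rpow_le_rpow_of_exponent_le h3 (by norm_num)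
      _ ≤ CR := h2

lemma Res.card {CR : ℝ} {M : ℕ} {A : Finset ℤ} {w : ℝ} (h : Res CR M A w) (hw : 0 < w)
    (hCR : 1 ≤ CR) (hM : 0 < M) : (A.card : ℝ) ≤ CR * w := by
  have h1 := h.sup hw hCR hM
  rw [F_zero, div_le_iff₀ hw] at h1
  simpa using h1

lemma tailR (M : ℕ) (A B C : Finset ℤ) (CR wA wB wC : ℝ) (hA : 0 < wA) (hB : 0 < wB)
    (hC : 0 < wC) (rA : Res CR M A wA) (rB : Res CR M B wB) (rC : Res CR M C wC)
    (Ξ : Finset ℕ) (hΞ : Ξ ⊆ range M) (g : ℕ → ℝ) (τ : ℝ) (hτ : 0 ≤ τ)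
    (hg : ∀ ξ ∈ Ξ, g ξ * Real.sqrt (‖F M A ξ‖ / wA) ≤ τ) :
    ∑ ξ ∈ Ξ, g ξ * (‖F M A ξ‖ * ‖F M B ξ‖ * ‖F M C ξ‖) ≤ τ * CR * (wA * wB * wC) := by
  have h1 : ∀ ξ ∈ Ξ, g ξ * (‖F M A ξ‖ * ‖F M B ξ‖ * ‖F M C ξ‖) ≤
      τ * (wA * wB * wC) * (1 / 5 * (‖F M A ξ‖ / wA) ^ (5 / 2 : ℝ) +
        2 / 5 * (‖F M B ξ‖ / wB) ^ (5 / 2 : ℝ) + 2 / 5 * (‖F M C ξ‖ / wC) ^ (5 / 2 : ℝ)) := by
    intro ξ hξ
    have h2 := hg ξ hξ
    have h3 := young (‖F M A ξ‖ / wA) (‖F M B ξ‖ / wB) (‖F M C ξ‖ / wC) (by positivity)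
      (by positivity) (by positivity)
    have h4 : Real.sqrt (‖F M A ξ‖ / wA) * Real.sqrt (‖F M A ξ‖ / wA) = ‖F M A ξ‖ / wA :=
      Real.mul_self_sqrt (by positivity)
    obtain ⟨s, hs⟩ : ∃ s : ℝ, s = Real.sqrt (‖F M A ξ‖ / wA) := ⟨_, rfl⟩
    have hs0 : 0 ≤ s := by rw [hs]; exact Real.sqrt_nonneg _
    rw [← hs] at h2 h3 h4
    have e1 : ‖F M A ξ‖ = s * s * wA := by
      rw [h4]
      field_simp
    have e2 : ‖F M B ξ‖ = (‖F M B ξ‖ / wB) * wB := by field_simp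
    have e3 : ‖F M C ξ‖ = (‖F M C ξ‖ / wC) * wC := by field_simp
    have hy : 0 ≤ ‖F M B ξ‖ / wB := by positivity
    have hz : 0 ≤ ‖F M C ξ‖ / wC := by positivity
    calc g ξ * (‖F M A ξ‖ * ‖F M B ξ‖ * ‖F M C ξ‖) =
        g ξ * ((s * s * wA) * ((‖F M B ξ‖ / wB) * wB) * ((‖F M C ξ‖ / wC) * wC)) := by
          rw [← e1, ← e2, ← e3]
      _ = (g ξ * s) * ((wA * wB * wC) * (s * (‖F M B ξ‖ / wB) * (‖F M C ξ‖ / wC))) := by ring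
      _ ≤ τ * ((wA * wB * wC) * (s * (‖F M B ξ‖ / wB) * (‖F M C ξ‖ / wC))) := by
          apply mul_le_mul_of_nonneg_right h2
          positivity
      _ = τ * (wA * wB * wC) * (s * (‖F M B ξ‖ / wB) * (‖F M C ξ‖ / wC)) := by ring
      _ ≤ _ := mul_le_mul_of_nonneg_left h3 (by positivity)
  have h5 : ∀ (D : Finset ℤ) (w : ℝ), 0 < w → Res CR M D w →
      ∑ ξ ∈ Ξ, (‖F M D ξ‖ / w) ^ (5 / 2 : ℝ) ≤ CR := by
    intro D w hw hD
    refine le_trans ?_ (hD.norm hw)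
    exact sum_le_sum_of_subset_of_nonneg hΞ fun ξ _ _ => Real.rpow_nonneg (by positivity) _
  have hA5 := h5 A wA hA rA
  have hB5 := h5 B wB hB rB
  have hC5 := h5 C wC hC rC
  calc ∑ ξ ∈ Ξ, g ξ * (‖F M A ξ‖ * ‖F M B ξ‖ * ‖F M C ξ‖) ≤ ∑ ξ ∈ Ξ, τ * (wA * wB * wC) *
        (1 / 5 * (‖F M A ξ‖ / wA) ^ (5 / 2 : ℝ) +
        2 / 5 * (‖F M B ξ‖ / wB) ^ (5 / 2 : ℝ) + 2 / 5 * (‖F M C ξ‖ / wC) ^ (5 / 2 : ℝ)) :=
        sum_le_sum h1
    _ = τ * (wA * wB * wC) * (1 / 5 * ∑ ξ ∈ Ξ, (‖F M A ξ‖ / wA) ^ (5 / 2 : ℝ) +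
        2 / 5 * ∑ ξ ∈ Ξ, (‖F M B ξ‖ / wB) ^ (5 / 2 : ℝ) +
        2 / 5 * ∑ ξ ∈ Ξ, (‖F M C ξ‖ / wC) ^ (5 / 2 : ℝ)) := by
        rw [← mul_sum, sum_add_distrib, sum_add_distrib, ← mul_sum, ← mul_sum, ← mul_sum]
    _ ≤ τ * (wA * wB * wC) * CR := by
        apply mul_le_mul_of_nonneg_left _ (by positivity)
        linarith
    _ = _ := by ring

/-- the large spectrum -/
noncomputable def SpR (M : ℕ) (A : Finset ℤ) (t : ℝ) : Finset ℕ := by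
  classical
  exact (range M).filter (fun ξ => t ≤ ‖F M A ξ‖)

lemma mem_SpR {M : ℕ} {A : Finset ℤ} {t : ℝ} {ξ : ℕ} :
    ξ ∈ SpR M A t ↔ ξ < M ∧ t ≤ ‖F M A ξ‖ := by
  unfold SpR
  rw [mem_filter, mem_range]

lemma card_SpR (M : ℕ) (A : Finset ℤ) (CR w μ : ℝ) (hw : 0 < w) (hμ : 0 < μ)
    (r : Res CR M A w) : ((SpR M A (μ ^ 2 * w)).card : ℝ) ≤ CR / μ ^ 5 := by
  rw [le_div_iff₀ (by positivity)]
  have h1 : ∀ ξ ∈ SpR M A (μ ^ 2 * w), μ ^ 5 ≤ (‖F M A ξ‖ / w) ^ (5 / 2 : ℝ) := by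
    intro ξ hξ
    have h2 := (mem_SpR.1 hξ).2
    have h3 : μ ^ 2 ≤ ‖F M A ξ‖ / w := by rwa [le_div_iff₀ hw]
    have h4 : μ ^ 5 = (μ ^ 2) ^ (5 / 2 : ℝ) := by
      rw [← Real.rpow_natCast μ 2, ← Real.rpow_mul hμ.le]
      norm_num
    rw [h4]
    exact Real.rpow_le_rpow (by positivity) h3 (by norm_num)
  calc ((SpR M A (μ ^ 2 * w)).card : ℝ) * μ ^ 5 = ∑ _ξ ∈ SpR M A (μ ^ 2 * w), μ ^ 5 := by
        rw [sum_const, nsmul_eq_mul]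
    _ ≤ ∑ ξ ∈ SpR M A (μ ^ 2 * w), (‖F M A ξ‖ / w) ^ (5 / 2 : ℝ) := sum_le_sum h1
    _ ≤ ∑ ξ ∈ range M, (‖F M A ξ‖ / w) ^ (5 / 2 : ℝ) :=
        sum_le_sum_of_subset_of_nonneg (fun ξ hξ => mem_range.2 (mem_SpR.1 hξ).1)
          fun ξ _ _ => Real.rpow_nonneg (by positivity) _
    _ ≤ CR := r.norm hw

/-- almost periods -/
lemma shiftR (M : ℕ) (hM : 0 < M) (A B C : Finset ℤ) (CR wA wB wC : ℝ) (hCR : 1 ≤ CR)
    (hA : 0 < wA) (hB : 0 < wB) (hC : 0 < wC) (rA : Res CR M A wA) (rB : Res CR M B wB)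
    (rC : Res CR M C wC) (μ ρ : ℝ) (hμ : 0 < μ) (hρ : 0 ≤ ρ)
    (n t : ℤ) (ht : ∀ ξ ∈ SpR M A (μ ^ 2 * wA), ‖e (-((ξ : ℝ) * t / M)) - 1‖ ≤ ρ) :
    (M : ℝ) * R M A B C n - (ρ * CR ^ 2 + 2 * μ * CR) * (wA * wB * wC) ≤
      M * R M A B C (n + t) := by
  have h1 : (M : ℂ) * R M A B C n - (M : ℂ) * R M A B C (n + t) =
      ∑ ξ ∈ range M, F M A ξ * F M B ξ * F M C ξ * e (-((ξ : ℝ) * n / M)) *
        (1 - e (-((ξ : ℝ) * t / M))) := by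
    rw [rep M hM, rep M hM, ← sum_sub_distrib]
    refine sum_congr rfl fun ξ _ => ?_
    have h2 : e (-((ξ : ℝ) * ((n + t : ℤ) : ℝ) / M)) =
        e (-((ξ : ℝ) * n / M)) * e (-((ξ : ℝ) * t / M)) := by
      rw [← e_add]
      congr 1
      push_cast
      ring
    rw [h2]
    ring
  have h2 : ‖(M : ℂ) * R M A B C n - (M : ℂ) * R M A B C (n + t)‖ ≤
      ∑ ξ ∈ range M, ‖1 - e (-((ξ : ℝ) * t / M))‖ * (‖F M A ξ‖ * ‖F M B ξ‖ * ‖F M C ξ‖) := by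
    rw [h1]
    refine (norm_sum_le _ _).trans (le_of_eq (sum_congr rfl fun ξ _ => ?_))
    rw [norm_mul, norm_mul, norm_mul, norm_mul, norm_e]
    ring
  have h3 : ∑ ξ ∈ range M,
      ‖1 - e (-((ξ : ℝ) * t / M))‖ * (‖F M A ξ‖ * ‖F M B ξ‖ * ‖F M C ξ‖) ≤
      (ρ * CR) * CR * (wA * wB * wC) + (2 * μ) * CR * (wA * wB * wC) := by
    have hsub : SpR M A (μ ^ 2 * wA) ⊆ range M := fun ξ hξ => mem_range.2 (mem_SpR.1 hξ).1
    rw [← sum_sdiff hsub, add_comm]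
    refine add_le_add ?_ ?_
    · refine tailR M A B C CR wA wB wC hA hB hC rA rB rC _ hsub
        (fun ξ => ‖1 - e (-((ξ : ℝ) * t / M))‖) _ (by positivity) fun ξ hξ => ?_
      have h4 := ht ξ hξ
      rw [norm_sub_rev] at h4
      have h5 := rA.sup hA hCR (mem_SpR.1 hξ).1
      have h6 : Real.sqrt (‖F M A ξ‖ / wA) ≤ CR := by
        rw [Real.sqrt_le_left (by linarith)]
        nlinarith
      exact mul_le_mul h4 h6 (Real.sqrt_nonneg _) hρ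
    · refine tailR M A B C CR wA wB wC hA hB hC rA rB rC _ sdiff_subset
        (fun ξ => ‖1 - e (-((ξ : ℝ) * t / M))‖) _ (by positivity) fun ξ hξ => ?_
      rw [mem_sdiff, mem_SpR, mem_range, not_and, not_le] at hξ
      have h4 := (hξ.2 hξ.1).le
      have h5 : ‖1 - e (-((ξ : ℝ) * t / M))‖ ≤ 2 := by
        refine (norm_sub_le _ _).trans ?_
        rw [norm_e, norm_one]
        norm_num
      have h6 : Real.sqrt (‖F M A ξ‖ / wA) ≤ μ := by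
        rw [Real.sqrt_le_left hμ.le, div_le_iff₀ hA]
        exact h4
      exact mul_le_mul h5 h6 (Real.sqrt_nonneg _) (by norm_num)
  have h4 : (M : ℂ) * R M A B C n - (M : ℂ) * R M A B C (n + t) =
      ((M * R M A B C n - M * R M A B C (n + t) : ℝ) : ℂ) := by push_cast; ring
  rw [h4, Complex.norm_real, Real.norm_eq_abs] at h2
  have h5 := ((le_abs_self _).trans h2).trans h3
  have h6 : (ρ * CR) * CR * (wA * wB * wC) + (2 * μ) * CR * (wA * wB * wC) =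
      (ρ * CR ^ 2 + 2 * μ * CR) * (wA * wB * wC) := by ring
  linarith

lemma R_le (M : ℕ) (A B C : Finset ℤ)
    (hC : ∀ a ∈ C, ∀ b ∈ C, (M : ℤ) ∣ a - b → a = b) (n : ℤ) :
    R M A B C n ≤ A.card * B.card := by
  unfold R
  rw [← card_product]
  refine card_le_card_of_injOn (fun t => (t.1, t.2.1)) ?_ ?_
  · intro t ht
    have h1 := mem_product.1 (mem_filter.1 ht).1
    exact mem_coe.2 (mem_product.2 ⟨h1.1, (mem_product.1 h1.2).1⟩)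
  · intro t ht t' ht' h
    have h1 := mem_filter.1 ht
    have h2 := mem_filter.1 ht'
    rw [mem_product, mem_product] at h1 h2
    simp only [Prod.mk.injEq] at h
    have h3 : (M : ℤ) ∣ t.2.2 - t'.2.2 := by
      have h4 := dvd_sub h1.2 h2.2
      have h5 : (t.1 + t.2.1 + t.2.2 - n) - (t'.1 + t'.2.1 + t'.2.2 - n) = t.2.2 - t'.2.2 := by
        rw [h.1, h.2]
        ring
      rwa [h5] at h4
    exact Prod.ext h.1 (Prod.ext h.2 (hC _ h1.1.2.2 _ h2.1.2.2 h3))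

theorem specR (δ CR : ℝ) (hδ : 0 < δ) (hCR : 1 ≤ CR) : ∃ K : ℕ, ∃ ρ : ℝ, 0 < ρ ∧
    ∀ N : ℕ, 1 ≤ N → ∀ T : Finset ℕ,
    (∀ p ∈ T, p.Prime) → ∏ p ∈ T, p ≤ N → ∀ A B C : Finset ℤ, A ⊆ Ioc (0 : ℤ) N →
    B ⊆ Ioc (0 : ℤ) N → C ⊆ Ioc (0 : ℤ) N → ∀ wA wB wC : ℝ, 0 < wA → 0 < wB → 0 < wC →
    δ * wA ≤ A.card → δ * wB ≤ B.card → δ * wC ≤ C.card →
    (∀ M : ℕ, 8 * N < M → M ≤ 9 * N → Res CR M A wA ∧ Res CR M B wB ∧ Res CR M C wC) →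
    ∃ S : Finset ℕ, S ⊆ T ∧ S.card ≤ K ∧ ∀ r : ℤ, ∀ Q : ℕ, 1 ≤ Q → ∃ d : ℕ, 1 ≤ d ∧
      d ≤ Q ^ K ∧ ∃ 𝒩 : Finset ℤ,
      (∀ n₀ ∈ 𝒩, ((∏ p ∈ T \ S, p : ℕ) : ℤ) ∣ n₀ - r ∧ 0 < n₀ ∧ n₀ ≤ 3 * N) ∧
      δ ^ 3 * wC ≤ 4 * CR ^ 2 * (∏ p ∈ T \ S, p : ℕ) * 𝒩.card ∧
      ∀ n₀ ∈ 𝒩, ∀ j : ℕ, 2 * Real.pi * j ≤ ρ * Q → (∏ p ∈ T \ S, p) * d * j ≤ N →
        δ ^ 3 * (wA * wB * wC) / (72 * N) ≤
          reps A B C (n₀ + ((∏ p ∈ T \ S, p) * d * j : ℕ)) := by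
  classical
  have hCR0 : 0 < CR := by linarith
  obtain ⟨μ, hμ⟩ : ∃ μ : ℝ, μ = δ ^ 3 / (32 * CR) := ⟨_, rfl⟩
  have hμ0 : 0 < μ := by rw [hμ]; positivity
  obtain ⟨ρ, hρ⟩ : ∃ ρ : ℝ, ρ = δ ^ 3 / (16 * CR ^ 2) := ⟨_, rfl⟩
  have hρ0 : 0 < ρ := by rw [hρ]; positivity
  obtain ⟨K, hK⟩ : ∃ K : ℕ, CR / μ ^ 5 ≤ (K : ℝ) := exists_nat_ge _
  refine ⟨K, ρ, hρ0, ?_⟩
  intro N hN T hT hPN A B C hA hB hC wA wB wC hwA hwB hwC hAc hBc hCc hres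
  obtain ⟨P, hP⟩ : ∃ P : ℕ, P = ∏ p ∈ T, p := ⟨_, rfl⟩
  rw [← hP] at hPN
  have hP0 : 0 < P := by
    rw [hP]
    exact prod_pos fun p hp => (hT p hp).pos
  obtain ⟨T₀, hT₀⟩ : ∃ T₀ : ℕ, T₀ = 8 * N / P + 1 := ⟨_, rfl⟩
  obtain ⟨M, hM⟩ : ∃ M : ℕ, M = P * T₀ := ⟨_, rfl⟩
  have hM8 : 8 * N < M := by
    have h1 := Nat.div_add_mod (8 * N) P
    have h2 := Nat.mod_lt (8 * N) hP0
    rw [hM, hT₀, mul_add, mul_one]
    omega
  have hM9 : M ≤ 9 * N := by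
    have h1 := Nat.mul_div_le (8 * N) P
    rw [hM, hT₀, mul_add, mul_one]
    omega
  obtain ⟨rA, rB, rC⟩ := hres M hM8 hM9
  have hM0 : 0 < M := by omega
  have hN0 : (0 : ℝ) < N := by exact_mod_cast hN
  have hM9r : (M : ℝ) ≤ 9 * N := by exact_mod_cast hM9
  have hMr0 : (0 : ℝ) < M := by exact_mod_cast hM0
  have hdist : ∀ D : Finset ℤ, D ⊆ Ioc (0 : ℤ) N → ∀ a ∈ D, ∀ b ∈ D, (M : ℤ) ∣ a - b → a = b := by
    intro D hD a ha b hb h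
    refine eq_of_dvd h ?_
    have h1 := mem_Ioc.1 (hD ha)
    have h2 := mem_Ioc.1 (hD hb)
    have h3 : (8 * N : ℤ) < M := by exact_mod_cast hM8
    rw [abs_lt]
    constructor <;> linarith
  have hAu := rA.card hwA hCR hM0
  have hBu := rB.card hwB hCR hM0
  obtain ⟨a, ha⟩ : ∃ a : ℝ, a = A.card := ⟨_, rfl⟩
  obtain ⟨b, hb⟩ : ∃ b : ℝ, b = B.card := ⟨_, rfl⟩
  obtain ⟨c, hc⟩ : ∃ c : ℝ, c = C.card := ⟨_, rfl⟩
  rw [← ha] at hAc hAu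
  rw [← hb] at hBc hBu
  rw [← hc] at hCc
  have ha0 : 0 < a := lt_of_lt_of_le (by positivity) hAc
  have hb0 : 0 < b := lt_of_lt_of_le (by positivity) hBc
  have hc0 : 0 < c := lt_of_lt_of_le (by positivity) hCc
  obtain ⟨W, hW⟩ : ∃ W : ℝ, W = wA * wB * wC := ⟨_, rfl⟩
  have hW0 : 0 < W := by rw [hW]; positivity
  have habcW : δ ^ 3 * W ≤ a * b * c := by
    calc δ ^ 3 * W = (δ * wA) * (δ * wB) * (δ * wC) := by rw [hW]; ring
      _ ≤ a * b * c := by gcongr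
  -- the spectrum
  obtain ⟨Λ, hΛ⟩ : ∃ Λ : Finset ℕ, Λ = SpR M A (μ ^ 2 * wA) := ⟨_, rfl⟩
  have hcard : Λ.card ≤ K := by
    have h1 := (card_SpR M A CR wA μ hwA hμ0 rA).trans hK
    rw [← hΛ] at h1
    exact_mod_cast h1
  obtain ⟨Hb, hHb⟩ : ∃ Hb : Finset ℕ, Hb = (range P).filter (fun h => h ≠ 0 ∧ h * T₀ ∈ Λ) :=
    ⟨_, rfl⟩
  have hT₀0 : 0 < T₀ := by rw [hT₀]; exact Nat.succ_pos _
  have hHbc : Hb.card ≤ Λ.card := by
    refine card_le_card_of_injOn (fun h => h * T₀) (fun h hh => ?_) (fun h _ h' _ hh => ?_)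
    · rw [hHb] at hh
      exact (mem_filter.1 hh).2.2
    · exact Nat.eq_of_mul_eq_mul_right hT₀0 hh
  obtain ⟨S, hS⟩ : ∃ S : Finset ℕ, S = Hb.image (fun h => (P / Nat.gcd h P).minFac) := ⟨_, rfl⟩
  have hdivP : ∀ q : ℕ, q.Prime → ∀ U : Finset ℕ, U ⊆ T → q ∣ ∏ p ∈ U, p → q ∈ U := by
    intro q hq U hU hqU
    rw [hq.prime.dvd_finsetProd_iff] at hqU
    obtain ⟨p, hp, hqp⟩ := hqU
    rwa [(Nat.prime_dvd_prime_iff_eq hq (hT p (hU hp))).1 hqp]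
  have hgcd : ∀ h, h < P → h ≠ 0 → P / Nat.gcd h P ≠ 1 := by
    intro h hlt h0 h1
    have h2 : Nat.gcd h P ∣ P := Nat.gcd_dvd_right _ _
    have h3 : P = Nat.gcd h P := by
      have := Nat.div_mul_cancel h2
      rw [h1, one_mul] at this
      exact this.symm
    have h4 := Nat.gcd_le_left P (Nat.pos_of_ne_zero h0)
    omega
  have hST : S ⊆ T := by
    intro q hq
    rw [hS, mem_image] at hq
    obtain ⟨h, hh, rfl⟩ := hq
    rw [hHb, mem_filter, mem_range] at hh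
    have h1 := hgcd h hh.1 hh.2.1
    refine hdivP _ (Nat.minFac_prime h1) T (Subset.refl _) ?_
    rw [← hP]
    exact (Nat.minFac_dvd _).trans (Nat.div_dvd_of_dvd (Nat.gcd_dvd_right _ _))
  have hSc : S.card ≤ K := by
    rw [hS]
    exact (card_image_le.trans hHbc).trans hcard
  refine ⟨S, hST, hSc, ?_⟩
  intro r Q hQ
  obtain ⟨P', hP'⟩ : ∃ P' : ℕ, P' = ∏ p ∈ T \ S, p := ⟨_, rfl⟩
  rw [← hP']
  obtain ⟨w, hw⟩ : ∃ w : ℕ, w = ∏ p ∈ S, p := ⟨_, rfl⟩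
  have hPw : P = P' * w := by
    rw [hP, hP', hw]
    exact (prod_sdiff hST).symm
  have hP'0 : 0 < P' := by
    rw [hP']
    exact prod_pos fun p hp => (hT p (mem_sdiff.1 hp).1).pos
  have hw0 : 0 < w := by
    rw [hw]
    exact prod_pos fun p hp => (hT p (hST hp)).pos
  have hMP' : M = P' * (w * T₀) := by rw [hM, hPw]; ring
  have hP'M : P' ∣ M := ⟨_, hMP'⟩
  have hMdiv : M / P' = w * T₀ := by rw [hMP', Nat.mul_div_cancel_left _ hP'0]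
  have hMdiv0 : 0 < M / P' := by rw [hMdiv]; exact Nat.mul_pos hw0 hT₀0
  have hMlt : ∀ h, h < P' → h * (M / P') < M := by
    intro h hh
    calc h * (M / P') < P' * (M / P') := Nat.mul_lt_mul_of_pos_right hh hMdiv0
      _ = M := Nat.mul_div_cancel' hP'M
  have hkey : ∀ h, h < P' → h ≠ 0 → h * (M / P') ∉ Λ := by
    intro h hlt h0 hmem
    have h1 : (h * w) ∈ Hb := by
      rw [hHb, mem_filter, mem_range]
      refine ⟨?_, Nat.mul_ne_zero h0 hw0.ne', ?_⟩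
      · rw [hPw]
        exact Nat.mul_lt_mul_of_pos_right hlt hw0
      · rw [hMdiv, ← mul_assoc] at hmem
        exact hmem
    have h2 : (P / Nat.gcd (h * w) P).minFac ∈ S := by
      rw [hS]
      exact mem_image_of_mem _ h1
    rw [hHb] at h1
    have h1' := mem_range.1 (mem_filter.1 h1).1
    have hp := Nat.minFac_prime (hgcd _ h1' (mem_filter.1 h1).2.1)
    have h3 : w ∣ Nat.gcd (h * w) P := Nat.dvd_gcd (Dvd.intro_left _ rfl) (by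
      rw [hPw]; exact Dvd.intro_left _ rfl)
    have h4 : P / Nat.gcd (h * w) P ∣ P / w :=
      Nat.div_dvd_div_left (Nat.gcd_dvd_right _ _) h3
    have h5 : P / w = P' := by rw [hPw, Nat.mul_div_cancel _ hw0]
    rw [h5] at h4
    have h6 := hdivP _ hp (T \ S) sdiff_subset (by
      rw [← hP']
      exact (Nat.minFac_dvd _).trans h4)
    exact (mem_sdiff.1 h6).2 h2
  -- the class
  have hclass : δ ^ 3 * W / 2 ≤ P' * R P' A B C r := by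
    have h1 := rep_zero P' hP'0 A B C r
    rw [← ha, ← hb, ← hc] at h1
    have h2 : ∑ ξ ∈ (range P').erase 0, ‖F P' A ξ‖ * ‖F P' B ξ‖ * ‖F P' C ξ‖ ≤
        μ * CR * W := by
      have h3 : ∑ ξ ∈ (range P').erase 0, ‖F P' A ξ‖ * ‖F P' B ξ‖ * ‖F P' C ξ‖ =
          ∑ ξ ∈ ((range P').erase 0).image (fun h => h * (M / P')),
            1 * (‖F M A ξ‖ * ‖F M B ξ‖ * ‖F M C ξ‖) := by
        rw [sum_image (by
          intro h _ h' _ hh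
          exact Nat.eq_of_mul_eq_mul_right hMdiv0 hh)]
        refine sum_congr rfl fun h _ => ?_
        rw [F_dvd P' M hP'M hM0, F_dvd P' M hP'M hM0, F_dvd P' M hP'M hM0, one_mul]
      have h4 := tailR M A B C CR wA wB wC hwA hwB hwC rA rB rC
        (((range P').erase 0).image (fun h => h * (M / P'))) (by
          intro ξ hξ
          obtain ⟨h, hh, rfl⟩ := mem_image.1 hξ
          exact mem_range.2 (hMlt h (mem_range.1 (mem_erase.1 hh).2)))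
        (fun _ => 1) μ hμ0.le (by
          intro ξ hξ
          obtain ⟨h, hh, rfl⟩ := mem_image.1 hξ
          have h4 := mem_range.1 (mem_erase.1 hh).2
          have h5 := hkey h h4 (mem_erase.1 hh).1
          rw [hΛ, mem_SpR, not_and, not_le] at h5
          rw [one_mul, Real.sqrt_le_left hμ0.le, div_le_iff₀ hwA]
          exact (h5 (hMlt h h4)).le)
      rw [← hW] at h4
      rw [h3]
      exact h4
    have h3 : μ * CR * W ≤ δ ^ 3 * W / 2 := by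
      have h4 : μ * CR = δ ^ 3 / 32 := by rw [hμ]; field_simp
      have h5 : 0 < δ ^ 3 * W := by positivity
      calc μ * CR * W = δ ^ 3 * W / 32 := by rw [h4]; ring
        _ ≤ _ := by linarith
    linarith
  obtain ⟨v, hv⟩ : ∃ v : ℝ, v = δ ^ 3 * W / (4 * M) := ⟨_, rfl⟩
  have hv0 : 0 < v := by rw [hv]; positivity
  have hP'r : (0 : ℝ) < P' := by exact_mod_cast hP'0
  obtain ⟨cl, hcl⟩ : ∃ cl : Finset ℕ, cl = (range M).filter (fun n : ℕ => (P' : ℤ) ∣ (n : ℤ) - r) :=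
    ⟨_, rfl⟩
  obtain ⟨𝒩, h𝒩⟩ : ∃ 𝒩 : Finset ℕ, 𝒩 = cl.filter (fun n : ℕ => v ≤ R M A B C n) := ⟨_, rfl⟩
  have hmany : δ ^ 3 * wC ≤ 4 * CR ^ 2 * P' * 𝒩.card := by
    have h1 := fiber_sum P' M hM0 hP'M A B C r
    have h2 := class_card P' M hP'M r
    rw [← hcl] at h1 h2
    have h5 : (R P' A B C r : ℝ) ≤ ∑ n ∈ cl, (R M A B C n : ℝ) := by exact_mod_cast h1
    rw [← sum_filter_add_sum_filter_not cl (fun n : ℕ => v ≤ (R M A B C n : ℝ)), ← h𝒩] at h5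
    have h6 : ∑ n ∈ 𝒩, (R M A B C n : ℝ) ≤ 𝒩.card * (CR ^ 2 * (wA * wB)) := by
      calc ∑ n ∈ 𝒩, (R M A B C n : ℝ) ≤ ∑ _n ∈ 𝒩, (CR ^ 2 * (wA * wB)) := by
            refine sum_le_sum fun n _ => ?_
            have h7 := R_le M A B C (hdist C hC) n
            have h8 : (R M A B C n : ℝ) ≤ a * b := by
              rw [ha, hb]
              exact_mod_cast h7
            calc (R M A B C n : ℝ) ≤ a * b := h8
              _ ≤ (CR * wA) * (CR * wB) := by gcongr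
              _ = CR ^ 2 * (wA * wB) := by ring
        _ = _ := by rw [sum_const, nsmul_eq_mul]
    have h7 : ∑ n ∈ cl.filter (fun n : ℕ => ¬ v ≤ (R M A B C n : ℝ)), (R M A B C n : ℝ) ≤
        ((M / P' : ℕ) : ℝ) * v := by
      calc ∑ n ∈ cl.filter (fun n : ℕ => ¬ v ≤ (R M A B C n : ℝ)), (R M A B C n : ℝ) ≤
          ∑ _n ∈ cl.filter (fun n : ℕ => ¬ v ≤ (R M A B C n : ℝ)), v := by
            refine sum_le_sum fun n hn => ?_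
            exact (not_le.1 (mem_filter.1 hn).2).le
        _ = ((cl.filter (fun n : ℕ => ¬ v ≤ (R M A B C n : ℝ))).card : ℝ) * v := by
            rw [sum_const, nsmul_eq_mul]
        _ ≤ ((M / P' : ℕ) : ℝ) * v := by
            apply mul_le_mul_of_nonneg_right _ hv0.le
            have h8 : (cl.filter (fun n : ℕ => ¬ v ≤ (R M A B C n : ℝ))).card ≤ M / P' :=
              (card_filter_le _ _).trans h2
            exact_mod_cast h8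
    have h8 : (P' : ℝ) * ((M / P' : ℕ) : ℝ) = M := by
      exact_mod_cast Nat.mul_div_cancel' hP'M
    have h9 : (M : ℝ) * v = δ ^ 3 * W / 4 := by
      rw [hv]; field_simp
    obtain ⟨s, hs⟩ : ∃ s : ℝ, s = 𝒩.card := ⟨_, rfl⟩
    rw [← hs] at h6 ⊢
    have h10 : δ ^ 3 * W / 2 ≤ P' * (s * (CR ^ 2 * (wA * wB))) + δ ^ 3 * W / 4 := by
      calc δ ^ 3 * W / 2 ≤ P' * R P' A B C r := hclass
        _ ≤ P' * (s * (CR ^ 2 * (wA * wB)) + ((M / P' : ℕ) : ℝ) * v) := by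
            apply mul_le_mul_of_nonneg_left _ hP'r.le
            linarith
        _ = P' * (s * (CR ^ 2 * (wA * wB))) + (P' * ((M / P' : ℕ) : ℝ)) * v := by ring
        _ = _ := by rw [h8, h9]
    have h11 : (wA * wB) * (δ ^ 3 * wC) ≤ (wA * wB) * (4 * CR ^ 2 * P' * s) := by
      have h12 : (wA * wB) * (δ ^ 3 * wC) = δ ^ 3 * W := by rw [hW]; ring
      rw [h12]
      have h13 : (wA * wB) * (4 * CR ^ 2 * P' * s) = 4 * (P' * (s * (CR ^ 2 * (wA * wB)))) := by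
        ring
      rw [h13]
      linarith
    exact le_of_mul_le_mul_left h11 (by positivity)
  -- the period
  obtain ⟨d, hd1, hdQ, hd⟩ := dirichlet Λ (fun ξ => (ξ : ℝ) * P' / M) Q hQ
  refine ⟨d, hd1, hdQ.trans (Nat.pow_le_pow_right hQ hcard), 𝒩.image (fun n : ℕ => (n : ℤ)),
    ?_, ?_, ?_⟩
  · intro n₀' hn₀'
    obtain ⟨n₀, hn₀, rfl⟩ := mem_image.1 hn₀'
    rw [h𝒩, hcl, mem_filter, mem_filter, mem_range] at hn₀
    obtain ⟨⟨hn₀M', hn₀d⟩, hn₀v⟩ := hn₀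
    have hpos : 0 < R M A B C n₀ := by
      have : (0 : ℝ) < R M A B C n₀ := lt_of_lt_of_le hv0 hn₀v
      exact_mod_cast this
    obtain ⟨t, ht⟩ := card_pos.1 hpos
    rw [mem_filter, mem_product, mem_product] at ht
    have ht1 := mem_Ioc.1 (hA ht.1.1)
    have ht2 := mem_Ioc.1 (hB ht.1.2.1)
    have ht3 := mem_Ioc.1 (hC ht.1.2.2)
    have hM8z : (8 * N : ℤ) < M := by exact_mod_cast hM8
    have hn₀M : (n₀ : ℤ) < M := by exact_mod_cast hn₀M'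
    have hn₀e : t.1 + t.2.1 + t.2.2 = n₀ := by
      refine eq_of_dvd ht.2 ?_
      rw [abs_lt]
      constructor
      · linarith [ht1.1, ht2.1, ht3.1]
      · have : (0 : ℤ) ≤ n₀ := Int.natCast_nonneg _
        linarith
    exact ⟨hn₀d, by rw [← hn₀e]; linarith, by rw [← hn₀e]; linarith⟩
  · rw [card_image_of_injective _ Nat.cast_injective]
    exact hmany
  intro n₀' hn₀' j hj hjN
  obtain ⟨n₀, hn₀, rfl⟩ := mem_image.1 hn₀'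
  rw [h𝒩, hcl, mem_filter, mem_filter, mem_range] at hn₀
  obtain ⟨⟨hn₀M', hn₀d⟩, hn₀v⟩ := hn₀
  have hpos : 0 < R M A B C n₀ := by
    have : (0 : ℝ) < R M A B C n₀ := lt_of_lt_of_le hv0 hn₀v
    exact_mod_cast this
  obtain ⟨t, ht⟩ := card_pos.1 hpos
  rw [mem_filter, mem_product, mem_product] at ht
  have ht1 := mem_Ioc.1 (hA ht.1.1)
  have ht2 := mem_Ioc.1 (hB ht.1.2.1)
  have ht3 := mem_Ioc.1 (hC ht.1.2.2)
  have hM8z : (8 * N : ℤ) < M := by exact_mod_cast hM8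
  have hn₀M : (n₀ : ℤ) < M := by exact_mod_cast hn₀M'
  have hn₀e : t.1 + t.2.1 + t.2.2 = n₀ := by
    refine eq_of_dvd ht.2 ?_
    rw [abs_lt]
    constructor
    · linarith [ht1.1, ht2.1, ht3.1]
    · have : (0 : ℤ) ≤ n₀ := Int.natCast_nonneg _
      linarith
  have hn₀3 : (n₀ : ℤ) ≤ 3 * N := by rw [← hn₀e]; linarith
  have hQ0 : (0 : ℝ) < Q := by exact_mod_cast hQ
  have hper : ∀ ξ ∈ SpR M A (μ ^ 2 * wA),
      ‖e (-((ξ : ℝ) * ((P' * d * j : ℕ) : ℤ) / M)) - 1‖ ≤ ρ := by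
    intro ξ hξ
    rw [← hΛ] at hξ
    obtain ⟨k, hk⟩ := hd ξ hξ
    refine (e_sub_one_le _ (-(k * j))).trans ?_
    have h1 : -((ξ : ℝ) * (((P' * d * j : ℕ) : ℤ) : ℝ) / M) - ((-(k * j) : ℤ) : ℝ) =
        -((d : ℝ) * ((ξ : ℝ) * P' / M) - k) * j := by
      push_cast
      ring
    have hj0 : (0 : ℝ) ≤ (j : ℝ) := Nat.cast_nonneg j
    have h2 : |(-((d : ℝ) * ((ξ : ℝ) * P' / M) - k) * j : ℝ)| =
        |(d : ℝ) * ((ξ : ℝ) * P' / M) - k| * j := by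
      rw [abs_mul, abs_neg, abs_of_nonneg hj0]
    rw [h1, h2]
    calc 2 * Real.pi * (|(d : ℝ) * ((ξ : ℝ) * P' / M) - k| * j) ≤
        2 * Real.pi * (1 / Q * j) := by gcongr
      _ = 2 * Real.pi * j / Q := by ring
      _ ≤ ρ := by
        rw [div_le_iff₀ hQ0]
        exact hj
  have hsh := shiftR M hM0 A B C CR wA wB wC hCR hwA hwB hwC rA rB rC μ ρ hμ0 hρ0.le
    n₀ ((P' * d * j : ℕ) : ℤ) hper
  rw [← hW] at hsh
  have hfin : R M A B C ((n₀ : ℤ) + ((P' * d * j : ℕ) : ℤ)) =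
      reps A B C ((n₀ : ℤ) + ((P' * d * j : ℕ) : ℤ)) := by
    refine R_eq_reps N M hM8 A B C hA hB hC _ (by positivity) ?_
    have : ((P' * d * j : ℕ) : ℤ) ≤ N := by exact_mod_cast hjN
    linarith
  rw [← hfin, ← hW]
  obtain ⟨R₁, hR₁⟩ : ∃ R₁ : ℝ, R₁ = R M A B C ((n₀ : ℤ) + ((P' * d * j : ℕ) : ℤ)) := ⟨_, rfl⟩
  obtain ⟨R₀, hR₀⟩ : ∃ R₀ : ℝ, R₀ = R M A B C n₀ := ⟨_, rfl⟩
  rw [← hR₀] at hn₀v
  rw [← hR₀, ← hR₁] at hsh
  rw [← hR₁]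
  have h1 : ρ * CR ^ 2 + 2 * μ * CR = δ ^ 3 / 8 := by
    rw [hρ, hμ]
    field_simp
    ring
  rw [h1] at hsh
  have h2 : (M : ℝ) * v = δ ^ 3 * W / 4 := by
    rw [hv]; field_simp
  have h3 : (M : ℝ) * v ≤ M * R₀ := by gcongr
  have h4 : δ ^ 3 * W / 8 ≤ M * R₁ := by linarith
  have hR₁0 : 0 ≤ R₁ := by rw [hR₁]; exact Nat.cast_nonneg _
  rw [div_le_iff₀ (by positivity)]
  have h5 : (M : ℝ) * R₁ ≤ 9 * N * R₁ := by gcongr
  linarith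

end Pool.Agent.H602SS
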