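import Pool.Agent.H602SS.Surv

set_option autoImplicit false
set_option maxHeartbeats 4000000

/-!
# The residue classes of the record sieve for arbitrary sets, when few primes are not available

Adapted from `Pool.Agent.H602SS.Surv` and `Pool.Agent.H378R2.PT.Surv`.
-/

namespace Pool.Agent.H602SS

open Finset Filter Pool.Agent.H318R2.Cr Pool.Agent.H361R2.PA

open scoped Classical

theorem card_shift_le (R : ℕ → Prop) (W k : ℕ) (hk : k ≤ W) :
    ((range (W + 1)).filter (fun s : ℕ => R ((k : ℤ) - s).natAbs)).card ≤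
      1 + 2 * ((Finset.Icc 1 W).filter R).card := by
  have h : (range (W + 1)).filter (fun s : ℕ => R ((k : ℤ) - s).natAbs) ⊆
      {k} ∪ (((Finset.Icc 1 W).filter R).image (fun m => k - m) ∪
        ((Finset.Icc 1 W).filter R).image (fun m => k + m)) := by
    intro s hs
    rw [Finset.mem_filter, Finset.mem_range] at hs
    rw [Finset.mem_union, Finset.mem_union, Finset.mem_singleton, Finset.mem_image,
      Finset.mem_image]
    obtain ⟨h1, h2⟩ := hs
    rcases lt_trichotomy s k with h3 | h3 | h3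
    · right; left
      refine ⟨k - s, ?_, by omega⟩
      rw [Finset.mem_filter, Finset.mem_Icc]
      have e : ((k : ℤ) - s).natAbs = k - s := by omega
      rw [e] at h2
      exact ⟨⟨by omega, by omega⟩, h2⟩
    · left; exact h3
    · right; right
      refine ⟨s - k, ?_, by omega⟩
      rw [Finset.mem_filter, Finset.mem_Icc]
      have e : ((k : ℤ) - s).natAbs = s - k := by omega
      rw [e] at h2
      exact ⟨⟨by omega, by omega⟩, h2⟩
  have h1 := Finset.card_le_card h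
  have h2 := Finset.card_union_le {k} (((Finset.Icc 1 W).filter R).image (fun m => k - m) ∪
        ((Finset.Icc 1 W).filter R).image (fun m => k + m))
  have h3 := Finset.card_union_le (((Finset.Icc 1 W).filter R).image (fun m => k - m))
        (((Finset.Icc 1 W).filter R).image (fun m => k + m))
  have h4 : (((Finset.Icc 1 W).filter R).image (fun m => k - m)).card ≤
    ((Finset.Icc 1 W).filter R).card := Finset.card_image_le
  have h5 : (((Finset.Icc 1 W).filter R).image (fun m => k + m)).card ≤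
    ((Finset.Icc 1 W).filter R).card := Finset.card_image_le
  rw [Finset.card_singleton] at h2
  omega

/-- averaging over the shift -/
theorem exists_shift (R : ℕ → Prop) (W : ℕ) (T : Finset ℕ) (hT : ∀ k ∈ T, k ≤ W) :
    ∃ s ≤ W, (T.filter (fun k : ℕ => R ((k : ℤ) - s).natAbs)).card * (W + 1) ≤
      T.card * (1 + 2 * ((Finset.Icc 1 W).filter R).card) := by
  by_contra hcon
  push Not at hcon
  have h1 : ∑ s ∈ range (W + 1), (T.filter (fun k : ℕ => R ((k : ℤ) - s).natAbs)).card =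
      ∑ k ∈ T, ((range (W + 1)).filter (fun s : ℕ => R ((k : ℤ) - s).natAbs)).card := by
    simp_rw [Finset.card_filter]
    exact Finset.sum_comm
  have h2 : ∑ k ∈ T, ((range (W + 1)).filter (fun s : ℕ => R ((k : ℤ) - s).natAbs)).card ≤
      T.card * (1 + 2 * ((Finset.Icc 1 W).filter R).card) := by
    rw [← smul_eq_mul]
    apply Finset.sum_le_card_nsmul
    intro k hk
    exact card_shift_le R W k (hT k hk)
  have h3 : ∑ s ∈ range (W + 1), (T.card * (1 + 2 * ((Finset.Icc 1 W).filter R).card)) <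
      ∑ s ∈ range (W + 1), (T.filter (fun k : ℕ => R ((k : ℤ) - s).natAbs)).card * (W + 1) := by
    apply Finset.sum_lt_sum_of_nonempty ⟨0, by simp⟩
    intro s hs
    exact hcon s (by rw [Finset.mem_range] at hs; omega)
  rw [Finset.sum_const, Finset.card_range, smul_eq_mul, ← Finset.sum_mul, h1] at h3
  have h4 := Nat.mul_le_mul_right (W + 1) h2
  have h5 := h3.trans_le h4
  rw [mul_comm] at h5
  exact lt_irrefl _ h5

theorem card_multN (p n : ℕ) (hp : 0 < p) :
    (((Icc 1 n).filter (fun m => p ∣ m)).card : ℝ) ≤ (n : ℝ) / p := by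
  have h1 : (Icc 1 n).filter (fun m => p ∣ m) = (Ioc 0 n).filter (fun m => p ∣ m) := by
    ext m
    simp only [mem_filter, mem_Icc, mem_Ioc]
    constructor <;> rintro ⟨⟨h1, h2⟩, h3⟩ <;> exact ⟨⟨by omega, h2⟩, h3⟩
  rw [h1, Nat.Ioc_filter_dvd_card_eq_div]
  exact Nat.cast_div_le

theorem survT (c₀ : ℝ) (hc₀ : 0 < c₀) (K : ℕ) : ∃ c' : ℝ, 0 < c' ∧ ∃ X₀ : ℝ, ∀ X : ℝ, X₀ ≤ X →
    10000 ≤ Real.log X ∧
    2 * (Real.log X * Real.log (Real.log X) ^ 3) + 1 ≤ (Real.log X) ^ 2 ∧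
    ∀ T : Finset ℤ, (∀ t ∈ T, |(t : ℝ)| ≤ Real.log X * Real.log (Real.log X) ^ 3) →
      (T.card : ℝ) ≤ c' * FF 1 X →
    ∀ S : Finset ℕ, S.card ≤ K → ∃ b : ℕ → ℕ,
      ((T.filter (fun a => ∀ p : ℕ, p.Prime → (p : ℝ) ≤ Real.log X / 10 →
        p ∉ S → ¬ (p : ℤ) ∣ (b p : ℤ) + a)).card : ℝ) ≤ c₀ * Real.log X := by
  obtain ⟨y₀, hmed⟩ := card_med
  obtain ⟨c₂, hc₂, X₂, hfacts⟩ := facts (1000 + K + 10 * |y₀|)
  obtain ⟨X₃, hsq⟩ := ev_sq 60
  set c' : ℝ := c₀ / (250 * c₂ * 2 ^ K) with hc'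
  have hc'0 : 0 < c' := by positivity
  have hc'2 : c' * (250 * c₂ * 2 ^ K) = c₀ := by
    rw [hc']
    field_simp
  clear_value c'
  refine ⟨c', hc'0, max X₂ X₃, ?_⟩
  intro X hX
  obtain ⟨hX0, g1, g2, g3, g4, g5, g6, g7, g8, g9, g10, g11, g12, g13, g14⟩ :=
    hfacts X ((le_max_left _ _).trans hX)
  have g15 := hsq X ((le_max_right _ _).trans hX)
  have hFFd : FF 1 X = Real.log X * Real.log (Real.log X) ^ 2 *
    Real.log (Real.log (Real.log (Real.log X))) / Real.log (Real.log (Real.log X)) ^ 2 := by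
    unfold FF
    rw [pow_one]
  set L1 := Real.log X with hL1
  set u₂ := Real.log L1 with hu₂
  set u₃ := Real.log u₂ with hu₃
  set u₄ := Real.log u₃ with hu₄
  set y := L1 / 10 with hy
  have hy0 : 0 < y := by rw [hy]; linarith
  have hL10 : 0 < L1 := by linarith
  have hu₃0 : 0 < u₃ := by linarith
  have hu₂0 : 0 < u₂ := by linarith
  have hu₄0 : 0 < u₄ := by linarith
  have hyab : 0 ≤ |y₀| := abs_nonneg _
  have hKr : (0 : ℝ) ≤ K := Nat.cast_nonneg K
  have hbig : 1000 + (K : ℝ) + 10 * |y₀| ≤ u₂ := by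
    calc 1000 + (K : ℝ) + 10 * |y₀| = (1000 + (K : ℝ) + 10 * |y₀|) * 1 := by ring
      _ ≤ (1000 + (K : ℝ) + 10 * |y₀|) * u₃ := by gcongr; linarith
      _ ≤ u₂ := g6
  have hu2k : 1000 ≤ u₂ := by linarith
  have hKu : (K : ℝ) ≤ u₂ := by linarith
  have hexp : Real.exp u₂ = L1 := Real.exp_log hL10
  have hL1u : 41 * u₂ ^ 3 ≤ L1 := by
    have h1 := Real.pow_div_factorial_le_exp u₂ hu₂0.le 4
    rw [hexp] at h1
    have h2 : ((Nat.factorial 4 : ℕ) : ℝ) = 24 := by norm_num [Nat.factorial]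
    rw [h2, div_le_iff₀ (by norm_num)] at h1
    have h3 : u₂ ^ 4 = u₂ * u₂ ^ 3 := by ring
    rw [h3] at h1
    have h4 : 1000 * u₂ ^ 3 ≤ u₂ * u₂ ^ 3 := by gcongr
    linarith
  have hu23 : 1 ≤ u₂ ^ 3 := one_le_pow₀ (by linarith)
  refine ⟨g1, ?_, ?_⟩
  · have h1 : L1 * (41 * u₂ ^ 3) ≤ L1 * L1 := by gcongr
    have h2 : 1 * 1 ≤ L1 * u₂ ^ 3 := mul_le_mul (by linarith) hu23 (by norm_num) (by linarith)
    have h3 : L1 ^ 2 = L1 * L1 := by ring
    rw [h3]
    linarith
  intro T hT hTc S hSK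
  set W : ℕ := ⌊L1 * u₂ ^ 3⌋₊ with hW
  have hWle : (W : ℝ) ≤ L1 * u₂ ^ 3 := Nat.floor_le (by positivity)
  have hWgt : L1 * u₂ ^ 3 < W + 1 := Nat.lt_floor_add_one _
  have hTW : ∀ t ∈ T, -(W : ℤ) ≤ t ∧ t ≤ W := by
    intro t ht
    have h1 := hT t ht
    have h2 : (t.natAbs : ℝ) ≤ L1 * u₂ ^ 3 := by
      rw [Nat.cast_natAbs]
      push_cast
      exact h1
    have h3 : t.natAbs ≤ W := Nat.le_floor h2
    constructor <;> omega
  clear_value W
  have hWL : L1 ≤ W := by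
    have h1 : L1 * 2 ≤ L1 * u₂ ^ 3 := by
      gcongr
      calc (2 : ℝ) ≤ 2 ^ 3 := by norm_num
        _ ≤ u₂ ^ 3 := by gcongr; linarith
    linarith
  have hW2 : ((2 * W : ℕ) : ℝ) = 2 * (W : ℝ) := by push_cast; ring
  -- the count of the numbers without medium prime factors
  set R : ℕ → Prop := fun m => ∀ p : ℕ, p.Prime → (p : ℝ) ≤ y → WW y < Real.log p → p ∉ S →
    ¬ p ∣ m with hR
  have hcm := hmed y (by
      have := le_abs_self y₀
      rw [hy]
      linarith [(Real.log_le_sub_one_of_pos hL10)]) (2 * W) (by rw [hW2, hy]; linarith) (by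
      rw [hW2]
      have h1 : (u₂ / 2) ^ 4 ≤ (Real.log y) ^ 4 := by gcongr
      have h2 : (u₂ / 2) ^ 4 = u₂ * u₂ ^ 3 / 16 := by ring
      have h3 : 1000 * u₂ ^ 3 ≤ u₂ * u₂ ^ 3 := by gcongr
      have h4 : 20 * u₂ ^ 3 ≤ (Real.log y) ^ 4 := by
        rw [h2] at h1
        linarith
      calc 2 * (W : ℝ) ≤ 2 * (L1 * u₂ ^ 3) := by gcongr
        _ = y * (20 * u₂ ^ 3) := by rw [hy]; ring
        _ ≤ y * (Real.log y) ^ 4 := by gcongr)
  rw [hW2] at hcm
  have hcm2 : ((NM y (2 * W)).card : ℝ) ≤ 240 * W * (u₃ / u₂) := by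
    refine hcm.trans ?_
    have h1 : 60 * (2 * (W : ℝ)) * Real.log (Real.log y) / Real.log y ≤
        60 * (2 * (W : ℝ)) * u₃ / (u₂ / 2) := by
      apply div_le_div₀ (by positivity) _ (by positivity) g11
      gcongr
    refine h1.trans (le_of_eq ?_)
    field_simp
    ring
  -- the size of the smoothness bound
  have hE : u₂ ^ 3 ≤ Real.exp (WW y) := by
    have hlog2 : Real.log 2 ≤ 1 := by have := Real.log_two_lt_d9; linarith
    have hly0 : 0 < Real.log y := by linarith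
    have hℓ₂1 : u₃ / 2 ≤ Real.log (Real.log y) := by
      have h1 := Real.log_le_log (by linarith) g11
      rw [Real.log_div hu₂0.ne' (by norm_num)] at h1
      linarith
    have hℓ₂0 : 0 < Real.log (Real.log y) := by linarith
    have hℓ₃1 : 1 ≤ Real.log (Real.log (Real.log y)) := by
      have h1 := Real.log_le_log (by linarith) hℓ₂1
      rw [Real.log_div hu₃0.ne' (by norm_num)] at h1
      linarith
    have h1 : 3 * u₃ ≤ WW y := by
      unfold WW
      rw [le_div_iff₀ (by positivity)]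
      calc 3 * u₃ * (10 * Real.log (Real.log y)) ≤ 3 * u₃ * (10 * u₃) := by gcongr
        _ = 60 * u₃ ^ 2 / 2 := by ring
        _ ≤ u₂ / 2 := by gcongr
        _ ≤ Real.log y * 1 := by rw [mul_one]; exact g11
        _ ≤ Real.log y * Real.log (Real.log (Real.log y)) := by gcongr
    calc u₂ ^ 3 = Real.exp (3 * u₃) := by
          rw [hu₃, show (3 : ℝ) * Real.log u₂ = Real.log (u₂ ^ 3) by
            rw [Real.log_pow]; norm_num, Real.exp_log (by positivity)]
      _ ≤ _ := Real.exp_le_exp.2 h1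
  set S' := S.filter (fun p : ℕ => p.Prime ∧ WW y < Real.log p) with hS'
  have hS'c : S'.card ≤ K := (card_filter_le _ _).trans hSK
  have hcnt : (((Icc 1 (2 * W)).filter R).card : ℝ) ≤ 240 * W * (u₃ / u₂) +
      K * (2 * W / u₂ ^ 3) := by
    have h1 : (Icc 1 (2 * W)).filter R ⊆ NM y (2 * W) ∪
        S'.biUnion (fun p => (Icc 1 (2 * W)).filter (fun m => p ∣ m)) := by
      intro m hm
      rw [mem_filter] at hm
      obtain ⟨hm1, hm2⟩ := hm
      rw [mem_union, mem_biUnion]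
      by_cases h1 : ∃ p ∈ S', p ∣ m
      · obtain ⟨p, hp, hpm⟩ := h1
        exact Or.inr ⟨p, hp, mem_filter.2 ⟨hm1, hpm⟩⟩
      · left
        rw [NM, mem_filter]
        refine ⟨hm1, fun p hp hpa => ?_⟩
        by_contra hcon
        push Not at hcon
        by_cases hpS : p ∈ S
        · exact h1 ⟨p, mem_filter.2 ⟨hpS, hp, hcon.2⟩, hpa⟩
        · exact hm2 p hp hcon.1 hcon.2 hpS hpa
    have h2 : ((Icc 1 (2 * W)).filter R).card ≤ (NM y (2 * W)).card +
        ∑ p ∈ S', ((Icc 1 (2 * W)).filter (fun m => p ∣ m)).card :=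
      (card_le_card h1).trans ((card_union_le _ _).trans (Nat.add_le_add_left card_biUnion_le _))
    have h3 : (((Icc 1 (2 * W)).filter R).card : ℝ) ≤ (NM y (2 * W)).card +
        ∑ p ∈ S', (((Icc 1 (2 * W)).filter (fun m => p ∣ m)).card : ℝ) := by
      exact_mod_cast h2
    have h4 : ∑ p ∈ S', (((Icc 1 (2 * W)).filter (fun m => p ∣ m)).card : ℝ) ≤
        K * (2 * W / u₂ ^ 3) := by
      have h5 : ∀ p ∈ S', (((Icc 1 (2 * W)).filter (fun m => p ∣ m)).card : ℝ) ≤
          2 * W / u₂ ^ 3 := by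
        intro p hp
        have hp2 := (mem_filter.1 hp).2
        have hp0 : 0 < p := hp2.1.pos
        have hp0r : (0 : ℝ) < p := by exact_mod_cast hp0
        have h6 : u₂ ^ 3 ≤ p := by
          refine hE.trans ?_
          rw [← Real.exp_log hp0r]
          exact Real.exp_le_exp.2 hp2.2.le
        refine (card_multN p (2 * W) hp0).trans ?_
        rw [hW2]
        gcongr
      calc ∑ p ∈ S', (((Icc 1 (2 * W)).filter (fun m => p ∣ m)).card : ℝ) ≤
          ∑ _p ∈ S', (2 * W / u₂ ^ 3) := sum_le_sum h5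
        _ = S'.card * (2 * W / u₂ ^ 3) := by rw [sum_const, nsmul_eq_mul]
        _ ≤ _ := by
          have h8 : (S'.card : ℝ) ≤ K := by exact_mod_cast hS'c
          have h9 : 0 ≤ 2 * (W : ℝ) / u₂ ^ 3 := by positivity
          exact mul_le_mul_of_nonneg_right h8 h9
    linarith
  have hW0 : (0 : ℝ) < W := by linarith
  have hcnt2 : 1 + 2 * (((Icc 1 (2 * W)).filter R).card : ℝ) ≤
      250 * (u₃ / u₂) * ((2 * W : ℕ) + 1 : ℝ) := by
    have h1 : 1 ≤ W * (u₃ / u₂) := by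
      rw [← mul_div_assoc, le_div_iff₀ hu₂0]
      have h2 : u₂ ≤ W := (Real.log_le_sub_one_of_pos hL10).trans (by linarith)
      have h3 : 1 ≤ u₃ := by linarith
      calc 1 * u₂ = u₂ * 1 := by ring
        _ ≤ W * u₃ := by gcongr
    have h2 : K * (2 * W / u₂ ^ 3) ≤ 2 * (W * (u₃ / u₂)) := by
      have h3 : (K : ℝ) * (2 * W / u₂ ^ 3) ≤ u₂ * (2 * W / u₂ ^ 3) := by gcongr
      have h4 : u₂ * (2 * W / u₂ ^ 3) = 2 * (W * (1 / u₂ / u₂)) := by
        field_simp
      have h5 : 1 / u₂ ≤ u₃ := by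
        rw [div_le_iff₀ hu₂0]
        nlinarith
      have h6 : 2 * ((W : ℝ) * (1 / u₂ / u₂)) ≤ 2 * (W * (u₃ / u₂)) := by gcongr
      linarith
    have h3 : 0 ≤ u₃ / u₂ := by positivity
    rw [hW2]
    have h4 : 250 * (u₃ / u₂) * (2 * (W : ℝ) + 1) = 500 * (W * (u₃ / u₂)) + 250 * (u₃ / u₂) := by
      ring
    rw [h4]
    have h5 : 240 * (W : ℝ) * (u₃ / u₂) = 240 * (W * (u₃ / u₂)) := by ring
    rw [h5] at hcnt
    linarith
  -- the shift
  obtain ⟨T', hT'⟩ : ∃ T' : Finset ℕ, T' = T.image (fun t : ℤ => (t + W).toNat) := ⟨_, rfl⟩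
  have hT'c : T'.card ≤ T.card := by rw [hT']; exact card_image_le
  obtain ⟨s, -, hs'⟩ := exists_shift R (2 * W) T' (by
    intro k hk
    rw [hT', mem_image] at hk
    obtain ⟨t, ht, rfl⟩ := hk
    have := hTW t ht
    omega)
  set A0 := T.filter (fun a => R (a - ((s : ℤ) - W)).natAbs) with hA0def
  have hA0 : A0.card ≤ (T'.filter (fun k : ℕ => R ((k : ℤ) - s).natAbs)).card := by
    refine card_le_card_of_injOn (fun t : ℤ => (t + W).toNat) ?_ ?_
    · intro a ha
      have ha' := mem_filter.1 (mem_coe.1 ha)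
      have h1 := hTW a ha'.1
      refine mem_coe.2 (mem_filter.2 ⟨?_, ?_⟩)
      · rw [hT']
        exact mem_image_of_mem _ ha'.1
      · have h2 : (((a + W).toNat : ℕ) : ℤ) - s = a - ((s : ℤ) - W) := by omega
        simp only
        rw [h2]
        exact ha'.2
    · intro a ha a' ha' e
      have h1 := hTW a (mem_filter.1 (mem_coe.1 ha)).1
      have h2 := hTW a' (mem_filter.1 (mem_coe.1 ha')).1
      simp only at e
      omega
  have hA0c : (A0.card : ℝ) ≤ T.card * (250 * (u₃ / u₂)) := by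
    have h1 : ((T'.filter (fun k : ℕ => R ((k : ℤ) - s).natAbs)).card : ℝ) *
        ((2 * W : ℕ) + 1 : ℝ) ≤ T'.card * (1 + 2 * (((Icc 1 (2 * W)).filter R).card : ℝ)) := by
      exact_mod_cast hs'
    have hpos : (0 : ℝ) < ((2 * W : ℕ) + 1 : ℝ) := by positivity
    have h2 : (A0.card : ℝ) * ((2 * W : ℕ) + 1 : ℝ) ≤
        (T.card * (250 * (u₃ / u₂))) * ((2 * W : ℕ) + 1 : ℝ) := by
      calc (A0.card : ℝ) * ((2 * W : ℕ) + 1 : ℝ) ≤
          ((T'.filter (fun k : ℕ => R ((k : ℤ) - s).natAbs)).card : ℝ) *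
            ((2 * W : ℕ) + 1 : ℝ) := by
            have h3 : (A0.card : ℝ) ≤
              ((T'.filter (fun k : ℕ => R ((k : ℤ) - s).natAbs)).card : ℝ) := by
              exact_mod_cast hA0
            exact mul_le_mul_of_nonneg_right h3 hpos.le
        _ ≤ T'.card * (1 + 2 * (((Icc 1 (2 * W)).filter R).card : ℝ)) := h1
        _ ≤ T.card * (250 * (u₃ / u₂) * ((2 * W : ℕ) + 1 : ℝ)) := by
            have h3 : (T'.card : ℝ) ≤ T.card := by exact_mod_cast hT'c
            exact mul_le_mul h3 hcnt2 (by positivity) (by positivity)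
        _ = _ := by ring
    exact le_of_mul_le_mul_right h2 hpos
  set v : ℕ := ⌊Real.exp (WW y)⌋₊ with hv
  have hvle : (v : ℝ) ≤ Real.exp (WW y) := Nat.floor_le (Real.exp_pos _).le
  obtain ⟨b, hb⟩ := presieve ((Pz v).filter (fun p => p ∉ S))
    (fun p hp => (mem_Pz.1 (mem_filter.1 hp).1).1) A0
  have hprod := prod_drop K v S hSK
  refine ⟨fun p => if Real.log p ≤ WW y then b p else ((((W : ℤ) - s) % (p : ℤ)).toNat), ?_⟩
  set b' : ℕ → ℕ := fun p => if Real.log p ≤ WW y then b p else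
    ((((W : ℤ) - s) % (p : ℤ)).toNat) with hb'
  have h1 : (T.filter (fun a => ∀ p : ℕ, p.Prime → (p : ℝ) ≤ y → p ∉ S →
      ¬ (p : ℤ) ∣ (b' p : ℤ) + a)) ⊆
      A0.filter (fun a => ∀ p ∈ (Pz v).filter (fun p => p ∉ S),
        ¬ (p : ℤ) ∣ (b p : ℤ) + a) := by
    intro a ha
    rw [mem_filter] at ha
    obtain ⟨haA, hsur⟩ := ha
    rw [mem_filter, hA0def, mem_filter]
    refine ⟨⟨haA, ?_⟩, ?_⟩
    · rw [hR]
      intro p hp hpy hpW hpS hpa
      apply hsur p hp hpy hpS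
      have hp0 : (p : ℤ) ≠ 0 := by exact_mod_cast hp.ne_zero
      have h4 : (b' p : ℤ) = ((W : ℤ) - s) % (p : ℤ) := by
        rw [hb']
        simp only [not_le.2 hpW, if_false]
        exact Int.toNat_of_nonneg (Int.emod_nonneg _ hp0)
      have h5 : (p : ℤ) ∣ a - ((s : ℤ) - W) := Int.natCast_dvd.2 hpa
      have h6 : (b' p : ℤ) + a = (a - ((s : ℤ) - W)) - (p : ℤ) * (((W : ℤ) - s) / (p : ℤ)) := by
        rw [h4, Int.emod_def]
        ring
      rw [h6]
      exact dvd_sub h5 (dvd_mul_right _ _)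
    · intro p hp
      rw [mem_filter, mem_Pz] at hp
      obtain ⟨⟨hpp, hpv⟩, hpQ⟩ := hp
      have hp0 : (0 : ℝ) < p := by exact_mod_cast hpp.pos
      have h2 : (p : ℝ) ≤ Real.exp (WW y) := le_trans (by exact_mod_cast hpv) hvle
      have h3 : Real.log p ≤ WW y := by rwa [Real.log_le_iff_le_exp hp0]
      have h4 : (p : ℝ) ≤ y := by
        refine h2.trans ?_
        calc Real.exp (WW y) ≤ Real.exp (Real.log y) := Real.exp_le_exp.2 g10
          _ = y := Real.exp_log hy0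
      have h5 := hsur p hpp h4 hpQ
      have h6 : b' p = b p := by
        rw [hb']
        simp only [h3, if_true]
      rw [h6] at h5
      exact h5
  have h2 : (((T.filter (fun a => ∀ p : ℕ, p.Prime → (p : ℝ) ≤ y → p ∉ S →
      ¬ (p : ℤ) ∣ (b' p : ℤ) + a)).card : ℕ) : ℝ) ≤
      ((A0.filter (fun a => ∀ p ∈ (Pz v).filter (fun p => p ∉ S),
        ¬ (p : ℤ) ∣ (b p : ℤ) + a)).card : ℝ) := by
    exact_mod_cast card_le_card h1
  refine h2.trans (hb.trans ?_)
  obtain ⟨W₂, hW₂⟩ : ∃ W₂ : ℝ, W₂ = ∏ p ∈ (Pz v).filter (fun p => p ∉ S), (1 - 1 / (p : ℝ)) :=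
    ⟨_, rfl⟩
  have hW0' : 0 ≤ W₂ := by
    rw [hW₂]
    exact prod_nonneg fun p hp =>
      (one_sub_inv_pos (mem_Pz.1 (mem_filter.1 hp).1).1).le
  rw [← hW₂] at hprod ⊢
  have hWρ : W₂ ≤ 2 ^ K * (c₂ * u₃ / (u₂ * u₄)) := by
    refine hprod.trans ?_
    gcongr
  have hu3' : 0 ≤ u₃ / u₂ := by positivity
  calc (A0.card : ℝ) * W₂ ≤ (T.card * (250 * (u₃ / u₂))) * (2 ^ K * (c₂ * u₃ / (u₂ * u₄))) := by
        gcongr
    _ ≤ (c' * FF 1 X * (250 * (u₃ / u₂))) * (2 ^ K * (c₂ * u₃ / (u₂ * u₄))) := by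
        gcongr
    _ = (c' * (250 * c₂ * 2 ^ K)) * L1 := by
        rw [hFFd]
        field_simp
    _ = c₀ * L1 := by rw [hc'2]

end Pool.Agent.H602SS
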