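import Pool.Agent.H602SS.SpecR
import Pool.Agent.H602SS.Good
import Pool.Agent.H602SS.Tools
import Pool.Agent.H602SS.SurvT
import Pool.Agent.TH915.PW.Cov
import Pool.Agent.W147.PS.Scale

set_option autoImplicit false
set_option maxHeartbeats 4000000

/-!
# Prime-free translates of arbitrary sets of record size by popular sums of three dense sets
-/

namespace Pool.Agent.H602SS

open Finset Filter
open Pool.Agent.W147.PS (ff ff_compare ev_pow)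

open scoped Classical

/-- The translate of `T` by `n₀`, moved by a multiple `P' d j`, `1 ≤ j ≤ X`, is covered. -/
theorem windowT (θ CQ : ℝ) (K : ℕ) (hθ0 : 0 < θ) (hθ1 : θ ≤ 1) (hCQ1 : 1 ≤ CQ) :
    ∃ c' : ℝ, 0 < c' ∧ ∃ M₀ : ℝ, ∀ N : ℝ, M₀ ≤ N →
      ∀ T : Finset ℤ,
      (∀ t ∈ T, |(t : ℝ)| ≤ Real.log (N ^ θ) * Real.log (Real.log (N ^ θ)) ^ 3) →
      (T.card : ℝ) ≤ c' * ff N →
      ∃ b : Finset ℕ → ℤ, ∀ S : Finset ℕ, S.card ≤ K →
      ∀ d : ℕ, 1 ≤ d → (d : ℝ) ≤ (CQ * N ^ θ) ^ K → ∀ P' : ℕ, 1 ≤ P' →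
      (∀ p : ℕ, p.Prime → p ∣ P' → (p : ℝ) ≤ Real.log (N ^ θ) / 10) →
      (∀ p : ℕ, p.Prime → (p : ℝ) ≤ Real.log (N ^ θ) / 10 → p ∉ S → p ∣ P') →
      ∀ n₀ : ℤ, (P' : ℤ) ∣ n₀ - b S → ∃ j : ℕ, 1 ≤ j ∧ (j : ℝ) ≤ N ^ θ ∧
        ∀ t ∈ T, ∃ p : ℕ, p.Prime ∧ (p : ℝ) ≤ N ^ θ ∧
          (p : ℤ) ∣ n₀ + ((P' * d : ℕ) : ℤ) * (j : ℤ) + t := by
  obtain ⟨c₁, hc₁, X₁, hcov⟩ := Pool.Agent.TH915.PW.coveringG
  obtain ⟨c', hc', X₂, hsurv⟩ := survT c₁ hc₁ K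
  have hK0 : (0 : ℝ) ≤ K := Nat.cast_nonneg K
  have hCQ0 : 0 < CQ := by linarith
  have tθ : Tendsto (fun M : ℝ => M ^ θ) atTop atTop := tendsto_rpow_atTop hθ0
  have tlog : Tendsto (fun M : ℝ => Real.log (M ^ θ)) atTop atTop :=
    Real.tendsto_log_atTop.comp tθ
  have tlog2 : Tendsto (fun M : ℝ => Real.log (Real.log (M ^ θ))) atTop atTop :=
    Real.tendsto_log_atTop.comp tlog
  have hlogx : ∀ᶠ X : ℝ in atTop, Real.log X / 10 ≤ X ^ (1 / 10 : ℝ) := by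
    have h := (isLittleO_log_rpow_atTop (show (0 : ℝ) < 1 / 10 by norm_num)).def
      (show (0 : ℝ) < 1 by norm_num)
    filter_upwards [h, eventually_ge_atTop (1 : ℝ)] with X hX hX1
    rw [Real.norm_eq_abs, abs_of_nonneg (Real.log_nonneg hX1), Real.norm_eq_abs,
      abs_of_nonneg (Real.rpow_nonneg (by linarith) _)] at hX
    have := Real.log_nonneg hX1
    linarith
  have hevR : ∀ᶠ M : ℝ in atTop, (1 ≤ M) ∧ X₁ ≤ M ^ θ ∧ X₂ ≤ M ^ θ ∧
      10 ≤ M ^ θ ∧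
      θ / 32 * ff M ≤ ff (M ^ θ) ∧
      Real.log CQ ≤ Real.log (M ^ θ) ∧ (K : ℝ) + 1 ≤ Real.log (Real.log (M ^ θ)) ∧
      Real.log (M ^ θ) / 10 ≤ (M ^ θ) ^ (1 / 10 : ℝ) := by
    filter_upwards [eventually_ge_atTop (1 : ℝ), tθ.eventually_ge_atTop X₁,
      tθ.eventually_ge_atTop X₂, tθ.eventually_ge_atTop 10, ff_compare θ hθ0 hθ1,
      tlog.eventually_ge_atTop (Real.log CQ),
      tlog2.eventually_ge_atTop ((K : ℝ) + 1), tθ.eventually hlogx] with M a1 a2 a3 a4 a5 a7 a8 a9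
    refine ⟨a1, a2, a3, a4, ?_, a7, a8, a9⟩
    refine (a5.2 (M ^ θ) le_rfl ?_).1
    calc M ^ θ ≤ M ^ (2 : ℝ) := Real.rpow_le_rpow_of_exponent_le a1 (by linarith)
      _ = M ^ 2 := by norm_num
  obtain ⟨M₀, hM₀⟩ := eventually_atTop.1 hevR
  refine ⟨c' * (θ / 32), by positivity, M₀, ?_⟩
  intro N hN Tt hTt hTtc
  obtain ⟨b1, b2, b3, b4, b5, b7, b8, b9⟩ := hM₀ N hN
  have hNr0 : (0 : ℝ) < N := by linarith
  obtain ⟨X, hX⟩ : ∃ X : ℝ, X = N ^ θ := ⟨_, rfl⟩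
  rw [← hX] at b2 b3 b4 b5 b7 b8 b9 hTt
  simp only [← hX]
  have hX0 : 0 < X := by linarith
  have hX1 : 1 ≤ X := by linarith
  obtain ⟨hL4, hLL, hb'⟩ := hsurv X b3
  have hff : Pool.Agent.H361R2.PA.FF 1 X = ff X := by
    unfold Pool.Agent.H361R2.PA.FF ff
    rw [pow_one]
  have hb := hb' Tt hTt (by
    rw [hff]
    calc (Tt.card : ℝ) ≤ c' * (θ / 32) * ff N := hTtc
      _ = c' * (θ / 32 * ff N) := by ring
      _ ≤ c' * ff X := by gcongr)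
  clear hb'
  obtain ⟨l, hl⟩ : ∃ l : ℝ, l = Real.log X := ⟨_, rfl⟩
  simp only [← hl] at hL4 hLL b7 b8 b9 hb hTt ⊢
  choose! bb hbb using hb
  have hcrt : ∀ S : Finset ℕ, ∃ b0 : ℤ, ∀ p : ℕ, p.Prime → (p : ℝ) ≤ l / 10 →
      (p : ℤ) ∣ b0 - bb S p := by
    intro S
    obtain ⟨b0, -, hb0⟩ := Pool.Agent.H256R2.SC.LG.exists_crt ⌊l / 10⌋₊ (bb S)
    refine ⟨b0, fun p hp hpl => ?_⟩
    have h8 := hb0 p hp (Nat.le_floor hpl)
    have h9 := Nat.modEq_iff_dvd.1 h8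
    rw [← neg_sub]
    exact (dvd_neg).2 h9
  choose b0 hb0 using hcrt
  refine ⟨b0, ?_⟩
  intro S hSK d hd1 hdr P' hP'1 hPp hPS n₀ hdvd
  have hbS := hbb S hSK
  obtain ⟨J, hJ⟩ : ∃ J : ℕ, J = ⌊X⌋₊ := ⟨_, rfl⟩
  have hJX : (J : ℝ) ≤ X := by rw [hJ]; exact Nat.floor_le hX0.le
  have hJX2 : X < J + 1 := by rw [hJ]; exact Nat.lt_floor_add_one _
  have hJ1 : X / 2 ≤ J := by linarith
  -- the covering
  obtain ⟨U, hU⟩ : ∃ U : Finset ℤ, U = Tt.filter (fun a => ∀ p : ℕ, p.Prime →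
      (p : ℝ) ≤ l / 10 → p ∉ S → ¬ (p : ℤ) ∣ (bb S p : ℤ) + a) := ⟨_, rfl⟩
  rw [← hU] at hbS
  have hUI : ∀ a ∈ U, |(a : ℝ)| ≤ l * Real.log l ^ 3 := by
    intro a ha
    rw [hU, mem_filter] at ha
    exact hTt a ha.1
  obtain ⟨Bx, hBx⟩ : ∃ Bx : Finset ℕ, Bx = d.primeFactors.filter (fun p : ℕ => l ^ 2 < p) :=
    ⟨_, rfl⟩
  have hl2 : Real.log l ≤ l := (Real.log_le_sub_one_of_pos (by linarith)).trans (by linarith)
  have hBc' : (Bx.card : ℝ) ≤ 2 * l := by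
    have h1 := Pool.Agent.H361R2.PA.card_large_factors d (by omega) (l ^ 2) (by nlinarith)
    rw [← hBx, Real.log_pow] at h1
    push_cast at h1
    have h2 : Real.log d ≤ K * (2 * l) := by
      calc Real.log d ≤ Real.log ((CQ * X) ^ K) :=
            Real.log_le_log (by exact_mod_cast hd1) hdr
        _ = K * (Real.log CQ + l) := by
            rw [Real.log_pow, Real.log_mul hCQ0.ne' hX0.ne', hl]
        _ ≤ K * (2 * l) := by
            apply mul_le_mul_of_nonneg_left _ hK0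
            linarith
    have h3 : (Bx.card : ℝ) * (2 * (K + 1)) ≤ (K + 1) * (2 * l) := by
      calc (Bx.card : ℝ) * (2 * (K + 1)) ≤ (Bx.card : ℝ) * (2 * Real.log l) := by gcongr
        _ ≤ K * (2 * l) := h1.trans h2
        _ ≤ (K + 1) * (2 * l) := by
          have : 0 ≤ 2 * l := by linarith
          nlinarith
    have h4 : (K + 1 : ℝ) * (Bx.card * 2) ≤ (K + 1) * (2 * l) := by linarith
    have h5 := le_of_mul_le_mul_left h4 (by positivity)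
    linarith
  obtain ⟨j, hj, hjcov⟩ := hcov X b2 Bx (by rw [← hl]; exact hBc') {a // a ∈ U} (by
      rw [Fintype.card_coe, ← hl]; exact hbS) (fun _ a => -(a.1)) (by
      intro p hp hpl _ _ k k' hkk hdv
      rw [← hl] at hpl
      have h5 : -(k.1) - -(k'.1) = k'.1 - k.1 := by ring
      rw [h5] at hdv
      have h1 := hUI _ k.2
      have h2 := hUI _ k'.2
      have h6 : k'.1 - k.1 = 0 := by
        refine Int.eq_zero_of_abs_lt_dvd hdv ?_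
        have h8 : |((k'.1 - k.1 : ℤ) : ℝ)| < p := by
          have h9 : |((k'.1 - k.1 : ℤ) : ℝ)| ≤ |(k'.1 : ℝ)| + |(k.1 : ℝ)| := by
            push_cast
            exact abs_sub _ _
          linarith
        have h10 : ((|k'.1 - k.1| : ℤ) : ℝ) < ((p : ℤ) : ℝ) := by
          push_cast at h8 ⊢
          exact h8
        exact_mod_cast h10
      exact hkk (Subtype.ext (by linarith)))
    ℤ (Ioc (0 : ℤ) J) (fun j => n₀ + ((P' * d : ℕ) : ℤ) * j) (J : ℝ) 1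
    (by linarith) zero_le_one (by
      have h1 : 2 ≤ X ^ (3 / 5 : ℝ) := by
        have h2 : X ^ (1 / 2 : ℝ) ≤ X ^ (3 / 5 : ℝ) :=
          Real.rpow_le_rpow_of_exponent_le hX1 (by norm_num)
        have h3 : (2 : ℝ) ≤ X ^ (1 / 2 : ℝ) := by
          rw [← Real.sqrt_eq_rpow]
          exact Real.le_sqrt_of_sq_le (by linarith)
        linarith
      calc (1 : ℝ) ≤ X ^ (3 / 5 : ℝ) / 2 := by linarith
        _ = X / 2 * X ^ (-(2 / 5) : ℝ) := by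
          have h4 : X ^ (3 / 5 : ℝ) = X * X ^ (-(2 / 5) : ℝ) := by
            conv_rhs => rw [← Real.rpow_one X]
            rw [← Real.rpow_mul hX0.le, ← Real.rpow_add hX0]
            norm_num
          rw [h4]; ring
        _ ≤ J * X ^ (-(2 / 5) : ℝ) := by
          have := Real.rpow_nonneg hX0.le (-(2 / 5) : ℝ)
          gcongr) (by
      intro q hq hqX hqp r
      refine count_ap _ _ _ _ (Nat.pos_of_ne_zero hq.ne_zero) ?_ r
      refine Nat.Coprime.mul_right ?_ ?_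
      · refine Nat.coprime_of_dvd fun p hp hpq hpP => ?_
        have h6 := (hqp p (Nat.mem_primeFactors.2 ⟨hp, hpq, hq.ne_zero⟩)).1
        rw [← hl] at h6
        have h7 := hPp p hp hpP
        nlinarith
      · refine Nat.coprime_of_dvd fun p hp hpq hpd => ?_
        have h6 := hqp p (Nat.mem_primeFactors.2 ⟨hp, hpq, hq.ne_zero⟩)
        rw [← hl] at h6
        apply h6.2
        rw [hBx, mem_filter]
        exact ⟨Nat.mem_primeFactors.2 ⟨hp, hpd, by omega⟩, h6.1⟩)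
  rw [mem_Ioc] at hj
  obtain ⟨j', rfl⟩ : ∃ j' : ℕ, (j' : ℤ) = j := ⟨j.toNat, Int.toNat_of_nonneg hj.1.le⟩
  have hj'J : j' ≤ J := by exact_mod_cast hj.2
  have hj'1 : 1 ≤ j' := by
    have := hj.1
    omega
  refine ⟨j', hj'1, le_trans (by exact_mod_cast hj'J) hJX, ?_⟩
  intro a ha
  obtain ⟨n, hn⟩ : ∃ n : ℤ, n = n₀ + ((P' * d : ℕ) : ℤ) * (j' : ℤ) := ⟨_, rfl⟩
  rw [← hn]
  simp only [← hn] at hjcov
  have hXX : X ^ (1 / 10 : ℝ) ≤ X := by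
    calc X ^ (1 / 10 : ℝ) ≤ X ^ (1 : ℝ) := Real.rpow_le_rpow_of_exponent_le hX1 (by norm_num)
      _ = X := Real.rpow_one _
  by_cases hmU : a ∈ U
  · obtain ⟨p, hp, _, hpX, _, hpd⟩ := hjcov ⟨a, hmU⟩
    refine ⟨p, hp, hpX.trans hXX, ?_⟩
    have h1 : n - -a = n + a := by ring
    rwa [h1] at hpd
  · have h5 : ∃ p : ℕ, p.Prime ∧ (p : ℝ) ≤ l / 10 ∧ p ∉ S ∧
        (p : ℤ) ∣ (bb S p : ℤ) + a := by
      by_contra hcon
      push Not at hcon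
      apply hmU
      rw [hU, mem_filter]
      exact ⟨ha, hcon⟩
    obtain ⟨p, hp, hpl, hpS, hpd⟩ := h5
    refine ⟨p, hp, (hpl.trans b9).trans hXX, ?_⟩
    have hpP' : (p : ℤ) ∣ (P' : ℤ) := Int.natCast_dvd_natCast.2 (hPS p hp hpl hpS)
    have h6 : (p : ℤ) ∣ n₀ - b0 S := hpP'.trans hdvd
    have h7 := hb0 S p hp hpl
    have h8 : n + a = (n₀ - b0 S) + (b0 S - bb S p) +
        ((bb S p : ℤ) + a) + (P' : ℤ) * (d * j') := by
      rw [hn]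
      push_cast
      ring
    rw [h8]
    exact dvd_add (dvd_add (dvd_add h6 h7) hpd) (hpP'.mul_right _)

end Pool.Agent.H602SS
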